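import Pool.Agent.Y381.SN.Bulk

/-!
Four arms around the blocks that meet only one part of a set of jointly pivotal edges.
-/

set_option autoImplicit false

namespace Q291.AL

open H974 H12S H985T H389NS Finset Pool.Agent.Y554.SN

/-- Entering a box from its exterior. -/
theorem enter {c : ℤ × ℤ} {r D : ℕ} (hrD : r ≤ D) {G : Set Edg} {s a : Vtx}
    (hs : s ∈ bdB c D) (h : Reach (G ∩ ↑(blk c D)) s a)
    (ha : inR (c.1 - r) (c.1 + r) (c.2 - r) (c.2 + r) a) :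
    ∃ u ∈ bdB c r, Reach (G ∩ ↑(blk c D \ blk c r)) s u := by
  have key : ∀ y, Reach (G ∩ ↑(blk c D)) s y →
      (∃ u ∈ bdB c r, Reach (G ∩ ↑(blk c D \ blk c r)) s u) ∨
      (¬ inR (c.1 - r) (c.1 + r) (c.2 - r) (c.2 + r) y ∧
        Reach (G ∩ ↑(blk c D \ blk c r)) s y) := by
    intro y hy
    induction hy with
    | refl =>
      by_cases h1 : inR (c.1 - r) (c.1 + r) (c.2 - r) (c.2 + r) s
      · left
        refine ⟨s, S4C_bdB_of h1 ?_, Reach.refl _ _⟩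
        have h2 := S4C_bdB_far hrD hs
        unfold inR at h1
        omega
      · exact Or.inr ⟨h1, Reach.refl _ _⟩
    | @tail y y' _ hst ih =>
      rcases ih with ih | ⟨ih1, ih2⟩
      · exact Or.inl ih
      · obtain ⟨g, ⟨hgG, hgD⟩, hc⟩ := hst
        have hgr : g ∉ blk c r := by
          intro hb
          have := BS_adj_box hb
          rcases hc with ⟨h1, _⟩ | ⟨_, h1⟩
          · rw [← h1] at ih1; exact ih1 this.1
          · rw [← h1] at ih1; exact ih1 this.2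
        have hr : Reach (G ∩ ↑(blk c D \ blk c r)) s y' :=
          ih2.trans (Adj.reach ⟨g, ⟨hgG, mem_coe.2 (Finset.mem_sdiff.2 ⟨mem_coe.1 hgD, hgr⟩)⟩, hc⟩)
        by_cases h1 : inR (c.1 - r) (c.1 + r) (c.2 - r) (c.2 + r) y'
        · left
          refine ⟨y', S4C_bdB_of h1 ?_, hr⟩
          have hadj : |y.1 - y'.1| ≤ 1 ∧ |y.2 - y'.2| ≤ 1 ∧ (y.1 = y'.1 ∨ y.2 = y'.2) := by
            obtain ⟨gx, gy, gb⟩ := g
            cases gb
            · simp only [src_mk, tgt_false] at hc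
              rcases hc with ⟨h2, h3⟩ | ⟨h2, h3⟩ <;> rw [← h2, ← h3] <;> simp
            · simp only [src_mk, tgt_true] at hc
              rcases hc with ⟨h2, h3⟩ | ⟨h2, h3⟩ <;> rw [← h2, ← h3] <;> simp
          obtain ⟨a1, a2, a3⟩ := hadj
          rw [abs_le] at a1 a2
          unfold inR at h1 ih1
          omega
        · exact Or.inr ⟨h1, hr⟩
  rcases key a h with h1 | h1
  · exact h1
  · exact absurd ha h1.1

/-- Case A: the pivotal edge is inside, the two points are outside. -/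
theorem det_out {c : ℤ × ℤ} {r D : ℕ} (hrD : r ≤ D) {a b : Vtx}
    (ha : a.1 ≤ c.1 - D ∨ c.1 + D ≤ a.1 ∨ a.2 ≤ c.2 - D ∨ c.2 + D ≤ a.2)
    (hb : b.1 ≤ c.1 - D ∨ c.1 + D ≤ b.1 ∨ b.2 ≤ c.2 - D ∨ c.2 + D ≤ b.2)
    {w : Edg} (hw : w ∈ blk c r) {G : Set Edg} (h : Pv {a} {b} w G) : A4a c r D G := by
  obtain ⟨⟨u, hu, v, hv, huv⟩, hno⟩ := h
  rw [Set.mem_singleton_iff] at hu hv
  subst hu hv
  have hno' : ¬ Reach (G \ {w}) u v := fun hc => hno ⟨u, rfl, v, rfl, hc⟩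
  have huv' : Reach (G ∪ ↑(blk c r)) u v := by
    refine huv.mono ?_
    rintro g (rfl | hg)
    · exact Or.inr (mem_coe.2 hw)
    · exact Or.inl hg
  have hnuv : ¬ Reach (G \ ↑(blk c r)) u v := by
    intro hc
    refine hno' (hc.mono ?_)
    rintro g ⟨g1, g2⟩
    refine ⟨g1, ?_⟩
    rintro rfl
    exact g2 (mem_coe.2 hw)
  obtain ⟨w1, hw1, r1⟩ := (bulk_enter (by omega) huv').resolve_left hnuv
  obtain ⟨w2, hw2, r2⟩ := (bulk_enter (by omega) huv'.symm).resolve_left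
    (fun hc => hnuv hc.symm)
  have hsub : (G \ ↑(blk c r)) ∩ ↑(RE (c.1 - D) (c.1 + D) (c.2 - D) (c.2 + D)) ⊆
      G ∩ ↑(blk c D \ blk c r) := by
    rintro e ⟨⟨g1, g2⟩, g3⟩
    exact ⟨g1, mem_coe.2 (Finset.mem_sdiff.2 ⟨mem_coe.1 g3, fun hb => g2 (mem_coe.2 hb)⟩)⟩
  have hsub2 : G ∩ ↑(blk c D \ blk c r) ⊆ G \ ↑(blk c r) := by
    rintro e ⟨g1, g2⟩
    exact ⟨g1, fun hb => (Finset.mem_sdiff.1 (mem_coe.1 g2)).2 (mem_coe.1 hb)⟩
  obtain ⟨v1, a1, a2, a3⟩ := first_exit (S4C_bdB_inR hrD hw1) r1.symm ha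
  obtain ⟨v2, b1, b2, b3⟩ := first_exit (S4C_bdB_inR hrD hw2) r2.symm hb
  exact ⟨w1, hw1, w2, hw2, ⟨v1, S4C_bdB_of a1 a2, a3.mono hsub⟩,
    ⟨v2, S4C_bdB_of b1 b2, b3.mono hsub⟩,
    fun hc => hnuv (r1.trans ((hc.mono hsub2).trans r2.symm))⟩

/-- Case B: the two points are inside, the pivotal edge is outside. -/
theorem det_in {c : ℤ × ℤ} {r D : ℕ} (hrD : r ≤ D) {a b : Vtx}
    (ha : inR (c.1 - r) (c.1 + r) (c.2 - r) (c.2 + r) a)
    (hb : inR (c.1 - r) (c.1 + r) (c.2 - r) (c.2 + r) b)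
    {w : Edg} (hw : w ∉ blk c D) {G : Set Edg} (h : Pv {a} {b} w G) : A4a c r D G := by
  obtain ⟨⟨u, hu, v, hv, huv⟩, hno⟩ := h
  rw [Set.mem_singleton_iff] at hu hv
  subst hu hv
  have hno' : ¬ Reach (G \ {w}) u v := fun hc => hno ⟨u, rfl, v, rfl, hc⟩
  -- the ends of `w` are far
  have hfar : ∀ z, z = src w ∨ z = tgt w →
      z.1 ≤ c.1 - D ∨ c.1 + D ≤ z.1 ∨ z.2 ≤ c.2 - D ∨ c.2 + D ≤ z.2 := by
    obtain ⟨x, y, bo⟩ := w
    unfold blk at hw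
    cases bo
    · rw [mem_RE_false] at hw
      rintro z (rfl | rfl)
      · simp only [src_mk]; omega
      · simp only [tgt_false]; omega
    · rw [mem_RE_true] at hw
      rintro z (rfl | rfl)
      · simp only [src_mk]; omega
      · simp only [tgt_true]; omega
  obtain ⟨s, hs, t, ht, r1, r2⟩ : ∃ s, (s = src w ∨ s = tgt w) ∧ ∃ t, (t = src w ∨ t = tgt w) ∧
      Reach (G \ {w}) u s ∧ Reach (G \ {w}) v t := by
    rcases reach_insert huv with h1 | ⟨h1, h2⟩ | ⟨h1, h2⟩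
    · exact absurd h1 hno'
    · exact ⟨_, Or.inl rfl, _, Or.inr rfl, h1, h2.symm⟩
    · exact ⟨_, Or.inr rfl, _, Or.inl rfl, h1, h2.symm⟩
  have mono : ∀ {z : Vtx}, inR (c.1 - r) (c.1 + r) (c.2 - r) (c.2 + r) z →
      inR (c.1 - D) (c.1 + D) (c.2 - D) (c.2 + D) z := by
    intro z hz
    unfold inR at hz ⊢
    omega
  obtain ⟨v1, a1, a2, a3⟩ := first_exit (mono ha) r1 (hfar s hs)
  obtain ⟨v2, b1, b2, b3⟩ := first_exit (mono hb) r2 (hfar t ht)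
  have hv1 := S4C_bdB_of a1 a2
  have hv2 := S4C_bdB_of b1 b2
  obtain ⟨u1, hu1, k1⟩ := enter hrD hv1 a3.symm ha
  obtain ⟨u2, hu2, k2⟩ := enter hrD hv2 b3.symm hb
  have hsub : (G \ {w}) ∩ ↑(blk c D \ blk c r) ⊆ G ∩ ↑(blk c D \ blk c r) := by
    rintro g ⟨g1, g2⟩
    exact ⟨g1.1, g2⟩
  have hsub2 : G ∩ ↑(blk c D \ blk c r) ⊆ G \ {w} := by
    rintro g ⟨g1, g2⟩
    refine ⟨g1, ?_⟩
    rintro rfl
    exact hw (Finset.mem_sdiff.1 (mem_coe.1 g2)).1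
  refine ⟨u1, hu1, u2, hu2, ⟨v1, hv1, (k1.mono hsub).symm⟩, ⟨v2, hv2, (k2.mono hsub).symm⟩,
    fun hc => hno' ?_⟩
  have e1 : Reach (G \ {w}) u v1 := a3.mono Set.inter_subset_left
  have e2 : Reach (G \ {w}) v v2 := b3.mono Set.inter_subset_left
  have e3 : Reach (G \ {w}) v1 u1 := (k1.mono hsub).mono hsub2
  have e4 : Reach (G \ {w}) v2 u2 := (k2.mono hsub).mono hsub2
  exact e1.trans (e3.trans ((hc.mono hsub2).trans (e4.symm.trans e2.symm)))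

end Q291.AL
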