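import Pool.Agent.Q291.AL.Psi
import Pool.Agent.Y21.NE.Tree

/-!
Sums over the sets which carry a tree, and over pairs.
-/

set_option autoImplicit false

namespace Q291.AL

open Finset

/-- `2 ^ (3/4)`. -/
noncomputable def rho : ℝ := (2 : ℝ) ^ (3 / 4 : ℝ)

theorem rho_ge : (3 / 2 : ℝ) ≤ rho := by
  have h1 : rho ^ 4 = 8 := by
    unfold rho
    rw [← Real.rpow_natCast, ← Real.rpow_mul (by norm_num)]
    norm_num
  have h0 : 0 < rho := by unfold rho; positivity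
  by_contra hc
  push Not at hc
  have h2 : rho ^ 4 < (3 / 2 : ℝ) ^ 4 := pow_lt_pow_left₀ hc h0.le (by norm_num)
  rw [h1] at h2
  norm_num at h2

theorem rho_le : rho ≤ 2 := by
  unfold rho
  calc (2 : ℝ) ^ (3 / 4 : ℝ) ≤ (2 : ℝ) ^ (1 : ℝ) :=
        Real.rpow_le_rpow_of_exponent_le (by norm_num) (by norm_num)
    _ = 2 := Real.rpow_one _

theorem dyad {s J : ℕ} (h : s ≤ 2 ^ J) : ∃ j ≤ J, s ≤ 2 ^ j ∧ 2 ^ j ≤ 2 * max 1 s := by
  classical
  have hex : ∃ j, s ≤ 2 ^ j := ⟨J, h⟩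
  refine ⟨Nat.find hex, Nat.find_min' hex h, Nat.find_spec hex, ?_⟩
  rcases Nat.eq_zero_or_pos (Nat.find hex) with h0 | h0
  · rw [h0]; omega
  · have h1 := Nat.find_min hex (Nat.sub_lt h0 one_pos)
    obtain ⟨j, hj⟩ : ∃ j, Nat.find hex = j + 1 := ⟨Nat.find hex - 1, by omega⟩
    rw [hj] at h1 ⊢
    rw [pow_succ]
    have : j + 1 - 1 = j := by omega
    rw [this] at h1
    omega

/-- A weight is bounded by a dyadic sum. -/
theorem ps_dyad {s J : ℕ} (h : s ≤ 2 ^ J) :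
    ps s ≤ 4 * ∑ j ∈ range (J + 1), if s ≤ 2 ^ j then ps (2 ^ j) else 0 := by
  obtain ⟨j, hj, h1, h2⟩ := dyad h
  have h3 : ps s ≤ ((2 : ℕ) : ℝ) ^ 2 * ps (2 ^ j) := ps_cmp (by norm_num) h2
  push_cast at h3
  have h4 : ps (2 ^ j) ≤ ∑ j ∈ range (J + 1), if s ≤ 2 ^ j then ps (2 ^ j) else 0 := by
    have := Finset.single_le_sum (f := fun j => if s ≤ 2 ^ j then ps (2 ^ j) else 0)
      (fun i _ => by
        split_ifs
        · exact (ps_pos _).le
        · exact le_rfl) (Finset.mem_range.2 (by omega : j < J + 1))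
    rw [if_pos h1] at this
    exact this
  linarith

theorem ps_two_pow (j : ℕ) : ps (2 ^ j) * 4 ^ j = rho ^ j := by
  have h1 : max 1 (2 ^ j) = 2 ^ j := max_eq_right Nat.one_le_two_pow
  unfold ps rho
  rw [h1]
  push_cast
  have h2 : (4 : ℝ) ^ j = ((2 : ℝ) ^ j) ^ (2 : ℝ) := by
    rw [Real.rpow_two, ← pow_mul, mul_comm, pow_mul]
    norm_num
  rw [h2, ← Real.rpow_add (by positivity)]
  rw [← Real.rpow_natCast, ← Real.rpow_natCast, ← Real.rpow_mul (by norm_num),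
    ← Real.rpow_mul (by norm_num)]
  congr 1
  ring

theorem geo_le {x : ℝ} (hx : 1 < x) (n : ℕ) : ∑ j ∈ range n, x ^ j ≤ x ^ n / (x - 1) := by
  rw [geom_sum_eq hx.ne']
  apply div_le_div_of_nonneg_right _ (by linarith)
  linarith

theorem rho_sum (J : ℕ) : ∑ j ∈ range (J + 1), rho ^ j ≤ 3 * rho ^ J := by
  have h := rho_ge
  refine (geo_le (by linarith) _).trans ?_
  rw [div_le_iff₀ (by linarith), pow_succ]
  have h0 : 0 < rho ^ J := by positivity
  nlinarith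

variable {E : Type*} [DecidableEq E]

/-- Ball sums. -/
theorem suma (V : Finset E) (d : E → E → ℕ)
    (hball : ∀ (z : E) (k : ℕ), ((V.filter (fun y => d y z ≤ k)).card : ℝ) ≤ 2 * (2 * k + 1) ^ 2)
    (J : ℕ) (z : E) :
    ∑ y ∈ V.filter (fun y => d y z ≤ 2 ^ J), ps (d y z) ≤ 400 * rho ^ J := by
  have h1 : ∑ y ∈ V.filter (fun y => d y z ≤ 2 ^ J), ps (d y z) ≤
      ∑ y ∈ V.filter (fun y => d y z ≤ 2 ^ J),
        4 * ∑ j ∈ range (J + 1), if d y z ≤ 2 ^ j then ps (2 ^ j) else 0 := by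
    apply Finset.sum_le_sum
    intro y hy
    exact ps_dyad (Finset.mem_filter.1 hy).2
  refine h1.trans ?_
  rw [← Finset.mul_sum, Finset.sum_comm]
  have h2 : ∀ j ∈ range (J + 1), ∑ y ∈ V.filter (fun y => d y z ≤ 2 ^ J),
      (if d y z ≤ 2 ^ j then ps (2 ^ j) else 0) ≤ 18 * rho ^ j := by
    intro j _
    rw [← Finset.sum_filter, Finset.sum_const, nsmul_eq_mul]
    have h3 : (((V.filter (fun y => d y z ≤ 2 ^ J)).filter (fun y => d y z ≤ 2 ^ j)).card : ℝ) ≤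
        2 * (2 * ((2 ^ j : ℕ) : ℝ) + 1) ^ 2 := by
      refine le_trans ?_ (hball z (2 ^ j))
      exact_mod_cast Finset.card_le_card (Finset.filter_subset_filter _ (Finset.filter_subset _ _))
    have h4 : (2 * (2 * ((2 ^ j : ℕ) : ℝ) + 1) ^ 2) ≤ 18 * 4 ^ j := by
      push_cast
      have h5 : (1 : ℝ) ≤ 2 ^ j := one_le_pow₀ (by norm_num)
      have h6 : (4 : ℝ) ^ j = 2 ^ j * 2 ^ j := by rw [← mul_pow]; norm_num
      rw [h6]
      nlinarith
    have h7 := (ps_pos (2 ^ j)).le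
    calc _ ≤ (18 * 4 ^ j) * ps (2 ^ j) := mul_le_mul_of_nonneg_right (h3.trans h4) h7
      _ = 18 * (ps (2 ^ j) * 4 ^ j) := by ring
      _ = 18 * rho ^ j := by rw [ps_two_pow]
  have h3 := Finset.sum_le_sum h2
  rw [← Finset.mul_sum] at h3
  have h4 := rho_sum J
  have h5 : 0 < rho ^ J := by
    have := rho_ge
    positivity
  linarith

/-- Sum over the sets of diameter at most `2 ^ J` which carry a tree with root `e`. -/
theorem tree_sum (V : Finset E) (d : E → E → ℕ)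
    (hball : ∀ (z : E) (k : ℕ), ((V.filter (fun y => d y z ≤ k)).card : ℝ) ≤ 2 * (2 * k + 1) ^ 2)
    {e : E} (he : e ∈ V) (W : Finset E → ℝ) (dmf : Finset E → ℕ)
    (hdm : ∀ S : Finset E, ∀ a ∈ S, ∀ b ∈ S, d a b ≤ dmf S)
    (hW : ∀ S ⊆ V, e ∈ S → ∃ (par : E → E) (rk : E → ℕ),
      (∀ y ∈ S, y ≠ e → par y ∈ S ∧ rk (par y) < rk y) ∧
      W S = ∏ y ∈ S.erase e, ps (d y (par y)))
    (J : ℕ) (Y : ℝ) (hY : 0 ≤ Y) (h : 1200 * rho ^ J * Y ≤ 1) :
    ∑ S ∈ V.powerset.filter (fun S => e ∈ S ∧ dmf S ≤ 2 ^ J), Y ^ S.card * W S ≤ 3 * Y := by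
  classical
  obtain ⟨κ, hκ⟩ : ∃ κ : E → E → ℝ, κ = fun y z => if d y z ≤ 2 ^ J then ps (d y z) else 0 :=
    ⟨_, rfl⟩
  obtain ⟨w, hw⟩ : ∃ w : Finset E → E → ℝ, w = fun S x =>
    if x = e ∧ dmf S ≤ 2 ^ J then W S else 0 := ⟨_, rfl⟩
  have hκ0 : ∀ y z, 0 ≤ κ y z := by
    intro y z
    rw [hκ]
    simp only
    split_ifs
    · exact (ps_pos _).le
    · exact le_rfl
  have hmain := Pool.Agent.Y21.NE.tree V κ w (400 * rho ^ J) Y hκ0 (by
      intro z _
      refine le_trans (le_of_eq ?_) (suma V d hball J z)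
      rw [hκ, Finset.sum_filter]) hY (by linarith) (by
      intro S hS x hx
      by_cases hc : x = e ∧ dmf S ≤ 2 ^ J
      · obtain ⟨rfl, hd⟩ := hc
        obtain ⟨par, rk, h1, h2⟩ := hW S hS hx
        refine ⟨par, rk, h1, ?_⟩
        rw [hw]
        simp only [true_and, if_pos hd]
        rw [h2]
        apply le_of_eq
        apply Finset.prod_congr rfl
        intro y hy
        rw [Finset.mem_erase] at hy
        rw [hκ]
        simp only
        rw [if_pos ((hdm S y hy.2 (par y) (h1 y hy.2 hy.1).1).trans hd)]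
      · refine ⟨fun _ => x, fun y => if y = x then 0 else 1, ?_, ?_⟩
        · intro y _ hyx
          refine ⟨hx, ?_⟩
          simp [hyx]
        · rw [hw]
          simp only [if_neg hc]
          exact Finset.prod_nonneg fun y _ => hκ0 _ _) e he
  refine le_trans (le_of_eq ?_) hmain
  rw [← Finset.filter_filter, Finset.sum_filter]
  apply Finset.sum_congr rfl
  intro S _
  rw [hw]
  simp only [true_and]
  split_ifs <;> simp

end Q291.AL
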