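import Pool.Agent.Q291.AL.Key
import Pool.Agent.Q291.AL.Sum

/-!
The sum over all the sets with at least three elements.
-/

set_option autoImplicit false

namespace Q291.AL

open Finset

/-- `2 ^ (1/4)`. -/
noncomputable def sig : ℝ := (2 : ℝ) ^ (1 / 4 : ℝ)

theorem sig_pow : sig ^ 4 = 2 := by
  unfold sig
  rw [← Real.rpow_natCast, ← Real.rpow_mul (by norm_num)]
  norm_num

theorem sig_pos : 0 < sig := by unfold sig; positivity

theorem sig_ge : (7 / 6 : ℝ) ≤ sig := by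
  have h1 := sig_pow
  by_contra hc
  push Not at hc
  have h2 : sig ^ 4 < (7 / 6 : ℝ) ^ 4 := pow_lt_pow_left₀ hc sig_pos.le (by norm_num)
  rw [h1] at h2
  norm_num at h2

theorem sig_le : sig ≤ 6 / 5 := by
  have h1 := sig_pow
  by_contra hc
  push Not at hc
  have h2 : (6 / 5 : ℝ) ^ 4 < sig ^ 4 := pow_lt_pow_left₀ hc (by norm_num) (by norm_num)
  rw [h1] at h2
  norm_num at h2

theorem sig_sum (J : ℕ) : ∑ j ∈ range (J + 1), sig ^ j ≤ 8 * sig ^ J := by
  have h := sig_ge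
  have h2 := sig_le
  refine (geo_le (by linarith) _).trans ?_
  rw [div_le_iff₀ (by linarith), pow_succ]
  have h0 : 0 < sig ^ J := pow_pos sig_pos _
  nlinarith

theorem ps_rho_sig (j : ℕ) : ps (2 ^ j) * (rho ^ j) ^ 2 = sig ^ j := by
  have h1 : max 1 (2 ^ j) = 2 ^ j := max_eq_right Nat.one_le_two_pow
  unfold ps rho sig
  rw [h1]
  push_cast
  rw [← Real.rpow_natCast ((2 : ℝ) ^ (3 / 4 : ℝ)), ← Real.rpow_natCast ((2 : ℝ) ^ (1 / 4 : ℝ)),
    ← Real.rpow_natCast (2 : ℝ) j, ← Real.rpow_mul (by norm_num), ← Real.rpow_mul (by norm_num),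
    ← Real.rpow_mul (by norm_num), ← Real.rpow_natCast _ 2, ← Real.rpow_mul (by norm_num),
    ← Real.rpow_add (by norm_num)]
  congr 1
  push_cast
  ring

variable {E : Type*} [DecidableEq E]

theorem tree_sum3 (V : Finset E) (d : E → E → ℕ)
    (hball : ∀ (z : E) (k : ℕ), ((V.filter (fun y => d y z ≤ k)).card : ℝ) ≤ 2 * (2 * k + 1) ^ 2)
    {e : E} (he : e ∈ V) (W : Finset E → ℝ) (dmf : Finset E → ℕ)
    (hdm : ∀ S : Finset E, ∀ a ∈ S, ∀ b ∈ S, d a b ≤ dmf S)
    (hW : ∀ S ⊆ V, e ∈ S → ∃ (par : E → E) (rk : E → ℕ),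
      (∀ y ∈ S, y ≠ e → par y ∈ S ∧ rk (par y) < rk y) ∧
      W S = ∏ y ∈ S.erase e, ps (d y (par y)))
    (J : ℕ) (hJ : ∀ S ⊆ V, dmf S ≤ 2 ^ J) (Y : ℝ) (hY : 0 ≤ Y) (h : 1200 * rho ^ J * Y ≤ 1) :
    ∑ S ∈ (V.erase e).powerset.filter (fun S => 2 ≤ S.card),
      Y ^ S.card * (W (insert e S) * ps (dmf (insert e S))) ≤
      96 * 1200 ^ 2 * Y ^ 2 * sig ^ J := by
  classical
  have hr1 : 1 ≤ rho := by have := rho_ge; linarith
  have hr0 : 0 < rho := by linarith
  have hWn : ∀ S ⊆ V, e ∈ S → 0 ≤ W S := by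
    intro S hS heS
    obtain ⟨par, rk, _, h2⟩ := hW S hS heS
    rw [h2]
    exact Finset.prod_nonneg fun _ _ => (ps_pos _).le
  have hins : ∀ S ∈ (V.erase e).powerset.filter (fun S => 2 ≤ S.card), insert e S ⊆ V ∧ e ∉ S ∧
      2 ≤ S.card := by
    intro S hS
    rw [Finset.mem_filter, Finset.mem_powerset] at hS
    refine ⟨?_, fun hc => Finset.notMem_erase e V (hS.1 hc), hS.2⟩
    exact Finset.insert_subset he (hS.1.trans (Finset.erase_subset _ _))
  -- dyadic decomposition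
  have h1 : ∀ S ∈ (V.erase e).powerset.filter (fun S => 2 ≤ S.card),
      Y ^ S.card * (W (insert e S) * ps (dmf (insert e S))) ≤
      ∑ j ∈ range (J + 1), 4 * ps (2 ^ j) * (if dmf (insert e S) ≤ 2 ^ j then
        Y ^ S.card * W (insert e S) else 0) := by
    intro S hS
    obtain ⟨a1, a2, a3⟩ := hins S hS
    have b1 := ps_dyad (hJ _ a1)
    have b2 := hWn _ a1 (Finset.mem_insert_self _ _)
    have b3 : 0 ≤ Y ^ S.card := pow_nonneg hY _
    calc Y ^ S.card * (W (insert e S) * ps (dmf (insert e S)))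
        ≤ Y ^ S.card * (W (insert e S) *
          (4 * ∑ j ∈ range (J + 1), if dmf (insert e S) ≤ 2 ^ j then ps (2 ^ j) else 0)) := by
          apply mul_le_mul_of_nonneg_left _ b3
          exact mul_le_mul_of_nonneg_left b1 b2
      _ = _ := by
          rw [Finset.mul_sum, Finset.mul_sum, Finset.mul_sum]
          apply Finset.sum_congr rfl
          intro j _
          split_ifs <;> ring
  refine (Finset.sum_le_sum h1).trans ?_
  rw [Finset.sum_comm]
  have h2 : ∀ j ∈ range (J + 1), ∑ S ∈ (V.erase e).powerset.filter (fun S => 2 ≤ S.card),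
      4 * ps (2 ^ j) * (if dmf (insert e S) ≤ 2 ^ j then Y ^ S.card * W (insert e S) else 0) ≤
      12 * 1200 ^ 2 * Y ^ 2 * sig ^ j := by
    intro j hj
    have hjJ : j ≤ J := by have := Finset.mem_range.1 hj; omega
    obtain ⟨Yj, hYj⟩ : ∃ Yj : ℝ, Yj = 1 / (1200 * rho ^ j) := ⟨_, rfl⟩
    have hrj : 0 < rho ^ j := pow_pos hr0 _
    have hYj0 : 0 < Yj := by rw [hYj]; positivity
    have hYYj : Y ≤ Yj := by
      rw [hYj, le_div_iff₀ (by positivity)]
      have : rho ^ j ≤ rho ^ J := pow_le_pow_right₀ hr1 hjJ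
      nlinarith
    have hq : Y / Yj ≤ 1 := by rw [div_le_one hYj0]; exact hYYj
    have hq0 : 0 ≤ Y / Yj := by positivity
    have hcomp : ∀ S ∈ (V.erase e).powerset.filter (fun S => 2 ≤ S.card),
        (if dmf (insert e S) ≤ 2 ^ j then Y ^ S.card * W (insert e S) else 0) ≤
        (Y / Yj) ^ 2 / Yj * (if dmf (insert e S) ≤ 2 ^ j then
          Yj ^ (insert e S).card * W (insert e S) else 0) := by
      intro S hS
      obtain ⟨a1, a2, a3⟩ := hins S hS
      have b2 := hWn _ a1 (Finset.mem_insert_self _ _)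
      split_ifs
      · rw [Finset.card_insert_of_notMem a2, ← mul_assoc]
        apply mul_le_mul_of_nonneg_right _ b2
        have e1 : Y ^ S.card = (Y / Yj) ^ S.card * Yj ^ S.card := by
          rw [← mul_pow, div_mul_cancel₀ _ hYj0.ne']
        have e2 : (Y / Yj) ^ S.card ≤ (Y / Yj) ^ 2 := pow_le_pow_of_le_one hq0 hq a3
        have e3 : (Y / Yj) ^ 2 / Yj * Yj ^ (S.card + 1) = (Y / Yj) ^ 2 * Yj ^ S.card := by
          rw [pow_succ, div_mul_eq_mul_div, div_eq_iff hYj0.ne']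
          ring
        rw [e1, e3]
        exact mul_le_mul_of_nonneg_right e2 (pow_nonneg hYj0.le _)
      · simp
    have htree := tree_sum V d hball he W dmf hdm hW j Yj hYj0.le (by
      rw [hYj]
      apply le_of_eq
      field_simp)
    have himg : ∑ S ∈ (V.erase e).powerset.filter (fun S => 2 ≤ S.card),
        (if dmf (insert e S) ≤ 2 ^ j then Yj ^ (insert e S).card * W (insert e S) else 0) ≤
        3 * Yj := by
      refine le_trans ?_ htree
      rw [← Finset.sum_filter]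
      have hinj : Set.InjOn (fun S : Finset E => insert e S)
          ↑(((V.erase e).powerset.filter (fun S => 2 ≤ S.card)).filter
            (fun S => dmf (insert e S) ≤ 2 ^ j)) := by
        intro S hS T hT hST
        have a2 := (hins S (Finset.mem_filter.1 (Finset.mem_coe.1 hS)).1).2.1
        have b2 := (hins T (Finset.mem_filter.1 (Finset.mem_coe.1 hT)).1).2.1
        simp only at hST
        rw [← Finset.erase_insert a2, ← Finset.erase_insert b2, hST]
      rw [← Finset.sum_image (f := fun S' => Yj ^ S'.card * W S') hinj]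
      apply Finset.sum_le_sum_of_subset_of_nonneg
      · intro S' hS'
        rw [Finset.mem_image] at hS'
        obtain ⟨S, hS, rfl⟩ := hS'
        rw [Finset.mem_filter] at hS
        rw [Finset.mem_filter, Finset.mem_powerset]
        exact ⟨(hins S hS.1).1, Finset.mem_insert_self _ _, hS.2⟩
      · intro S' hS' _
        rw [Finset.mem_filter, Finset.mem_powerset] at hS'
        exact mul_nonneg (pow_nonneg hYj0.le _) (hWn S' hS'.1 hS'.2.1)
    rw [← Finset.mul_sum]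
    have hps := (ps_pos (2 ^ j)).le
    calc 4 * ps (2 ^ j) * ∑ S ∈ (V.erase e).powerset.filter (fun S => 2 ≤ S.card),
          (if dmf (insert e S) ≤ 2 ^ j then Y ^ S.card * W (insert e S) else 0)
        ≤ 4 * ps (2 ^ j) * ((Y / Yj) ^ 2 / Yj * (3 * Yj)) := by
          apply mul_le_mul_of_nonneg_left _ (by positivity)
          refine (Finset.sum_le_sum hcomp).trans ?_
          rw [← Finset.mul_sum]
          exact mul_le_mul_of_nonneg_left himg (by positivity)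
      _ = 12 * 1200 ^ 2 * Y ^ 2 * (ps (2 ^ j) * (rho ^ j) ^ 2) := by
          rw [hYj]
          field_simp
          ring
      _ = _ := by rw [ps_rho_sig]
  refine (Finset.sum_le_sum h2).trans ?_
  rw [← Finset.mul_sum]
  have h3 := sig_sum J
  have h4 : 0 ≤ 12 * 1200 ^ 2 * Y ^ 2 := by positivity
  calc 12 * 1200 ^ 2 * Y ^ 2 * ∑ i ∈ range (J + 1), sig ^ i ≤
        12 * 1200 ^ 2 * Y ^ 2 * (8 * sig ^ J) := mul_le_mul_of_nonneg_left h3 h4
    _ = _ := by ring

/-- A power of two close to `2 N`. -/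
theorem pow_near {N : ℕ} (hN : 1 ≤ N) : ∃ J : ℕ, 2 * N ≤ 2 ^ J ∧ rho ^ J ≤ 4 * (N : ℝ) ^ (3 / 4 : ℝ) ∧
    sig ^ J ≤ 2 * (N : ℝ) ^ (1 / 4 : ℝ) := by
  obtain ⟨J, _, h1, h2⟩ := dyad (s := 2 * N) (J := 2 * N) (Nat.lt_two_pow_self).le
  have h3 : max 1 (2 * N) = 2 * N := max_eq_right (by omega)
  rw [h3] at h2
  have h4 : ((2 : ℝ) ^ J) ≤ 4 * N := by
    have : ((2 ^ J : ℕ) : ℝ) ≤ ((2 * (2 * N) : ℕ) : ℝ) := by exact_mod_cast h2
    push_cast at this
    linarith
  have hN' : (1 : ℝ) ≤ N := by exact_mod_cast hN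
  have e1 : rho ^ J = ((2 : ℝ) ^ J) ^ (3 / 4 : ℝ) := by
    unfold rho
    rw [← Real.rpow_natCast, ← Real.rpow_natCast, ← Real.rpow_mul (by norm_num),
      ← Real.rpow_mul (by norm_num)]
    congr 1
    ring
  have e2 : sig ^ J = ((2 : ℝ) ^ J) ^ (1 / 4 : ℝ) := by
    unfold sig
    rw [← Real.rpow_natCast, ← Real.rpow_natCast, ← Real.rpow_mul (by norm_num),
      ← Real.rpow_mul (by norm_num)]
    congr 1
    ring
  refine ⟨J, h1, ?_, ?_⟩
  · rw [e1]
    refine (Real.rpow_le_rpow (by positivity) h4 (by norm_num)).trans ?_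
    rw [Real.mul_rpow (by norm_num) (by positivity)]
    apply mul_le_mul_of_nonneg_right _ (by positivity)
    calc (4 : ℝ) ^ (3 / 4 : ℝ) ≤ (4 : ℝ) ^ (1 : ℝ) :=
          Real.rpow_le_rpow_of_exponent_le (by norm_num) (by norm_num)
      _ = 4 := Real.rpow_one _
  · rw [e2]
    refine (Real.rpow_le_rpow (by positivity) h4 (by norm_num)).trans ?_
    rw [Real.mul_rpow (by norm_num) (by positivity)]
    apply mul_le_mul_of_nonneg_right _ (by positivity)
    calc (4 : ℝ) ^ (1 / 4 : ℝ) ≤ (4 : ℝ) ^ (1 / 2 : ℝ) :=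
          Real.rpow_le_rpow_of_exponent_le (by norm_num) (by norm_num)
      _ = 2 := by
          rw [← Real.sqrt_eq_rpow, show (4 : ℝ) = 2 ^ 2 by norm_num, Real.sqrt_sq (by norm_num)]

open H974 H12S H985T H389NS Pool.Agent.Y554.SN Pool.Agent.Y554.NE
open Pool.Agent.Y239.NE.Dec Pool.Agent.Y239.NE.Out

theorem ball_card (V : Finset Edg) (z : Edg) (k : ℕ) :
    ((V.filter (fun y => ds y z ≤ k)).card : ℝ) ≤ 2 * (2 * k + 1) ^ 2 := by
  classical
  have h1 : V.filter (fun y => ds y z ≤ k) ⊆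
      (Finset.Icc (z.1 - k) (z.1 + k)) ×ˢ ((Finset.Icc (z.2.1 - k) (z.2.1 + k)) ×ˢ
        (Finset.univ : Finset Bool)) := by
    intro y hy
    have h := (Finset.mem_filter.1 hy).2
    unfold ds at h
    simp only [Finset.mem_product, Finset.mem_Icc, Finset.mem_univ, and_true]
    omega
  have h2 := Finset.card_le_card h1
  rw [Finset.card_product, Finset.card_product, Int.card_Icc, Int.card_Icc, Finset.card_univ,
    Fintype.card_bool] at h2
  have h3 : (z.1 + k + 1 - (z.1 - k)).toNat = 2 * k + 1 := by omega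
  have h4 : (z.2.1 + k + 1 - (z.2.1 - k)).toNat = 2 * k + 1 := by omega
  rw [h3, h4] at h2
  have h5 : ((V.filter (fun y => ds y z ≤ k)).card : ℝ) ≤
      (((2 * k + 1) * ((2 * k + 1) * 2) : ℕ) : ℝ) := by exact_mod_cast h2
  refine h5.trans (le_of_eq ?_)
  push_cast
  ring

/-- The sum over the sets with at least three edges (one of them is `e`). -/
theorem sum3 : ∃ c C : ℝ, 0 < c ∧ 0 < C ∧ ∀ (M N : ℕ) (e : Edg), 1 ≤ N → 2 * N ≤ M →
    e ∈ boxE N → ∀ δ : ℝ, |δ| ≤ c * (N : ℝ) ^ (-(3 / 4) : ℝ) →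
    ∑ S ∈ ((boxE N).erase e).powerset.filter (fun S => 2 ≤ S.card),
      (2 * |δ|) ^ S.card * PQ (1 / 2) (boxE M) (QK e (insert e S)) ≤
      C * δ ^ 2 * (N : ℝ) ^ (1 / 4 : ℝ) := by
  classical
  obtain ⟨a, ha, hfin⟩ := gfin
  refine ⟨1 / (9600 * a ^ 4), 2 * (96 * 1200 ^ 2 * 4 * a ^ 12), by positivity, by positivity, ?_⟩
  intro M N e hN hNM he δ hδ
  have hN' : (0 : ℝ) < N := by exact_mod_cast hN
  obtain ⟨J, hJ1, hJ2, hJ3⟩ := pow_near hN
  -- the weight
  have hex : ∀ S : Finset Edg, ∃ W : ℝ, S ⊆ boxE N → e ∈ S → (∃ (par : Edg → Edg) (rk : Edg → ℕ),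
      (∀ y ∈ S, y ≠ e → par y ∈ S ∧ rk (par y) < rk y) ∧
      W = ∏ y ∈ S.erase e, ps (ds y (par y))) ∧
      PQ (1 / 2) (boxE M) (QK e S) ≤ a ^ (4 * S.card) * W * ps (dm S) := by
    intro S
    by_cases hc : S ⊆ boxE N ∧ e ∈ S
    · obtain ⟨par, rk, h1, h2⟩ := hfin M N e hNM S hc.1 hc.2
      exact ⟨_, fun _ _ => ⟨⟨par, rk, h1, rfl⟩, h2⟩⟩
    · exact ⟨0, fun h1 h2 => absurd ⟨h1, h2⟩ hc⟩
  choose W hW using hex
  obtain ⟨Y, hY⟩ : ∃ Y : ℝ, Y = 2 * |δ| * a ^ 4 := ⟨_, rfl⟩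
  have hY0 : 0 ≤ Y := by rw [hY]; positivity
  have hdmJ : ∀ S ⊆ boxE N, dm S ≤ 2 ^ J := by
    intro S hS
    refine le_trans (Pool.Agent.Y554.NE.dm_le_of ?_) hJ1
    intro x hx y hy
    obtain ⟨p1, p2⟩ := pos_le (hS hx)
    obtain ⟨q1, q2⟩ := pos_le (hS hy)
    rw [abs_le] at p1 p2 q1 q2
    unfold pos at p1 p2 q1 q2
    unfold ds
    simp only at p1 p2 q1 q2
    omega
  have hYJ : 1200 * rho ^ J * Y ≤ 1 := by
    have h1 : Y ≤ 2 * (1 / (9600 * a ^ 4) * (N : ℝ) ^ (-(3 / 4) : ℝ)) * a ^ 4 := by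
      rw [hY]
      apply mul_le_mul_of_nonneg_right _ (by positivity)
      linarith
    have h2 : 2 * (1 / (9600 * a ^ 4) * (N : ℝ) ^ (-(3 / 4) : ℝ)) * a ^ 4 =
        1 / 4800 * (N : ℝ) ^ (-(3 / 4) : ℝ) := by
      field_simp
      ring
    rw [h2] at h1
    have h3 : (N : ℝ) ^ (3 / 4 : ℝ) * (N : ℝ) ^ (-(3 / 4) : ℝ) = 1 := by
      rw [← Real.rpow_add hN']
      norm_num
    calc 1200 * rho ^ J * Y ≤ 1200 * (4 * (N : ℝ) ^ (3 / 4 : ℝ)) *
          (1 / 4800 * (N : ℝ) ^ (-(3 / 4) : ℝ)) := by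
          apply mul_le_mul _ h1 hY0 (by positivity)
          exact mul_le_mul_of_nonneg_left hJ2 (by norm_num)
      _ = (N : ℝ) ^ (3 / 4 : ℝ) * (N : ℝ) ^ (-(3 / 4) : ℝ) := by ring
      _ = 1 := h3
  have htree := tree_sum3 (boxE N) ds (ball_card (boxE N)) he W dm
    (fun S x hx y hy => ds_le_dm hx hy) (fun S hS heS => (hW S hS heS).1) J hdmJ Y hY0 hYJ
  have hterm : ∀ S ∈ ((boxE N).erase e).powerset.filter (fun S => 2 ≤ S.card),
      (2 * |δ|) ^ S.card * PQ (1 / 2) (boxE M) (QK e (insert e S)) ≤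
      a ^ 4 * (Y ^ S.card * (W (insert e S) * ps (dm (insert e S)))) := by
    intro S hS
    rw [Finset.mem_filter, Finset.mem_powerset] at hS
    have heS : e ∉ S := fun hc => Finset.notMem_erase e _ (hS.1 hc)
    have hsub : insert e S ⊆ boxE N :=
      Finset.insert_subset he (hS.1.trans (Finset.erase_subset _ _))
    have h1 := (hW (insert e S) hsub (Finset.mem_insert_self _ _)).2
    rw [Finset.card_insert_of_notMem heS] at h1
    calc (2 * |δ|) ^ S.card * PQ (1 / 2) (boxE M) (QK e (insert e S)) ≤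
          (2 * |δ|) ^ S.card * (a ^ (4 * (S.card + 1)) * W (insert e S) *
            ps (dm (insert e S))) := mul_le_mul_of_nonneg_left h1 (by positivity)
      _ = _ := by
          rw [hY, mul_pow (2 * |δ|) (a ^ 4) S.card, ← pow_mul a 4 S.card,
            show 4 * (S.card + 1) = 4 + 4 * S.card by ring, pow_add]
          ring
  refine (Finset.sum_le_sum hterm).trans ?_
  rw [← Finset.mul_sum]
  calc a ^ 4 * ∑ S ∈ ((boxE N).erase e).powerset.filter (fun S => 2 ≤ S.card),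
        Y ^ S.card * (W (insert e S) * ps (dm (insert e S)))
      ≤ a ^ 4 * (96 * 1200 ^ 2 * Y ^ 2 * sig ^ J) :=
        mul_le_mul_of_nonneg_left htree (by positivity)
    _ ≤ a ^ 4 * (96 * 1200 ^ 2 * Y ^ 2 * (2 * (N : ℝ) ^ (1 / 4 : ℝ))) := by
        apply mul_le_mul_of_nonneg_left _ (by positivity)
        exact mul_le_mul_of_nonneg_left hJ3 (by positivity)
    _ = 2 * (96 * 1200 ^ 2 * 4 * a ^ 12) * δ ^ 2 * (N : ℝ) ^ (1 / 4 : ℝ) := by
        rw [hY, mul_pow, mul_pow, sq_abs]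
        ring

end Q291.AL
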