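import Pool.Agent.Q291.AL.Trunc
import Pool.Agent.Q291.AL.Sum2
import Pool.Agent.W424.NC.NearC

/-!
The first order expansion of the connection probability in a box.
-/

set_option autoImplicit false

namespace Q291.AL

open H974 H12S Finset

/-- A jointly pivotal set. -/
theorem QK_of {e : Edg} {V1 : Finset Edg} (heV : e ∉ V1) {S : Finset Edg} (hS : S ⊆ V1)
    {F : Finset Edg} (h : ∀ w ∈ S, ∃ T ⊆ S, ind (Cx e (insert w ((F \ S) ∪ T))) ≠
      ind (Cx e (((F \ S) ∪ T).erase w))) : QK e (insert e S) F := by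
  intro w hw hwe
  have hwS : w ∈ S := (Finset.mem_insert.1 hw).resolve_left hwe
  obtain ⟨T, hT, hne⟩ := h w hwS
  have heS : e ∉ S := fun hc => heV (hS hc)
  have heT : e ∉ T := fun hc => heS (hT hc)
  refine ⟨T, ?_, ?_⟩
  · rw [Finset.erase_insert heS]
    exact hT
  · obtain ⟨G, hG⟩ : ∃ G, G = (F \ S) ∪ T := ⟨_, rfl⟩
    rw [← hG] at hne
    have hmono : Cx e (G.erase w) → Cx e (insert w G) :=
      Cx_mono ((Finset.erase_subset _ _).trans (Finset.subset_insert _ _))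
    have h1 : Cx e (insert w G) ∧ ¬ Cx e (G.erase w) := by
      by_cases c1 : Cx e (insert w G)
      · refine ⟨c1, fun c2 => hne ?_⟩
        rw [ind_of c1, ind_of c2]
      · have c2 : ¬ Cx e (G.erase w) := fun c2 => c1 (hmono c2)
        exact absurd (by rw [ind_not_of c1, ind_not_of c2]) hne
    have hGe : G.erase e = (F \ insert e S) ∪ T := by
      rw [hG]
      ext x
      simp only [Finset.mem_erase, Finset.mem_union, Finset.mem_sdiff, Finset.mem_insert]
      constructor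
      · rintro ⟨h2, h3 | h3⟩
        · exact Or.inl ⟨h3.1, fun hc => hc.elim h2 h3.2⟩
        · exact Or.inr h3
      · rintro (⟨h2, h3⟩ | h2)
        · push Not at h3
          exact ⟨h3.1, Or.inl ⟨h2, h3.2⟩⟩
        · exact ⟨fun hc => heT (hc ▸ h2), Or.inr h2⟩
    rw [← hGe]
    constructor
    · refine ⟨src e, rfl, tgt e, rfl, ?_⟩
      have h2 := h1.1
      unfold Cx at h2
      have h3 : (insert w G).erase e = insert w (G.erase e) := by
        ext x
        simp only [Finset.mem_erase, Finset.mem_insert]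
        constructor
        · rintro ⟨a1, a2 | a2⟩
          · exact Or.inl a2
          · exact Or.inr ⟨a1, a2⟩
        · rintro (a1 | ⟨a1, a2⟩)
          · exact ⟨fun hc => hwe (a1.symm.trans hc), Or.inl a1⟩
          · exact ⟨a1, Or.inr a2⟩
      rw [h3, Finset.coe_insert] at h2
      exact h2
    · rintro ⟨u, hu, v, hv, huv⟩
      rw [Set.mem_singleton_iff] at hu hv
      subst hu hv
      apply h1.2
      unfold Cx
      rw [Finset.erase_right_comm]
      rw [Finset.coe_erase]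
      exact huv

theorem e0_mem {b : Bool} {N : ℕ} (hN : 1 ≤ N) : e0 b ∈ boxE N := by
  unfold e0 boxE
  cases b
  · rw [mem_RE_false]; omega
  · rw [mem_RE_true]; omega

/-- The first order expansion. -/
theorem exph : ∃ c C : ℝ, 0 < c ∧ 0 < C ∧ ∀ (b : Bool) (N M : ℕ), 1 ≤ N → 2 * N ≤ M →
    ∃ A : ℝ, ∀ δ : ℝ, |δ| ≤ c * (N : ℝ) ^ (-(3 / 4) : ℝ) →
      |PQ (1 / 2 + δ) (boxE M) (Cx (e0 b)) - PQ (1 / 2) (boxE M) (Cx (e0 b)) - δ * A| ≤
        C * ((N : ℝ) ^ (-(5 / 4) : ℝ) + δ ^ 2 * (N : ℝ) ^ (1 / 4 : ℝ)) := by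
  classical
  obtain ⟨κ, C0, hκ, hC0, hst⟩ := Pool.Agent.W424.NC.stabU
  obtain ⟨c1, C1, hc1, hC1, hsum⟩ := sum3
  refine ⟨min c1 (1 / (4 * C0)), C0 + C1, by positivity, by positivity, ?_⟩
  intro b N M hN hNM
  obtain ⟨e, he⟩ : ∃ e, e = e0 b := ⟨_, rfl⟩
  rw [← he]
  have heN : e ∈ boxE N := he ▸ e0_mem hN
  have heM : e ∈ boxE M := he ▸ e0_mem (by omega)
  have hsub : boxE N ⊆ boxE M := boxE_mono (by omega)
  obtain ⟨V1, hV1⟩ : ∃ V1, V1 = (boxE N).erase e := ⟨_, rfl⟩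
  have hV1M : V1 ⊆ boxE M := by rw [hV1]; exact (Finset.erase_subset _ _).trans hsub
  have heV : e ∉ V1 := by rw [hV1]; exact Finset.notMem_erase _ _
  refine ⟨∑ g ∈ V1, Ex (fun _ => (1 / 2 : ℝ)) (boxE M) (Da g (fun F => ind (Cx e F))), ?_⟩
  intro δ hδ
  have hN' : (1 : ℝ) ≤ N := by exact_mod_cast hN
  have hN0 : (0 : ℝ) < N := by linarith
  have hNp : (N : ℝ) ^ (-(3 / 4) : ℝ) ≤ 1 :=
    Real.rpow_le_one_of_one_le_of_nonpos hN' (by norm_num)
  have hNp0 : 0 < (N : ℝ) ^ (-(3 / 4) : ℝ) := by positivity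
  have hd1 : |δ| ≤ c1 * (N : ℝ) ^ (-(3 / 4) : ℝ) :=
    hδ.trans (mul_le_mul_of_nonneg_right (min_le_left _ _) hNp0.le)
  have hd2 : |δ| ≤ 1 / (4 * C0) * (N : ℝ) ^ (-(3 / 4) : ℝ) :=
    hδ.trans (mul_le_mul_of_nonneg_right (min_le_right _ _) hNp0.le)
  have hd3 : |δ| ≤ 1 / 4 := by
    have h1 : 1 / (4 * C0) ≤ 1 / 4 := by
      apply one_div_le_one_div_of_le (by norm_num)
      linarith
    calc |δ| ≤ 1 / (4 * C0) * (N : ℝ) ^ (-(3 / 4) : ℝ) := hd2
      _ ≤ 1 / 4 * 1 := mul_le_mul h1 hNp hNp0.le (by norm_num)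
      _ = 1 / 4 := by norm_num
  have hd4 := abs_le.1 hd3
  -- the far part
  have hok1 : Ok (fun _ : Edg => (1 / 2 + δ : ℝ)) := fun _ => by constructor <;> linarith
  have hok3 : Ok (fun g : Edg => (1 / 2 + if g ∈ boxE N then δ else 0 : ℝ)) := by
    intro g
    simp only
    split_ifs <;> constructor <;> linarith
  have hfar := trunc (N := N) (M := M) (by omega) heN (p := fun _ => 1 / 2 + δ)
    (p' := fun g => 1 / 2 + if g ∈ boxE N then δ else 0) hok1 hok3 (by
      intro g hg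
      simp only [if_pos hg])
  have ha4 : Pr (fun _ => 1 / 2 + δ) (boxE N) (fun F => A4 (-N) N (-N) N e ↑F) ≤
      C0 * (N : ℝ) ^ (-(5 / 4) : ℝ) := by
    have h1 : |(1 / 2 + δ) - 1 / 2| ≤ (N : ℝ) ^ (-(3 / 4) : ℝ) / C0 := by
      have e1 : (1 / 2 + δ) - 1 / 2 = δ := by ring
      rw [e1]
      refine hd2.trans ?_
      rw [one_div_mul_eq_div]
      apply div_le_div_of_nonneg_left hNp0.le (by linarith) (by linarith)
    have h2 := (hst N hN (1 / 2 + δ) h1).2 N le_rfl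
    have h3 : Pr (fun _ => 1 / 2 + δ) (boxE N) (fun F => A4 (-N) N (-N) N e ↑F) ≤
        a4 (1 / 2 + δ) N := by
      unfold a4
      have n1 : 0 ≤ PQ (1 / 2 + δ) (boxE N) (fun F => A4 (-N) N (-N) N (e0 true) ↑F) :=
        Pr_nonneg hok1 _ _
      have n2 : 0 ≤ PQ (1 / 2 + δ) (boxE N) (fun F => A4 (-N) N (-N) N (e0 false) ↑F) :=
        Pr_nonneg hok1 _ _
      rw [he]
      cases b
      · linarith
      · linarith
    refine h3.trans (h2.trans ?_)
    apply mul_le_mul_of_nonneg_left _ (by linarith)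
    rw [add_zero]
    apply Real.rpow_le_rpow_of_nonpos hN0 (by linarith) (by norm_num)
  -- irrelevance of `e`
  have hirr : Pr (fun g : Edg => 1 / 2 + if g ∈ boxE N then δ else 0) (boxE M) (Cx e) =
      Pr (fun g : Edg => 1 / 2 + if g ∈ V1 then δ else 0) (boxE M) (Cx e) := by
    have hl : ∀ F : Finset Edg, F ⊆ boxE M → (Cx e F ↔ Cx e (F ∩ (boxE M).erase e)) := by
      intro F hF
      have : F ∩ (boxE M).erase e = F.erase e := by
        ext x
        simp only [Finset.mem_inter, Finset.mem_erase]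
        constructor
        · rintro ⟨a1, a2, _⟩; exact ⟨a2, a1⟩
        · rintro ⟨a1, a2⟩; exact ⟨a2, a1, hF a2⟩
      rw [this, Cx_erase]
    rw [Pr_local (Finset.erase_subset e (boxE M)) hl, Pr_local (Finset.erase_subset e (boxE M)) hl]
    apply Q291.AL.Ex_congr_param
    intro g hg
    have hge : g ≠ e := Finset.ne_of_mem_erase hg
    have : g ∈ boxE N ↔ g ∈ V1 := by
      rw [hV1, Finset.mem_erase]
      exact ⟨fun h => ⟨hge, h⟩, fun h => h.2⟩
    simp only [this]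
  -- the expansion
  have hexp := tay1 (boxE M) V1 hV1M δ (f := fun F => ind (Cx e F))
    (fun F => by
      rw [abs_of_nonneg (ind_nonneg _)]
      exact ind_le_one _)
    (fun S => QK e (insert e S)) (fun S hS F _ h => QK_of heV hS h)
  have hs := hsum M N e hN hNM heN δ hd1
  rw [← hV1] at hs
  have hexp' := hexp.trans hs
  rw [hirr] at hfar
  have hfar' := hfar.trans ha4
  have hC0' : 0 ≤ C0 := by linarith
  have hq1 : 0 ≤ (N : ℝ) ^ (-(5 / 4) : ℝ) := by positivity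
  have hq2 : 0 ≤ δ ^ 2 * (N : ℝ) ^ (1 / 4 : ℝ) := by positivity
  have hPr : Ex (fun g : Edg => 1 / 2 + if g ∈ V1 then δ else 0) (boxE M)
      (fun F => ind (Cx e F)) =
      Pr (fun g : Edg => 1 / 2 + if g ∈ V1 then δ else 0) (boxE M) (Cx e) := rfl
  have hPr2 : Ex (fun _ : Edg => (1 / 2 : ℝ)) (boxE M) (fun F => ind (Cx e F)) =
      PQ (1 / 2) (boxE M) (Cx e) := rfl
  rw [hPr, hPr2] at hexp'
  rw [abs_le] at hexp' hfar' ⊢
  have m1 := mul_nonneg hC0' hq2
  have m2 := mul_nonneg hC1.le hq1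
  constructor
  · nlinarith [hexp'.1, hfar'.1]
  · nlinarith [hexp'.2, hfar'.2]

end Q291.AL
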