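import Pool.Agent.Q291.AL.Kap

/-!
The expansion of the mean cluster density at one half.
-/

set_option autoImplicit false

namespace Q291.AL

open H974 H12S Finset Filter Topology MeasureTheory

/-- The derivative of the mean cluster density. -/
noncomputable def kd (p : ℝ) : ℝ := hb true p - 1 + (hb false p - 1)

theorem kd_abs {p : ℝ} (h0 : 0 ≤ p) (h1 : p ≤ 1) : |kd p| ≤ 2 := by
  have a1 := hb_nonneg true h0 h1
  have a2 := hb_nonneg false h0 h1
  have a3 := hb_le_one true h0 h1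
  have a4 := hb_le_one false h0 h1
  unfold kd
  rw [abs_le]
  constructor <;> linarith

theorem kapp_zero : kapp 0 = 1 := by
  unfold kapp
  simp

theorem kapp_abs {p : ℝ} (h0 : 0 ≤ p) (h1 : p ≤ 1) : |kapp p| ≤ 3 := by
  have h2 : ‖∫ s in (0:ℝ)..p, (hb true s - 1 + (hb false s - 1))‖ ≤ 2 * |p - 0| := by
    apply intervalIntegral.norm_integral_le_of_norm_le_const
    intro s hs
    rw [Set.uIoc_of_le h0] at hs
    exact kd_abs hs.1.le (hs.2.trans h1)
  rw [Real.norm_eq_abs, sub_zero, abs_of_nonneg h0] at h2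
  unfold kapp
  rw [abs_le] at h2 ⊢
  constructor <;> linarith

/-- The expansion of the derivative. -/
theorem kd_exp : ∃ c C a : ℝ, 0 < c ∧ 0 < C ∧ c ≤ 1 / 4 ∧ ∀ x : ℝ, |x| ≤ c →
    |kd (1 / 2 + x) - kd (1 / 2) - a * x| ≤ C * |x| ^ (5 / 3 : ℝ) := by
  obtain ⟨c, C, hc, hC, hc4, h⟩ := hb_exp
  obtain ⟨a, ha⟩ := h true
  obtain ⟨a', ha'⟩ := h false
  refine ⟨c, 2 * C, a + a', hc, by positivity, hc4, ?_⟩
  intro x hx
  have h1 := ha x hx
  have h2 := ha' x hx
  have h3 : kd (1 / 2 + x) - kd (1 / 2) - (a + a') * x =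
      (hb true (1 / 2 + x) - hb true (1 / 2) - a * x) +
      (hb false (1 / 2 + x) - hb false (1 / 2) - a' * x) := by
    unfold kd
    ring
  rw [h3]
  refine (abs_add_le _ _).trans ?_
  linarith

theorem rpow_split {x : ℝ} (s : ℝ) (hs : 0 < s) : |x| ^ (s + 1) = |x| ^ s * |x| := by
  rcases eq_or_ne x 0 with rfl | hx
  · rw [abs_zero, mul_zero, Real.zero_rpow (by linarith)]
  · rw [Real.rpow_add (abs_pos.2 hx), Real.rpow_one]

/-- The final statement. -/
theorem kapp_final : ∃ C a : ℝ, HasDerivAt kd a (1 / 2) ∧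
    (∀ p ∈ Set.Icc (0:ℝ) 1, |kd p - kd (1 / 2) - a * (p - 1 / 2)| ≤ C * |p - 1 / 2| ^ (5 / 3 : ℝ)) ∧
    (∀ p ∈ Set.Icc (0:ℝ) 1, |kapp p - kapp (1 / 2) - kd (1 / 2) * (p - 1 / 2) -
      1 / 2 * a * (p - 1 / 2) ^ 2| ≤ C * |p - 1 / 2| ^ (8 / 3 : ℝ)) := by
  obtain ⟨c, C, a, hc, hC, hc4, h⟩ := kd_exp
  -- the small differences of the function itself
  have hloc : ∀ x : ℝ, |x| ≤ c → |kapp (1 / 2 + x) - kapp (1 / 2) - kd (1 / 2) * x -
      1 / 2 * a * x ^ 2| ≤ C * |x| ^ (8 / 3 : ℝ) := by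
    intro x hx
    obtain ⟨φ, hφ⟩ : ∃ φ : ℝ → ℝ, φ = fun y => kapp (1 / 2 + y) - kapp (1 / 2) - kd (1 / 2) * y -
      1 / 2 * a * y ^ 2 := ⟨_, rfl⟩
    have hmem : ∀ y ∈ Set.Icc (-|x|) |x|, |y| ≤ |x| ∧ |y| ≤ c := by
      intro y hy
      have : |y| ≤ |x| := abs_le.2 hy
      exact ⟨this, this.trans hx⟩
    have hd : ∀ y ∈ Set.Icc (-|x|) |x|, HasDerivWithinAt φ
        (kd (1 / 2 + y) - kd (1 / 2) - a * y) (Set.Icc (-|x|) |x|) y := by
      intro y hy
      obtain ⟨h1, h2⟩ := hmem y hy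
      have h3 := abs_le.1 (h2.trans hc4)
      have h4 : HasDerivAt kapp (kd (1 / 2 + y)) (1 / 2 + y) :=
        kapp_deriv (by linarith) (by linarith)
      have h5 : HasDerivAt (fun y => kapp (1 / 2 + y)) (kd (1 / 2 + y)) y := by
        have := h4.comp_const_add (1 / 2) y
        exact this
      have h6 : HasDerivAt (fun y => kd (1 / 2) * y) (kd (1 / 2)) y := by
        simpa using (hasDerivAt_id y).const_mul (kd (1 / 2))
      have h7 : HasDerivAt (fun y => 1 / 2 * a * y ^ 2) (a * y) y := by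
        have := ((hasDerivAt_id y).pow 2).const_mul (1 / 2 * a)
        refine this.congr_deriv ?_
        simp
        ring
      have h8 : HasDerivAt φ (kd (1 / 2 + y) - kd (1 / 2) - a * y) y := by
        rw [hφ]
        exact ((h5.sub_const _).sub h6).sub h7
      exact h8.hasDerivWithinAt
    have hb : ∀ y ∈ Set.Icc (-|x|) |x|, ‖kd (1 / 2 + y) - kd (1 / 2) - a * y‖ ≤
        C * |x| ^ (5 / 3 : ℝ) := by
      intro y hy
      obtain ⟨h1, h2⟩ := hmem y hy
      refine (h y h2).trans ?_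
      apply mul_le_mul_of_nonneg_left _ hC.le
      exact Real.rpow_le_rpow (abs_nonneg _) h1 (by norm_num)
    have hx0 : (0:ℝ) ∈ Set.Icc (-|x|) |x| := by
      constructor <;> [simp; exact abs_nonneg x]
    have hxm : x ∈ Set.Icc (-|x|) |x| := ⟨neg_abs_le x, le_abs_self x⟩
    have hmain := (convex_Icc (-|x|) |x|).norm_image_sub_le_of_norm_hasDerivWithin_le hd hb hx0 hxm
    have h0 : φ 0 = 0 := by
      rw [hφ]
      simp
    rw [h0, sub_zero, sub_zero, Real.norm_eq_abs, Real.norm_eq_abs] at hmain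
    rw [show (8 / 3 : ℝ) = 5 / 3 + 1 by norm_num, rpow_split _ (by norm_num), ← mul_assoc]
    rw [hφ] at hmain
    exact hmain
  -- the constant
  obtain ⟨B, hB⟩ : ∃ B : ℝ, B = 10 + |a| := ⟨_, rfl⟩
  have hB0 : 0 < B := by rw [hB]; positivity
  have hrange : ∀ p ∈ Set.Icc (0:ℝ) 1, |p - 1 / 2| ≤ 1 / 2 := by
    intro p hp
    rw [abs_le]
    constructor <;> linarith [hp.1, hp.2]
  refine ⟨C + B / c ^ (8 / 3 : ℝ), a, ?_, ?_, ?_⟩
  · rw [hasDerivAt_iff_isLittleO_nhds_zero, Asymptotics.isLittleO_iff]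
    intro ε hε
    have hlim : Tendsto (fun x : ℝ => C * |x| ^ (2 / 3 : ℝ)) (𝓝 0) (𝓝 0) := by
      have hcont : Continuous (fun x : ℝ => C * |x| ^ (2 / 3 : ℝ)) :=
        continuous_const.mul (continuous_abs.rpow_const (fun _ => Or.inr (by norm_num)))
      have := hcont.tendsto 0
      simpa using this
    have h1 : ∀ᶠ x : ℝ in 𝓝 0, C * |x| ^ (2 / 3 : ℝ) < ε := (tendsto_order.1 hlim).2 ε hε
    have h2 : ∀ᶠ x : ℝ in 𝓝 0, |x| < c := by
      have := (tendsto_order.1 (continuous_abs.tendsto (0:ℝ))).2 c (by simpa using hc)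
      exact this
    filter_upwards [h1, h2] with x hx1 hx2
    rw [Real.norm_eq_abs, Real.norm_eq_abs, smul_eq_mul, mul_comm x a]
    refine (h x hx2.le).trans ?_
    rw [show (5 / 3 : ℝ) = 2 / 3 + 1 by norm_num, rpow_split _ (by norm_num), ← mul_assoc]
    exact mul_le_mul_of_nonneg_right hx1.le (abs_nonneg x)
  · intro p hp
    have hp2 := hrange p hp
    have hC1 : C ≤ C + B / c ^ (8 / 3 : ℝ) := by
      have : 0 ≤ B / c ^ (8 / 3 : ℝ) := by positivity
      linarith
    rcases le_total |p - 1 / 2| c with hpc | hpc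
    · have := h (p - 1 / 2) hpc
      rw [show 1 / 2 + (p - 1 / 2) = p by ring] at this
      refine this.trans ?_
      exact mul_le_mul_of_nonneg_right hC1 (by positivity)
    · have e1 := kd_abs hp.1 hp.2
      have e2 := kd_abs (p := 1 / 2) (by norm_num) (by norm_num)
      have e3 : |kd p - kd (1 / 2) - a * (p - 1 / 2)| ≤ B := by
        refine (abs_sub _ _).trans ?_
        refine (add_le_add (abs_sub _ _) le_rfl).trans ?_
        rw [abs_mul, hB]
        nlinarith [abs_nonneg a, abs_nonneg (p - 1 / 2)]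
      refine e3.trans ?_
      have e4 : c ^ (8 / 3 : ℝ) ≤ |p - 1 / 2| ^ (5 / 3 : ℝ) := by
        calc c ^ (8 / 3 : ℝ) ≤ c ^ (5 / 3 : ℝ) :=
              Real.rpow_le_rpow_of_exponent_ge hc (by linarith) (by norm_num)
          _ ≤ _ := Real.rpow_le_rpow hc.le hpc (by norm_num)
      have e5 : B = B / c ^ (8 / 3 : ℝ) * c ^ (8 / 3 : ℝ) := by
        rw [div_mul_cancel₀]
        positivity
      calc B = B / c ^ (8 / 3 : ℝ) * c ^ (8 / 3 : ℝ) := e5
        _ ≤ (C + B / c ^ (8 / 3 : ℝ)) * |p - 1 / 2| ^ (5 / 3 : ℝ) := by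
            apply mul_le_mul _ e4 (by positivity) (by positivity)
            linarith
  · intro p hp
    have hp2 := hrange p hp
    have hC1 : C ≤ C + B / c ^ (8 / 3 : ℝ) := by
      have : 0 ≤ B / c ^ (8 / 3 : ℝ) := by positivity
      linarith
    rcases le_total |p - 1 / 2| c with hpc | hpc
    · have := hloc (p - 1 / 2) hpc
      rw [show 1 / 2 + (p - 1 / 2) = p by ring] at this
      refine this.trans ?_
      exact mul_le_mul_of_nonneg_right hC1 (by positivity)
    · have e1 := kapp_abs hp.1 hp.2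
      have e2 := kapp_abs (p := 1 / 2) (by norm_num) (by norm_num)
      have e2' := kd_abs (p := 1 / 2) (by norm_num) (by norm_num)
      have e3 : |kapp p - kapp (1 / 2) - kd (1 / 2) * (p - 1 / 2) -
          1 / 2 * a * (p - 1 / 2) ^ 2| ≤ B := by
        refine (abs_sub _ _).trans ?_
        refine (add_le_add (abs_sub _ _) le_rfl).trans ?_
        refine (add_le_add (add_le_add (abs_sub _ _) le_rfl) le_rfl).trans ?_
        rw [abs_mul, abs_mul, abs_mul, abs_pow, hB]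
        have e6 : |(1 / 2 : ℝ)| = 1 / 2 := by norm_num
        rw [e6]
        have e7 : |kd (1 / 2)| * |p - 1 / 2| ≤ 2 * (1 / 2) :=
          mul_le_mul e2' hp2 (abs_nonneg _) (by norm_num)
        have e8 : |p - 1 / 2| ^ 2 ≤ 1 := by
          nlinarith [abs_nonneg (p - 1 / 2)]
        have e9 : 1 / 2 * |a| * |p - 1 / 2| ^ 2 ≤ |a| := by
          nlinarith [abs_nonneg a, abs_nonneg (p - 1 / 2)]
        linarith
      refine e3.trans ?_
      have e4 : c ^ (8 / 3 : ℝ) ≤ |p - 1 / 2| ^ (8 / 3 : ℝ) :=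
        Real.rpow_le_rpow hc.le hpc (by norm_num)
      have e5 : B = B / c ^ (8 / 3 : ℝ) * c ^ (8 / 3 : ℝ) := by
        rw [div_mul_cancel₀]
        positivity
      calc B = B / c ^ (8 / 3 : ℝ) * c ^ (8 / 3 : ℝ) := e5
        _ ≤ (C + B / c ^ (8 / 3 : ℝ)) * |p - 1 / 2| ^ (8 / 3 : ℝ) := by
            apply mul_le_mul _ e4 (by positivity) (by positivity)
            linarith

end Q291.AL
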