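import Mathlib

/-!
The weight `max(1,s)^(-5/4)`.
-/

set_option autoImplicit false

namespace Q291.AL

/-- The weight of the distance `s`. -/
noncomputable def ps (s : ℕ) : ℝ := ((max 1 s : ℕ) : ℝ) ^ (-(5 / 4) : ℝ)

theorem ps_pos (s : ℕ) : 0 < ps s := by
  unfold ps
  have : (0 : ℝ) < ((max 1 s : ℕ) : ℝ) := by exact_mod_cast (by omega : 0 < max 1 s)
  positivity

theorem ps_anti {s s' : ℕ} (h : s ≤ s') : ps s' ≤ ps s := by
  unfold ps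
  apply Real.rpow_le_rpow_of_nonpos
  · exact_mod_cast (by omega : 0 < max 1 s)
  · exact_mod_cast (by omega : max 1 s ≤ max 1 s')
  · norm_num

theorem ps_zero : ps 0 = 1 := by
  unfold ps; simp

theorem ps_one : ps 1 = 1 := by
  unfold ps; simp

theorem ps_le_one (s : ℕ) : ps s ≤ 1 := by
  have := ps_anti (Nat.zero_le s)
  rwa [ps_zero] at this

/-- The power `5/4` of a number at least one is at most its square. -/
theorem rpow_le_sq {x : ℝ} (hx : 1 ≤ x) : x ^ (5 / 4 : ℝ) ≤ x ^ 2 := by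
  rw [← Real.rpow_two]
  exact Real.rpow_le_rpow_of_exponent_le hx (by norm_num)

theorem ps_cmp {s s' M : ℕ} (hM : 1 ≤ M) (h : s' ≤ M * max 1 s) :
    ps s ≤ (M : ℝ) ^ 2 * ps s' := by
  obtain ⟨x, hx⟩ : ∃ x : ℕ, x = max 1 s := ⟨_, rfl⟩
  obtain ⟨y, hy⟩ : ∃ y : ℕ, y = max 1 s' := ⟨_, rfl⟩
  have hx0 : 0 < x := by omega
  have hy0 : 0 < y := by omega
  have hyx : y ≤ M * x := by
    rw [hy, hx]
    refine max_le ?_ h
    have : 1 * 1 ≤ M * max 1 s := Nat.mul_le_mul hM (le_max_left _ _)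
    omega
  unfold ps
  rw [← hx, ← hy]
  have hx' : (0 : ℝ) < x := by exact_mod_cast hx0
  have hy' : (0 : ℝ) < y := by exact_mod_cast hy0
  have hM' : (1 : ℝ) ≤ M := by exact_mod_cast hM
  have h1 : (y : ℝ) ≤ M * x := by exact_mod_cast hyx
  have h2 : ((M : ℝ) * x) ^ (-(5 / 4) : ℝ) ≤ (y : ℝ) ^ (-(5 / 4) : ℝ) :=
    Real.rpow_le_rpow_of_nonpos hy' h1 (by norm_num)
  rw [Real.mul_rpow (by linarith) hx'.le] at h2
  have h3 : (M : ℝ) ^ 2 * ((M : ℝ) ^ (-(5 / 4) : ℝ)) ≥ 1 := by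
    rw [← Real.rpow_two, ← Real.rpow_add (by linarith)]
    exact Real.one_le_rpow hM' (by norm_num)
  have h4 : 0 < (x : ℝ) ^ (-(5 / 4) : ℝ) := by positivity
  calc (x : ℝ) ^ (-(5 / 4) : ℝ) = 1 * (x : ℝ) ^ (-(5 / 4) : ℝ) := (one_mul _).symm
    _ ≤ ((M : ℝ) ^ 2 * ((M : ℝ) ^ (-(5 / 4) : ℝ))) * (x : ℝ) ^ (-(5 / 4) : ℝ) :=
        mul_le_mul_of_nonneg_right h3 h4.le
    _ = (M : ℝ) ^ 2 * ((M : ℝ) ^ (-(5 / 4) : ℝ) * (x : ℝ) ^ (-(5 / 4) : ℝ)) := by ring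
    _ ≤ _ := mul_le_mul_of_nonneg_left h2 (by positivity)

/-- The inequality of the merging step. -/
theorem ps_merge {t u w r d : ℕ} (h1 : r ≤ t + 1) (h2 : d ≤ u + (t + 1) + w) :
    ps (max (t + 1) u) * ps (max t w) ≤ 36 * (ps r * ps (max (t + 1) d)) := by
  obtain ⟨m, hm⟩ : ∃ m, m = max (t + 1) u := ⟨_, rfl⟩
  obtain ⟨m', hm'⟩ : ∃ m', m' = max (t + 1) d := ⟨_, rfl⟩
  rw [← hm, ← hm']
  have p0 := (ps_pos m).le
  have p1 := (ps_pos r).le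
  have p2 := (ps_pos m').le
  have p3 := (ps_pos (max t w)).le
  rcases le_total w m with hc | hc
  · have e1 : ps m ≤ ((3 : ℕ) : ℝ) ^ 2 * ps m' := ps_cmp (by norm_num) (by omega)
    have e2 : ps (max t w) ≤ ps t := ps_anti (le_max_left _ _)
    have e3 : ps t ≤ ((2 : ℕ) : ℝ) ^ 2 * ps (t + 1) := ps_cmp (by norm_num) (by omega)
    have e4 : ps (t + 1) ≤ ps r := ps_anti h1
    push_cast at e1 e3
    have e5 : ps (max t w) ≤ 4 * ps r := by linarith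
    calc ps m * ps (max t w) ≤ (3 ^ 2 * ps m') * (4 * ps r) :=
          mul_le_mul e1 e5 p3 (by positivity)
      _ = 36 * (ps r * ps m') := by ring
  · have e1 : ps m ≤ ps r := ps_anti (by omega)
    have e2 : ps (max t w) ≤ ((3 : ℕ) : ℝ) ^ 2 * ps m' := ps_cmp (by norm_num) (by omega)
    push_cast at e2
    calc ps m * ps (max t w) ≤ ps r * (3 ^ 2 * ps m') := mul_le_mul e1 e2 p3 p1
      _ = 9 * (ps r * ps m') := by ring
      _ ≤ _ := by nlinarith [mul_nonneg p1 p2]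

/-- The inequality of the annulus step. -/
theorem ps_out {s r D t' : ℕ} (hs : 1 ≤ s) (hr : r ≤ 3 * s) (hD : 1 ≤ D) (hDt : t' ≤ 4 * D) :
    ps s * ((r : ℝ) / D) ^ (5 / 4 : ℝ) ≤ 144 * ps t' := by
  have hs' : (1 : ℝ) ≤ s := by exact_mod_cast hs
  have hD' : (1 : ℝ) ≤ D := by exact_mod_cast hD
  have e1 : ps s = (s : ℝ) ^ (-(5 / 4) : ℝ) := by
    unfold ps
    rw [max_eq_right hs]
  have e2 : ps D = (D : ℝ) ^ (-(5 / 4) : ℝ) := by
    unfold ps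
    rw [max_eq_right hD]
  have h1 : ((r : ℝ) / D) ^ (5 / 4 : ℝ) ≤ ((3 : ℝ) * s / D) ^ (5 / 4 : ℝ) := by
    apply Real.rpow_le_rpow (by positivity) _ (by norm_num)
    apply div_le_div_of_nonneg_right _ (by linarith)
    exact_mod_cast hr
  have h2 : ((3 : ℝ) * s / D) ^ (5 / 4 : ℝ) =
      (3 : ℝ) ^ (5 / 4 : ℝ) * (s : ℝ) ^ (5 / 4 : ℝ) * (D : ℝ) ^ (-(5 / 4) : ℝ) := by
    rw [Real.div_rpow (by positivity) (by linarith), Real.mul_rpow (by norm_num) (by linarith),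
      Real.rpow_neg (by linarith)]
    rfl
  have h3 : (3 : ℝ) ^ (5 / 4 : ℝ) ≤ 9 := by
    have := rpow_le_sq (x := 3) (by norm_num)
    norm_num at this ⊢
    exact this
  have h4 : (s : ℝ) ^ (-(5 / 4) : ℝ) * (s : ℝ) ^ (5 / 4 : ℝ) = 1 := by
    rw [← Real.rpow_add (by linarith)]
    norm_num
  have h5 : ps D ≤ ((4 : ℕ) : ℝ) ^ 2 * ps t' :=
    ps_cmp (by norm_num) (by rw [max_eq_right hD]; exact hDt)
  push_cast at h5
  have h6 := (ps_pos D).le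
  calc ps s * ((r : ℝ) / D) ^ (5 / 4 : ℝ)
      ≤ ps s * ((3 : ℝ) ^ (5 / 4 : ℝ) * (s : ℝ) ^ (5 / 4 : ℝ) * (D : ℝ) ^ (-(5 / 4) : ℝ)) := by
        rw [← h2]
        exact mul_le_mul_of_nonneg_left h1 (ps_pos s).le
    _ = (3 : ℝ) ^ (5 / 4 : ℝ) * ps D * ((s : ℝ) ^ (-(5 / 4) : ℝ) * (s : ℝ) ^ (5 / 4 : ℝ)) := by
        rw [e1, e2]; ring
    _ = (3 : ℝ) ^ (5 / 4 : ℝ) * ps D := by rw [h4, mul_one]
    _ ≤ 9 * ps D := mul_le_mul_of_nonneg_right h3 h6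
    _ ≤ 9 * (4 ^ 2 * ps t') := mul_le_mul_of_nonneg_left h5 (by norm_num)
    _ = _ := by ring

end Q291.AL
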