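import Pool.Agent.Q291.AL.Det
import Pool.Agent.Q291.AL.Psi
import Pool.Agent.Y554.NE.Merge
import Pool.Agent.Y968.NE.Key

/-!
Local events and trees for sets of edges which are jointly pivotal for the connection of the two
ends of a fixed edge `e` (with `e` itself removed).
-/

set_option autoImplicit false

namespace Q291.AL

open H974 H12S H985T H389NS Finset Pool.Agent.Y554.SN Pool.Agent.Y554.NE
open Pool.Agent.Y239.NE.Dec Pool.Agent.Y239.NE.Out

/-- Every edge of `S` other than `e` is pivotal for the connection of the ends of `e` in the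
complement of `e`, for some choice of the configuration in `S`. -/
def QK (e : Edg) (S F : Finset Edg) : Prop :=
  ∀ w ∈ S, w ≠ e → ∃ T ⊆ S.erase e, Pv {src e} {tgt e} w (↑((F \ S) ∪ T) : Set Edg)

/-- A local event and a tree on `S`; if `b = true`, the event is only needed for the sets `S'`
larger than `S`. -/
def Gd (b : Bool) (M N : ℕ) (e : Edg) (t τ s : ℕ) (a : ℝ) (k : ℕ) (S : Finset Edg) (x : Edg) :
    Prop :=
  ∃ (Ev : Finset Edg → Prop) (par : Edg → Edg) (rk : Edg → ℕ),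
    (∀ F F' : Finset Edg, F ∩ (nb S (t / 2) \ S) = F' ∩ (nb S (t / 2) \ S) → (Ev F ↔ Ev F')) ∧
    (∀ S' : Finset Edg, S ⊆ S' → S' ⊆ boxE N → e ∈ S' → (b = true → (S' \ S).Nonempty) →
      (∀ v ∈ S, ∀ w ∈ S' \ S, t < ds v w) → ∀ F : Finset Edg, F ⊆ boxE M → QK e S' F → Ev F) ∧
    (∀ y ∈ S, y ≠ x → par y ∈ S ∧ rk (par y) < rk y ∧ ds y (par y) ≤ τ) ∧
    PQ (1 / 2) (boxE M) Ev ≤ a ^ k * (∏ y ∈ S.erase x, ps (ds y (par y))) * ps s

theorem Gd.weak {b : Bool} {M N : ℕ} {e : Edg} {t τ s : ℕ} {a : ℝ} {k : ℕ} {S : Finset Edg}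
    {x : Edg} (h : Gd b M N e t τ s a k S x) : Gd true M N e t τ s a k S x := by
  obtain ⟨Ev, par, rk, h1, h2, h3, h4⟩ := h
  exact ⟨Ev, par, rk, h1, fun S' a1 a2 a3 a4 => h2 S' a1 a2 a3 (fun _ => a4 rfl), h3, h4⟩

theorem Gd.mono {b : Bool} {M N : ℕ} {e : Edg} {t τ τ' s : ℕ} {a : ℝ} {k k' : ℕ} {S : Finset Edg}
    {x : Edg} (h : Gd b M N e t τ s a k S x) (hτ : τ ≤ τ') (hk : k ≤ k') (ha : 1 ≤ a) :
    Gd b M N e t τ' s a k' S x := by
  obtain ⟨Ev, par, rk, h1, h2, h3, h4⟩ := h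
  refine ⟨Ev, par, rk, h1, h2, fun y hy hx => ?_, h4.trans ?_⟩
  · obtain ⟨e1, e2, e3⟩ := h3 y hy hx
    exact ⟨e1, e2, e3.trans hτ⟩
  · refine mul_le_mul_of_nonneg_right ?_ (ps_pos _).le
    refine mul_le_mul_of_nonneg_right ?_ (Finset.prod_nonneg fun _ _ => (ps_pos _).le)
    exact pow_le_pow_right₀ ha hk

theorem prod_ps_nonneg (S : Finset Edg) (f : Edg → ℕ) : 0 ≤ ∏ y ∈ S, ps (f y) :=
  Finset.prod_nonneg fun _ _ => (ps_pos _).le

theorem ds_self (a : Edg) : ds a a = 0 := by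
  unfold ds
  simp

/-- The annulus event is implied. -/
theorem ann_imp {e x : Edg} {r D t' : ℕ} {S S' F : Finset Edg} (hr : 1 ≤ r) (hrD : r ≤ D)
    (hD : 2 * D ≤ t') (hSS : S ⊆ S') (he : e ∈ S') (hx : x ∈ S) (hSb : S ⊆ blk (pos x) r)
    (hne : (S' \ S).Nonempty) (hfar : ∀ v ∈ S, ∀ w ∈ S' \ S, t' < ds v w) (hQ : QK e S' F) :
    A4a (pos x) r D (↑F : Set Edg) := by
  -- outside of `S'`
  have hdis : ∀ g ∈ blk (pos x) D \ blk (pos x) r, g ∉ S' := by
    intro g hg hgS
    obtain ⟨hg1, hg2⟩ := mem_sdiff.mp hg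
    have h1 : g ∉ S := fun h => hg2 (hSb h)
    have h2 := hfar x hx g (mem_sdiff.mpr ⟨hgS, h1⟩)
    have h3 := mem_blk_pos hg1
    rw [Pool.Agent.Y239.NE.Dec.ds_comm] at h3
    omega
  have key : ∀ T : Finset Edg, T ⊆ S'.erase e → A4a (pos x) r D (↑((F \ S') ∪ T) : Set Edg) →
      A4a (pos x) r D (↑F : Set Edg) := by
    intro T hT h
    have e1 : (↑((F \ S') ∪ T) : Set Edg) ∩ ↑(blk (pos x) D \ blk (pos x) r) =
        (↑F : Set Edg) ∩ ↑(blk (pos x) D \ blk (pos x) r) := by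
      ext g
      simp only [Set.mem_inter_iff, mem_coe, Finset.mem_union, Finset.mem_sdiff]
      constructor
      · rintro ⟨h2 | h2, h3⟩
        · exact ⟨h2.1, h3⟩
        · exact absurd (Finset.mem_of_mem_erase (hT h2)) (hdis g (Finset.mem_sdiff.2 h3))
      · rintro ⟨h2, h3⟩
        exact ⟨Or.inl ⟨h2, hdis g (Finset.mem_sdiff.2 h3)⟩, h3⟩
    unfold A4a at h ⊢
    rw [e1] at h
    exact h
  by_cases heS : e ∈ S
  · obtain ⟨w, hw⟩ := hne
    have hwS := mem_sdiff.mp hw
    have hwe : w ≠ e := fun h => hwS.2 (h ▸ heS)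
    obtain ⟨T, hT, hPv⟩ := hQ w hwS.1 hwe
    refine key T hT (det_in hrD ?_ ?_ ?_ hPv)
    · exact (BS_adj_box (hSb heS)).1
    · exact (BS_adj_box (hSb heS)).2
    · intro hwb
      have h3 := mem_blk_pos hwb
      have h2 := hfar x hx w hw
      rw [Pool.Agent.Y239.NE.Dec.ds_comm] at h3
      omega
  · have hxe : x ≠ e := fun h => heS (h ▸ hx)
    obtain ⟨T, hT, hPv⟩ := hQ x (hSS hx) hxe
    have h2 := hfar x hx e (mem_sdiff.mpr ⟨he, heS⟩)
    have hxb : x ∈ blk (pos x) r := mem_blk_of (by rw [ds_self]; omega)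
    unfold ds at h2
    refine key T hT (det_out hrD ?_ ?_ hxb hPv)
    · unfold pos src
      simp only
      omega
    · obtain ⟨e1, e2, e3⟩ := e
      unfold pos
      cases e3
      · simp only [tgt_false] at h2 ⊢
        omega
      · simp only [tgt_true] at h2 ⊢
        omega

/-- OUT: the annulus around `S`. -/
theorem gout : ∃ C : ℝ, 1 ≤ C ∧ ∀ (a : ℝ) (b : Bool) (M N : ℕ) (e : Edg) (t t' τ k : ℕ)
    (S : Finset Edg) (x : Edg), C ≤ a → t + 1 ≤ t' → t' ≤ 2 * N → 2 * N ≤ M → S ⊆ boxE N →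
    x ∈ S → Gd b M N e t τ (max (t + 1) (dm S)) a k S x →
    Gd true M N e t' τ (max t' (dm S)) a (k + 1) S x := by
  classical
  obtain ⟨C0, hC0, hA4⟩ := A4a_sharp
  refine ⟨144 * C0 + 36, by linarith, ?_⟩
  intro a b M N e t t' τ k S x ha ht htN hNM hS hx hG
  have ha0 : 0 ≤ a := by linarith
  obtain ⟨Ev, par, rk, g1, g2, g3, g4⟩ := hG
  obtain ⟨s, hs⟩ : ∃ s, s = max (t + 1) (dm S) := ⟨_, rfl⟩
  obtain ⟨r, hr⟩ : ∃ r, r = dm S + t + 2 := ⟨_, rfl⟩
  obtain ⟨D, hD⟩ : ∃ D, D = t' / 2 := ⟨_, rfl⟩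
  rw [← hs] at g4
  have hs1 : 1 ≤ s := by omega
  have hr3 : r ≤ 3 * s := by omega
  have hD2 : 2 * D ≤ t' := by omega
  have hDt : t' ≤ 2 * D + 1 := by omega
  have hprod : 0 ≤ a ^ k * (∏ y ∈ S.erase x, ps (ds y (par y))) :=
    mul_nonneg (pow_nonneg ha0 k) (prod_ps_nonneg _ _)
  have hnbm : ∀ {i j : ℕ}, i ≤ j → nb S i ⊆ nb S j := by
    intro i j hij
    unfold Pool.Agent.Y554.NE.nb
    apply Finset.biUnion_mono
    intro e _
    apply blk_sub <;> simp <;> omega
  have hloc : ∀ F F' : Finset Edg, F ∩ (nb S (t' / 2) \ S) = F' ∩ (nb S (t' / 2) \ S) →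
      (Ev F ↔ Ev F') := by
    intro F F' hFF
    apply g1
    have hsub : nb S (t / 2) \ S ⊆ nb S (t' / 2) \ S :=
      Finset.sdiff_subset_sdiff (hnbm (by omega)) le_rfl
    have e1 : F ∩ (nb S (t / 2) \ S) = (F ∩ (nb S (t' / 2) \ S)) ∩ (nb S (t / 2) \ S) := by
      rw [Finset.inter_assoc, Finset.inter_eq_right.mpr hsub]
    have e2 : F' ∩ (nb S (t / 2) \ S) = (F' ∩ (nb S (t' / 2) \ S)) ∩ (nb S (t / 2) \ S) := by
      rw [Finset.inter_assoc, Finset.inter_eq_right.mpr hsub]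
    rw [e1, e2, hFF]
  rcases le_or_gt r D with hrD | hrD
  · obtain ⟨p1, p2⟩ := pos_le (hS hx)
    have hr1 : 1 ≤ r := by omega
    have hD1 : 1 ≤ D := by omega
    have hSb : S ⊆ blk (pos x) r := by
      intro g hg
      apply mem_blk_of
      have := ds_le_dm hg hx
      omega
    have hnbb : nb S (t / 2) ⊆ blk (pos x) r := by
      unfold Pool.Agent.Y554.NE.nb
      rw [Finset.biUnion_subset]
      intro g hg
      have := ds_le_dm hg hx
      unfold ds at this
      apply blk_sub <;> simp only [pos] <;> omega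
    have hbig : blk (pos x) D ⊆ nb S (t' / 2) := by
      rw [← hD]
      exact Finset.subset_biUnion_of_mem (fun g => blk (pos g) D) hx
    have hreg : blk (pos x) D \ blk (pos x) r ⊆ nb S (t' / 2) \ S := by
      intro g hg
      obtain ⟨hg1, hg2⟩ := mem_sdiff.mp hg
      exact mem_sdiff.mpr ⟨hbig hg1, fun h => hg2 (hSb h)⟩
    have hbM : blk (pos x) D ⊆ boxE M := by
      rw [abs_le] at p1 p2
      unfold blk boxE
      exact RE_subset (by omega) (by omega) (by omega) (by omega)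
    have c1 : ∀ F F' : Finset Edg, F ∩ (blk (pos x) D \ blk (pos x) r) =
        F' ∩ (blk (pos x) D \ blk (pos x) r) →
        (A4a (pos x) r D (↑F : Set Edg) ↔ A4a (pos x) r D (↑F' : Set Edg)) := by
      intro F F' h
      have h' : (↑F : Set Edg) ∩ ↑(blk (pos x) D \ blk (pos x) r) =
          (↑F' : Set Edg) ∩ ↑(blk (pos x) D \ blk (pos x) r) := by
        rw [← Finset.coe_inter, ← Finset.coe_inter, h]
      unfold A4a
      rw [h']
    refine ⟨fun F => Ev F ∧ A4a (pos x) r D (↑F : Set Edg), par, rk, ?_, ?_, g3, ?_⟩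
    · intro F F' hFF
      refine and_congr (hloc F F' hFF) (c1 F F' ?_)
      have e1 : F ∩ (blk (pos x) D \ blk (pos x) r) =
          (F ∩ (nb S (t' / 2) \ S)) ∩ (blk (pos x) D \ blk (pos x) r) := by
        rw [Finset.inter_assoc, Finset.inter_eq_right.mpr hreg]
      have e2 : F' ∩ (blk (pos x) D \ blk (pos x) r) =
          (F' ∩ (nb S (t' / 2) \ S)) ∩ (blk (pos x) D \ blk (pos x) r) := by
        rw [Finset.inter_assoc, Finset.inter_eq_right.mpr hreg]
      rw [e1, e2, hFF]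
    · intro S' hSS' hS' heS' hne hfar F hF hQ
      refine ⟨g2 S' hSS' hS' heS' (fun _ => hne rfl) (fun v hv w hw => ?_) F hF hQ, ?_⟩
      · have := hfar v hv w hw
        omega
      · exact ann_imp hr1 hrD hD2 hSS' heS' hx hSb (hne rfl) hfar hQ
    · have hind : PQ (1 / 2) (boxE M) (fun F => Ev F ∧ A4a (pos x) r D (↑F : Set Edg)) =
          PQ (1 / 2) (boxE M) Ev * PQ (1 / 2) (boxE M) (fun F => A4a (pos x) r D ↑F) := by
        refine Pr_indep (S := (nb S (t / 2) \ S) ∩ boxE M)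
          (T := (blk (pos x) D \ blk (pos x) r) ∩ boxE M) inter_subset_right
          inter_subset_right ?_ ?_ ?_
        · rw [Finset.disjoint_left]
          intro g hg1 hg2
          exact (mem_sdiff.mp (mem_inter.mp hg2).1).2
            (hnbb (mem_sdiff.mp (mem_inter.mp hg1).1).1)
        · intro F hF
          apply g1
          rw [Finset.inter_assoc, Finset.inter_assoc, Finset.inter_comm (boxE M),
            ← Finset.inter_assoc (nb S (t / 2) \ S), Finset.inter_self,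
            Finset.inter_comm (nb S (t / 2) \ S), ← Finset.inter_assoc,
            Finset.inter_eq_left.mpr hF]
        · intro F hF
          apply c1
          rw [Finset.inter_assoc, Finset.inter_assoc, Finset.inter_comm (boxE M),
            ← Finset.inter_assoc (blk (pos x) D \ blk (pos x) r), Finset.inter_self,
            Finset.inter_comm (blk (pos x) D \ blk (pos x) r), ← Finset.inter_assoc,
            Finset.inter_eq_left.mpr hF]
      rw [hind]
      have hmax : max t' (dm S) = t' := max_eq_left (by omega)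
      rw [hmax]
      have h1 := hA4 (pos x) r D hr1 hrD (boxE M) hbM
      have h2 := ps_out hs1 hr3 hD1 (show t' ≤ 4 * D by omega)
      have h3 := ps_pos t'
      calc PQ (1 / 2) (boxE M) Ev * PQ (1 / 2) (boxE M) (fun F => A4a (pos x) r D ↑F)
          ≤ (a ^ k * (∏ y ∈ S.erase x, ps (ds y (par y))) * ps s) *
            (C0 * ((r:ℝ) / D) ^ (5 / 4 : ℝ)) :=
            mul_le_mul g4 h1 (Pr_nonneg okh _ _) (mul_nonneg hprod (ps_pos s).le)
        _ = a ^ k * (∏ y ∈ S.erase x, ps (ds y (par y))) *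
            (C0 * (ps s * ((r:ℝ) / D) ^ (5 / 4 : ℝ))) := by ring
        _ ≤ a ^ k * (∏ y ∈ S.erase x, ps (ds y (par y))) * (C0 * (144 * ps t')) := by
            apply mul_le_mul_of_nonneg_left _ hprod
            exact mul_le_mul_of_nonneg_left h2 hC0.le
        _ ≤ a ^ k * (∏ y ∈ S.erase x, ps (ds y (par y))) * (a * ps t') := by
            apply mul_le_mul_of_nonneg_left _ hprod
            nlinarith
        _ = _ := by rw [pow_succ]; ring
  · refine ⟨Ev, par, rk, hloc, ?_, g3, ?_⟩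
    · intro S' hSS' hS' heS' hne hfar F hF hQ
      refine g2 S' hSS' hS' heS' (fun _ => hne rfl) (fun v hv w hw => ?_) F hF hQ
      have := hfar v hv w hw
      omega
    · have h1 : ps s ≤ ((6 : ℕ) : ℝ) ^ 2 * ps (max t' (dm S)) := by
        apply ps_cmp (by norm_num)
        rw [max_eq_right hs1]
        refine max_le ?_ ?_ <;> omega
      push_cast at h1
      have h3 := ps_pos (max t' (dm S))
      calc PQ (1 / 2) (boxE M) Ev
          ≤ a ^ k * (∏ y ∈ S.erase x, ps (ds y (par y))) * ps s := g4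
        _ ≤ a ^ k * (∏ y ∈ S.erase x, ps (ds y (par y))) * (a * ps (max t' (dm S))) := by
            apply mul_le_mul_of_nonneg_left _ hprod
            nlinarith
        _ = _ := by rw [pow_succ]; ring

/-- START: change of the radius. -/
theorem gstart {a : ℝ} (ha : 4 ≤ a) {b : Bool} {M N : ℕ} {e : Edg} {t τ k : ℕ} {R : Finset Edg}
    {x : Edg} (h : Gd b M N e t τ (max t (dm R)) a k R x) :
    Gd b M N e t τ (max (t + 1) (dm R)) a (k + 1) R x := by
  obtain ⟨Ev, par, rk, h1, h2, h3, h4⟩ := h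
  refine ⟨Ev, par, rk, h1, h2, h3, h4.trans ?_⟩
  have h5 : ps (max t (dm R)) ≤ ((2:ℕ):ℝ) ^ 2 * ps (max (t + 1) (dm R)) :=
    ps_cmp (by norm_num) (by omega)
  push_cast at h5
  have h6 : 0 ≤ a ^ k * ∏ y ∈ R.erase x, ps (ds y (par y)) :=
    mul_nonneg (pow_nonneg (by linarith) _) (prod_ps_nonneg _ _)
  have h7 := (ps_pos (max (t + 1) (dm R))).le
  calc a ^ k * (∏ y ∈ R.erase x, ps (ds y (par y))) * ps (max t (dm R)) ≤
        a ^ k * (∏ y ∈ R.erase x, ps (ds y (par y))) * (a * ps (max (t + 1) (dm R))) := by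
        apply mul_le_mul_of_nonneg_left _ h6
        nlinarith
    _ = _ := by rw [pow_succ]; ring

/-- MERGE: union of two sets at distance `t + 1`. -/
theorem gmerge {a : ℝ} (ha : 36 ≤ a) {M N : ℕ} {e : Edg} {t k k' : ℕ} {U R : Finset Edg}
    {x b u : Edg} (hx : x ∈ U) (hu : u ∈ U) (hb : b ∈ R) (hbu : ds b u ≤ t + 1)
    (hfar : ∀ v ∈ U, ∀ w ∈ R, t < ds v w)
    (hU : Gd true M N e t (t + 1) (max (t + 1) (dm U)) a k U x)
    (hR : Gd true M N e t (t + 1) (max t (dm R)) a k' R b) :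
    Gd false M N e t (t + 1) (max (t + 1) (dm (U ∪ R))) a (k + k' + 1) (U ∪ R) x := by
  classical
  obtain ⟨EU, pU, rU, u1, u2, u3, u4⟩ := hU
  obtain ⟨ER, pR, rR, w1, w2, w3, w4⟩ := hR
  have hdis : ∀ v ∈ U, v ∉ R := by
    intro v hv hv'
    have h1 := hfar v hv v hv'
    have h2 : ds v v = 0 := ds_self v
    omega
  have hUR : Disjoint U R := Finset.disjoint_left.2 hdis
  have hnbU : ∀ g ∈ nb U (t / 2), ∃ v ∈ U, ds g v ≤ t / 2 := by
    intro g hg
    unfold Pool.Agent.Y554.NE.nb at hg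
    obtain ⟨v, hv, h1⟩ := mem_biUnion.1 hg
    exact ⟨v, hv, mem_blk_pos h1⟩
  have hnbR : ∀ g ∈ nb R (t / 2), ∃ v ∈ R, ds g v ≤ t / 2 := by
    intro g hg
    unfold Pool.Agent.Y554.NE.nb at hg
    obtain ⟨v, hv, h1⟩ := mem_biUnion.1 hg
    exact ⟨v, hv, mem_blk_pos h1⟩
  have hsubU : nb U (t / 2) \ U ⊆ nb (U ∪ R) (t / 2) \ (U ∪ R) := by
    intro g hg
    rw [mem_sdiff] at hg ⊢
    obtain ⟨v, hv, h1⟩ := hnbU g hg.1
    refine ⟨?_, ?_⟩
    · unfold Pool.Agent.Y554.NE.nb at hg ⊢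
      exact Finset.biUnion_subset_biUnion_of_subset_left _ subset_union_left hg.1
    · rw [mem_union]
      rintro (h | h)
      · exact hg.2 h
      · have h2 := hfar v hv g h
        rw [Pool.Agent.Y239.NE.Dec.ds_comm] at h2
        omega
  have hsubR : nb R (t / 2) \ R ⊆ nb (U ∪ R) (t / 2) \ (U ∪ R) := by
    intro g hg
    rw [mem_sdiff] at hg ⊢
    obtain ⟨v, hv, h1⟩ := hnbR g hg.1
    refine ⟨?_, ?_⟩
    · unfold Pool.Agent.Y554.NE.nb at hg ⊢
      exact Finset.biUnion_subset_biUnion_of_subset_left _ subset_union_right hg.1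
    · rw [mem_union]
      rintro (h | h)
      · have h2 := hfar g h v hv
        omega
      · exact hg.2 h
  have hdreg : Disjoint (nb U (t / 2) \ U) (nb R (t / 2) \ R) := by
    rw [Finset.disjoint_left]
    intro g hg hg'
    obtain ⟨v, hv, h1⟩ := hnbU g (mem_sdiff.1 hg).1
    obtain ⟨w, hw, h2⟩ := hnbR g (mem_sdiff.1 hg').1
    have h3 := hfar v hv w hw
    have h4 := ds_tri v g w
    rw [Pool.Agent.Y239.NE.Dec.ds_comm v g] at h4
    omega
  have hres : ∀ {A B : Finset Edg}, A ⊆ B → ∀ {F F' : Finset Edg}, F ∩ B = F' ∩ B →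
      F ∩ A = F' ∩ A := by
    intro A B hAB F F' h
    have e1 : F ∩ A = (F ∩ B) ∩ A := by
      rw [Finset.inter_assoc, Finset.inter_eq_right.mpr hAB]
    have e2 : F' ∩ A = (F' ∩ B) ∩ A := by
      rw [Finset.inter_assoc, Finset.inter_eq_right.mpr hAB]
    rw [e1, e2, h]
  refine ⟨fun F => EU F ∧ ER F, fun y => if y ∈ U then pU y else if y = b then u else pR y,
    fun y => if y ∈ U then rU y else rR y + rU u + 1, ?_, ?_, ?_, ?_⟩
  · intro F F' hFF
    exact and_congr (u1 F F' (hres hsubU hFF)) (w1 F F' (hres hsubR hFF))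
  · intro S' hS' hS'n heS' _ hS'd F hF hQ
    refine ⟨u2 S' (subset_union_left.trans hS') hS'n heS' (fun _ => ?_) ?_ F hF hQ,
      w2 S' (subset_union_right.trans hS') hS'n heS' (fun _ => ?_) ?_ F hF hQ⟩
    · exact ⟨b, mem_sdiff.2 ⟨hS' (mem_union_right _ hb), fun h => hdis b h hb⟩⟩
    · intro v hv w hw
      by_cases hwR : w ∈ R
      · exact hfar v hv w hwR
      · refine hS'd v (mem_union_left _ hv) w ?_
        rw [mem_sdiff] at hw ⊢
        refine ⟨hw.1, ?_⟩
        rw [mem_union]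
        rintro (h | h)
        · exact hw.2 h
        · exact hwR h
    · exact ⟨x, mem_sdiff.2 ⟨hS' (mem_union_left _ hx), hdis x hx⟩⟩
    · intro v hv w hw
      by_cases hwU : w ∈ U
      · rw [Pool.Agent.Y239.NE.Dec.ds_comm]
        exact hfar w hwU v hv
      · refine hS'd v (mem_union_right _ hv) w ?_
        rw [mem_sdiff] at hw ⊢
        refine ⟨hw.1, ?_⟩
        rw [mem_union]
        rintro (h | h)
        · exact hwU h
        · exact hw.2 h
  · intro y hy hyx
    by_cases hyU : y ∈ U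
    · obtain ⟨g1, g2, g3⟩ := u3 y hyU hyx
      simp only [if_pos hyU, if_pos g1]
      exact ⟨mem_union_left _ g1, g2, g3⟩
    · have hyR : y ∈ R := (mem_union.1 hy).resolve_left hyU
      by_cases hyb : y = b
      · simp only [if_neg hyU, if_pos hyb, if_pos hu]
        refine ⟨mem_union_left _ hu, by omega, ?_⟩
        rw [hyb]
        exact hbu
      · obtain ⟨g1, g2, g3⟩ := w3 y hyR hyb
        have g4 : pR y ∉ U := fun h => hdis _ h g1
        simp only [if_neg hyU, if_neg hyb, if_neg g4]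
        exact ⟨mem_union_right _ g1, by omega, g3⟩
  · have ha0 : 0 ≤ a := by linarith
    have hind : PQ (1 / 2) (boxE M) (fun F => EU F ∧ ER F) =
        PQ (1 / 2) (boxE M) EU * PQ (1 / 2) (boxE M) ER := by
      unfold PQ
      refine Pr_indep (S := (nb U (t / 2) \ U) ∩ boxE M) (T := (nb R (t / 2) \ R) ∩ boxE M)
        inter_subset_right inter_subset_right ?_ ?_ ?_
      · exact hdreg.mono inter_subset_left inter_subset_left
      · intro F hF
        apply u1
        ext g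
        simp only [mem_inter]
        constructor
        · rintro ⟨h1, h2⟩
          exact ⟨⟨h1, h2, hF h1⟩, h2⟩
        · rintro ⟨⟨h1, -⟩, h2⟩
          exact ⟨h1, h2⟩
      · intro F hF
        apply w1
        ext g
        simp only [mem_inter]
        constructor
        · rintro ⟨h1, h2⟩
          exact ⟨⟨h1, h2, hF h1⟩, h2⟩
        · rintro ⟨⟨h1, -⟩, h2⟩
          exact ⟨h1, h2⟩
    rw [hind]
    obtain ⟨PU, hPU⟩ : ∃ PU : ℝ, PU = ∏ y ∈ U.erase x, ps (ds y (pU y)) := ⟨_, rfl⟩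
    obtain ⟨PR, hPR⟩ : ∃ PR : ℝ, PR = ∏ y ∈ R.erase b, ps (ds y (pR y)) := ⟨_, rfl⟩
    have hPU0 : 0 ≤ PU := by rw [hPU]; exact prod_ps_nonneg _ _
    have hPR0 : 0 ≤ PR := by rw [hPR]; exact prod_ps_nonneg _ _
    have hprod : (∏ y ∈ (U ∪ R).erase x,
        ps (ds y (if y ∈ U then pU y else if y = b then u else pR y))) =
        PU * (ps (ds b u) * PR) := by
      have e1 : (U ∪ R).erase x = (U.erase x) ∪ R := by
        rw [Finset.erase_union_distrib, Finset.erase_eq_of_notMem (hdis x hx)]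
      have e2 : Disjoint (U.erase x) R := hUR.mono_left (Finset.erase_subset _ _)
      rw [e1, Finset.prod_union e2, hPU]
      congr 1
      · apply Finset.prod_congr rfl
        intro y hy
        rw [if_pos (Finset.mem_of_mem_erase hy)]
      · rw [← Finset.mul_prod_erase R _ hb, hPR]
        have hbU : b ∉ U := fun h => hdis b h hb
        rw [if_neg hbU, if_pos rfl]
        congr 1
        apply Finset.prod_congr rfl
        intro y hy
        rw [if_neg (fun h => hdis y h (Finset.mem_of_mem_erase hy)),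
          if_neg (Finset.ne_of_mem_erase hy)]
    rw [hprod]
    rw [← hPU] at u4
    rw [← hPR] at w4
    have hmp := ps_merge hbu (dm_union hu hb hbu)
    have z1 := (ps_pos (max (t + 1) (dm U))).le
    have z2 := (ps_pos (max t (dm R))).le
    have z3 := (ps_pos (ds b u)).le
    have z4 := (ps_pos (max (t + 1) (dm (U ∪ R)))).le
    have z5 : 0 ≤ PQ (1 / 2) (boxE M) ER := Pr_nonneg (fun e => by norm_num) _ _
    have hak : 0 ≤ a ^ k := pow_nonneg ha0 _
    have hak' : 0 ≤ a ^ k' := pow_nonneg ha0 _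
    calc PQ (1 / 2) (boxE M) EU * PQ (1 / 2) (boxE M) ER ≤
          (a ^ k * PU * ps (max (t + 1) (dm U))) *
            (a ^ k' * PR * ps (max t (dm R))) :=
          mul_le_mul u4 w4 z5 (by positivity)
      _ = a ^ k * a ^ k' * PU * PR *
            (ps (max (t + 1) (dm U)) * ps (max t (dm R))) := by ring
      _ ≤ a ^ k * a ^ k' * PU * PR *
            (36 * (ps (ds b u) * ps (max (t + 1) (dm (U ∪ R))))) :=
          mul_le_mul_of_nonneg_left hmp (by positivity)
      _ ≤ a ^ k * a ^ k' * PU * PR *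
            (a * (ps (ds b u) * ps (max (t + 1) (dm (U ∪ R))))) := by
          apply mul_le_mul_of_nonneg_left _ (by positivity)
          exact mul_le_mul_of_nonneg_right ha (mul_nonneg z3 z4)
      _ = _ := by rw [pow_succ, pow_add]; ring

end Q291.AL
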