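import Pool.Agent.Q291.AL.Trunc
import Pool.Agent.H974R2.FourArm
import Pool.Agent.H974R2.Glue

/-!
The four-arm probability at the origin tends to zero uniformly in the parameter.
-/

set_option autoImplicit false

namespace Q291.AL

open H974 H12S Finset

/-- The scales. -/
def scl (i : ℕ) : ℕ := 10 * 4 ^ i

theorem scl_ge (i : ℕ) : 10 ≤ scl i := by
  unfold scl
  have : 1 ≤ 4 ^ i := Nat.one_le_pow _ _ (by norm_num)
  omega

theorem scl_succ (i : ℕ) : scl (i + 1) = 4 * scl i := by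
  unfold scl
  rw [pow_succ]
  ring

theorem scl_mono {i j : ℕ} (h : i ≤ j) : scl i ≤ scl j := by
  unfold scl
  exact Nat.mul_le_mul_left _ (Nat.pow_le_pow_right (by norm_num) h)

/-- None of the events of the first scales occurs. -/
def NCe (B : ℕ → Finset Edg → Prop) (j : ℕ) (F : Finset Edg) : Prop := ∀ i ≤ j, ¬ B i F

theorem nce_le {q c : ℝ} (h0 : 0 ≤ q) (h1 : q ≤ 1) (hc1 : c ≤ 1)
    (B : ℕ → Finset Edg → Prop)
    (hB : ∀ i, ∀ F, B i F ↔ B i (F ∩ annE (scl i - 1) (3 * scl i))) (M : ℕ)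
    (hp : ∀ i, 3 * scl i ≤ M → c ≤ Pr (fun _ => q) (boxE M) (B i)) :
    ∀ j, 3 * scl j ≤ M → Pr (fun _ => q) (boxE M) (NCe B j) ≤ (1 - c) ^ (j + 1) := by
  intro j
  induction j with
  | zero =>
    intro hj
    have e1 : Pr (fun _ => q) (boxE M) (NCe B 0) = Pr (fun _ => q) (boxE M) (fun F => ¬ B 0 F) := by
      apply Pr_congr
      intro F _
      unfold NCe
      constructor
      · intro h
        exact h 0 le_rfl
      · intro h i hi
        rw [Nat.le_zero.1 hi]
        exact h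
    rw [e1, Pr_not]
    have := hp 0 hj
    simp only [zero_add, pow_one]
    linarith
  | succ j ih =>
    intro hj
    have hs := scl_succ j
    have hg := scl_ge j
    have ihj := ih (by omega)
    have e1 : Pr (fun _ => q) (boxE M) (NCe B (j + 1)) =
        Pr (fun _ => q) (boxE M) (fun F => NCe B j F ∧ ¬ B (j + 1) F) := by
      apply Pr_congr
      intro F _
      unfold NCe
      constructor
      · intro h
        exact ⟨fun i hi => h i (by omega), h (j + 1) le_rfl⟩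
      · rintro ⟨h2, h3⟩ i hi
        rcases Nat.lt_or_ge i (j + 1) with h4 | h4
        · exact h2 i (by omega)
        · rw [show i = j + 1 by omega]
          exact h3
    have hann : annE (scl (j + 1) - 1) (3 * scl (j + 1)) ⊆ boxE M := by
      unfold annE
      exact Finset.sdiff_subset.trans (boxE_mono hj)
    rw [e1, Pr_indep (S := boxE (3 * scl j)) (T := annE (scl (j + 1) - 1) (3 * scl (j + 1)))
      (boxE_mono (by omega)) hann]
    · rw [pow_succ, Pr_not]
      have h3 := hp (j + 1) hj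
      have h4 : 0 ≤ 1 - Pr (fun _ => q) (boxE M) (B (j + 1)) := by
        have := Pr_le_one (okq h0 h1) (boxE M) (B (j + 1))
        linarith
      have h5 : 0 ≤ (1 - c) ^ (j + 1) := pow_nonneg (by linarith) _
      exact mul_le_mul ihj (by linarith) h4 h5
    · rw [Finset.disjoint_left]
      intro x hx hx'
      unfold annE at hx'
      exact (Finset.mem_sdiff.1 hx').2 (boxE_mono (by omega) hx)
    · intro F _
      unfold NCe
      refine forall_congr' fun i => forall_congr' fun hi => not_congr ?_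
      have hsub : annE (scl i - 1) (3 * scl i) ⊆ boxE (3 * scl j) := by
        unfold annE
        have := scl_mono hi
        exact Finset.sdiff_subset.trans (boxE_mono (by omega))
      rw [hB i F, hB i (F ∩ boxE (3 * scl j)), Finset.inter_assoc,
        Finset.inter_eq_right.2 hsub]
    · intro F _
      rw [hB (j + 1) F, hB (j + 1) (F ∩ _), Finset.inter_assoc, Finset.inter_self]

theorem circ_ann {n m : ℕ} (hn : 1 ≤ n) (hnm : n < m) :
    LRE (-m) m n m ⊆ annE (n - 1) m ∧ LRE (-m) m (-m) (-n) ⊆ annE (n - 1) m ∧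
      TBE n m (-m) m ⊆ annE (n - 1) m ∧ TBE (-m) (-n) (-m) m ⊆ annE (n - 1) m := by
  have h : (n:ℤ) < m := by exact_mod_cast hnm
  have h1 : (1:ℤ) ≤ n := by exact_mod_cast hn
  have h2 : ((n - 1 : ℕ) : ℤ) = n - 1 := by omega
  unfold annE boxE
  rw [h2]
  refine ⟨?_, ?_, ?_, ?_⟩
  · rintro ⟨x, y, _ | _⟩ h8
    · simp only [mem_LRE_false, Finset.mem_sdiff, mem_RE_false] at h8 ⊢; omega
    · simp only [mem_LRE_true, Finset.mem_sdiff, mem_RE_true] at h8 ⊢; omega
  · rintro ⟨x, y, _ | _⟩ h8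
    · simp only [mem_LRE_false, Finset.mem_sdiff, mem_RE_false] at h8 ⊢; omega
    · simp only [mem_LRE_true, Finset.mem_sdiff, mem_RE_true] at h8 ⊢; omega
  · rintro ⟨x, y, _ | _⟩ h8
    · simp only [mem_TBE_false, Finset.mem_sdiff, mem_RE_false] at h8 ⊢; omega
    · simp only [mem_TBE_true, Finset.mem_sdiff, mem_RE_true] at h8 ⊢; omega
  · rintro ⟨x, y, _ | _⟩ h8
    · simp only [mem_TBE_false, Finset.mem_sdiff, mem_RE_false] at h8 ⊢; omega
    · simp only [mem_TBE_true, Finset.mem_sdiff, mem_RE_true] at h8 ⊢; omega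

theorem circ_loc {n m : ℕ} (hn : 1 ≤ n) (hnm : n < m) (F : Finset Edg) :
    Circ n m F ↔ Circ n m (F ∩ annE (n - 1) m) := by
  obtain ⟨h1, h2, h3, h4⟩ := circ_ann hn hnm
  unfold Circ
  rw [LRc_local (F := F) h1, LRc_local (F := F) h2, TBc_local (F := F) h3, TBc_local (F := F) h4]

theorem blk_loc {n m : ℕ} (hnm : n < m) (F : Finset Edg) :
    Blk n m F ↔ Blk n m (F ∩ annE (n - 1) m) := by
  apply Blk_local hnm
  unfold annE
  exact Finset.sdiff_subset_sdiff (Finset.Subset.refl _) (boxE_mono (by omega))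

theorem A4_no_circ {b : Bool} {r n : ℕ} (hr : 2 ≤ r) (hrn : 3 * r ≤ n) {F : Finset Edg}
    (h : A4 (-n) n (-n) n (e0 b) (↑F : Set Edg)) : ¬ Circ r (3 * r : ℕ) F := by
  intro hC
  obtain ⟨e, he⟩ : ∃ e, e = e0 b := ⟨_, rfl⟩
  rw [← he] at h
  have heb : e ∈ boxE 1 := by
    rw [he]
    unfold e0 boxE
    cases b
    · rw [mem_RE_false]; simp
    · rw [mem_RE_true]; simp
  have hC' : Circ r (3 * r : ℕ) (F.erase e) := by
    rw [circ_loc (by omega) (by omega)] at hC ⊢
    have : F.erase e ∩ annE (r - 1) (3 * r) = F ∩ annE (r - 1) (3 * r) := by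
      ext x
      simp only [Finset.mem_inter, Finset.mem_erase]
      constructor
      · rintro ⟨⟨_, h1⟩, h2⟩; exact ⟨h1, h2⟩
      · rintro ⟨h1, h2⟩
        refine ⟨⟨?_, h1⟩, h2⟩
        rintro rfl
        unfold annE at h2
        exact (Finset.mem_sdiff.1 h2).2 (boxE_mono (by omega) heb)
    rw [this]
    exact hC
  obtain ⟨z, hz⟩ := circ_meet (by positivity) (by push_cast; omega) hC'
  obtain ⟨⟨w, ⟨hw1, hw2⟩, k1⟩, ⟨w', ⟨hw1', hw2'⟩, k2⟩, k3⟩ := h
  have hsrc : inR (-(r:ℤ)) r (-r) r (src e) := by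
    rw [he]; unfold inR e0 src; simp only; omega
  have htgt : inR (-(r:ℤ)) r (-r) r (tgt e) := by
    rw [he]
    unfold e0
    cases b
    · rw [tgt_false]; unfold inR; simp only; omega
    · rw [tgt_true]; unfold inR; simp only; omega
  have big : ∀ {u : Vtx}, inR (-(r:ℤ)) r (-r) r u →
      inR (-((3 * r : ℕ) : ℤ)) ((3 * r : ℕ) : ℤ) (-((3 * r : ℕ) : ℤ)) ((3 * r : ℕ) : ℤ) u := by
    intro u hu
    unfold inR at hu ⊢
    push_cast
    omega
  have hsub : ((↑F : Set Edg) ∩ ↑(RE (-(n:ℤ)) n (-n) n)) \ {e} ∩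
      ↑(RE (-((3 * r : ℕ) : ℤ)) ((3 * r : ℕ) : ℤ) (-((3 * r : ℕ) : ℤ)) ((3 * r : ℕ) : ℤ)) ⊆
      (↑(F.erase e) : Set Edg) ∩
      ↑(RE (-((3 * r : ℕ) : ℤ)) ((3 * r : ℕ) : ℤ) (-((3 * r : ℕ) : ℤ)) ((3 * r : ℕ) : ℤ)) := by
    rintro x ⟨⟨⟨h1, _⟩, h2⟩, h3⟩
    refine ⟨?_, h3⟩
    rw [Finset.coe_erase]
    exact ⟨h1, h2⟩
  have hsub2 : (↑(F.erase e) : Set Edg) ∩
      ↑(RE (-((3 * r : ℕ) : ℤ)) ((3 * r : ℕ) : ℤ) (-((3 * r : ℕ) : ℤ)) ((3 * r : ℕ) : ℤ)) ⊆
      ((↑F : Set Edg) ∩ ↑(RE (-(n:ℤ)) n (-n) n)) \ {e} := by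
    rintro x ⟨h1, h2⟩
    rw [Finset.coe_erase] at h1
    refine ⟨⟨h1.1, ?_⟩, h1.2⟩
    rw [Finset.mem_coe] at h2 ⊢
    exact RE_subset (by push_cast; omega) (by push_cast; omega) (by push_cast; omega)
      (by push_cast; omega) h2
  obtain ⟨v, _, v2, v3⟩ := first_exit (a := -((3 * r : ℕ) : ℤ)) (b := ((3 * r : ℕ) : ℤ))
    (c := -((3 * r : ℕ) : ℤ)) (d := ((3 * r : ℕ) : ℤ)) (big hsrc) k1 (by push_cast; omega)
  obtain ⟨v', _, v2', v3'⟩ := first_exit (a := -((3 * r : ℕ) : ℤ)) (b := ((3 * r : ℕ) : ℤ))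
    (c := -((3 * r : ℕ) : ℤ)) (d := ((3 * r : ℕ) : ℤ)) (big htgt) k2 (by push_cast; omega)
  have m1 := hz _ v hsrc v2 (v3.mono hsub)
  have m2 := hz _ v' htgt v2' (v3'.mono hsub)
  exact k3 ((m1.trans m2.symm).mono hsub2)

/-- The four-arm probability tends to zero uniformly in the parameter. -/
theorem A4_small : ∃ ρ : ℝ, 0 ≤ ρ ∧ ρ < 1 ∧ ∀ (b : Bool) (q : ℝ), 0 ≤ q → q ≤ 1 → ∀ j n : ℕ,
    3 * scl j ≤ n → PQ q (boxE n) (fun F => A4 (-n) n (-n) n (e0 b) ↑F) ≤ ρ ^ (j + 1) := by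
  refine ⟨1 - kap, by linarith [kap_le], by linarith [kap_pos], ?_⟩
  intro b q h0 h1 j n hn
  rcases le_total (1 / 2) q with hq | hq
  · -- open circuits
    refine le_trans ?_ (nce_le h0 h1 kap_le (fun i F => Circ (scl i) (3 * scl i : ℕ) F) ?_ n ?_ j hn)
    · apply Pr_mono (okq h0 h1)
      intro F _ hF i hi
      have := scl_mono hi
      have := scl_ge i
      exact A4_no_circ (by omega) (by omega) hF
    · intro i F
      have := scl_ge i
      exact circ_loc (by omega) (by omega) F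
    · intro i hi
      have := scl_ge i
      exact pr_CircP (okq h0 h1) (fun _ => hq) (by omega) (boxE_mono hi)
  · refine le_trans ?_ (nce_le h0 h1 kap_le (fun i F => Blk (scl i) (3 * scl i : ℕ) F) ?_ n ?_ j hn)
    · apply Pr_mono (okq h0 h1)
      rintro F _ ⟨⟨w, ⟨_, hw2⟩, k1⟩, _⟩ i hi
      have := scl_mono hi
      have := scl_ge i
      refine not_blk_of_arm (by positivity) (by push_cast; omega) (v := w) ?_ (by push_cast; omega)
      refine Reach.mono ?_ k1
      rintro x ⟨⟨h2, _⟩, _⟩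
      exact h2
    · intro i F
      have := scl_ge i
      exact blk_loc (by omega) F
    · intro i hi
      have hg := scl_ge i
      have hsub : annE (scl i) (3 * scl i) ⊆ boxE n := by
        unfold annE
        exact Finset.sdiff_subset.trans (boxE_mono hi)
      have e1 := pr_Blk (m := scl i) (by omega) hsub
      have e2 : Pr (fun _ => q) (boxE n) (fun F => ¬ Blk (scl i) (3 * scl i : ℕ) F) ≤
          Pr (fun _ => (1/2 : ℝ)) (boxE n) (fun F => ¬ Blk (scl i) (3 * scl i : ℕ) F) := by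
        refine Pr_mono_param (okq h0 h1) okhalf (fun _ => hq) ?_
        intro F G hFG _ hF hG
        apply hF
        exact ⟨fun h => hG.1 (h.imp (LRc.mono hFG) (LRc.mono hFG)),
          fun h => hG.2 (h.imp (TBc.mono hFG) (TBc.mono hFG))⟩
      rw [Pr_not, Pr_not] at e2
      unfold kap
      linarith

end Q291.AL
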