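import Pool.Agent.Q291.AL.Exp
import Pool.Agent.Q291.AL.Uniq

/-!
The connection probability in the infinite volume and its expansion at one half.
-/

set_option autoImplicit false

namespace Q291.AL

open H974 H12S Finset Filter Topology

/-- The probability that the two ends of the edge `e0 b` are connected off this edge. -/
noncomputable def hb (b : Bool) (q : ℝ) : ℝ := ⨆ m : ℕ, PQ q (boxE m) (Cx (e0 b))

theorem hm_mono {b : Bool} {q : ℝ} (h0 : 0 ≤ q) (h1 : q ≤ 1) :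
    Monotone (fun m : ℕ => PQ q (boxE m) (Cx (e0 b))) := fun _ _ h =>
  Pr_mono_set (okq h0 h1) (boxE_mono h) (Cx_incr _ _)

theorem hm_bdd {b : Bool} {q : ℝ} (h0 : 0 ≤ q) (h1 : q ≤ 1) :
    BddAbove (Set.range (fun m : ℕ => PQ q (boxE m) (Cx (e0 b)))) := by
  refine ⟨1, ?_⟩
  rintro _ ⟨m, rfl⟩
  exact Pr_le_one (okq h0 h1) _ _

theorem hb_tendsto (b : Bool) {q : ℝ} (h0 : 0 ≤ q) (h1 : q ≤ 1) :
    Tendsto (fun m : ℕ => PQ q (boxE m) (Cx (e0 b))) atTop (𝓝 (hb b q)) :=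
  tendsto_atTop_ciSup (hm_mono h0 h1) (hm_bdd h0 h1)

theorem hm_le_hb (b : Bool) {q : ℝ} (h0 : 0 ≤ q) (h1 : q ≤ 1) (m : ℕ) :
    PQ q (boxE m) (Cx (e0 b)) ≤ hb b q := le_ciSup (hm_bdd h0 h1) m

theorem hb_nonneg (b : Bool) {q : ℝ} (h0 : 0 ≤ q) (h1 : q ≤ 1) : 0 ≤ hb b q :=
  (Pr_nonneg (okq h0 h1) _ _).trans (hm_le_hb b h0 h1 0)

theorem hb_le_one (b : Bool) {q : ℝ} (h0 : 0 ≤ q) (h1 : q ≤ 1) : hb b q ≤ 1 :=
  ciSup_le fun _ => Pr_le_one (okq h0 h1) _ _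

theorem hb_le (b : Bool) {q : ℝ} (h0 : 0 ≤ q) (h1 : q ≤ 1) {n : ℕ} (hn : 1 ≤ n) :
    hb b q ≤ PQ q (boxE n) (Cx (e0 b)) + PQ q (boxE n) (fun F => A4 (-n) n (-n) n (e0 b) ↑F) := by
  refine le_of_tendsto (hb_tendsto b h0 h1) ?_
  filter_upwards [eventually_ge_atTop n] with M hM
  exact (Cx_bnd hM (e0_mem hn) (okq h0 h1)).2

/-- The connection probability in a box is continuous in the parameter. -/
theorem hm_cont (S : Finset Edg) (A : Finset Edg → Prop) : Continuous (fun q : ℝ => PQ q S A) := by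
  unfold PQ Pr Ex
  fun_prop

theorem hb_unif (b : Bool) : TendstoUniformlyOn (fun (m : ℕ) (q : ℝ) => PQ q (boxE m) (Cx (e0 b)))
    (hb b) atTop (Set.Icc 0 1) := by
  rw [Metric.tendstoUniformlyOn_iff]
  intro ε hε
  obtain ⟨ρ, hρ0, hρ1, hρ⟩ := A4_small
  obtain ⟨j, hj⟩ := exists_pow_lt_of_lt_one hε hρ1
  filter_upwards [eventually_ge_atTop (3 * scl j)] with n hn q hq
  have hg := scl_ge j
  have h1 := hb_le b hq.1 hq.2 (n := n) (by omega)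
  have h2 := hm_le_hb b hq.1 hq.2 n
  have h3 := hρ b q hq.1 hq.2 j n hn
  have h4 : ρ ^ (j + 1) ≤ ρ ^ j := pow_le_pow_of_le_one hρ0 hρ1.le (Nat.le_succ j)
  rw [Real.dist_eq, abs_lt]
  constructor <;> linarith

theorem hb_cont (b : Bool) : ContinuousOn (hb b) (Set.Icc 0 1) :=
  (hb_unif b).continuousOn (Frequently.of_forall fun _ => (hm_cont _ _).continuousOn)

/-- Existence of a limit from comparisons at comparable points. -/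
theorem lim_of_comp {g : ℝ → ℝ} {c K : ℝ} (hc : 0 < c) (hK : 0 ≤ K)
    (h : ∀ x y : ℝ, x ≠ 0 → |x| ≤ c → |x| / 2 ≤ |y| → |y| ≤ |x| →
      |g x - g y| ≤ K * |x| ^ (2 / 3 : ℝ)) :
    ∃ a : ℝ, ∀ x : ℝ, x ≠ 0 → |x| ≤ c → |g x - a| ≤ 8 * K * |x| ^ (2 / 3 : ℝ) := by
  obtain ⟨r, hr⟩ : ∃ r : ℝ, r = (2 : ℝ) ^ (-(2 / 3) : ℝ) := ⟨_, rfl⟩
  have hr0 : 0 < r := by rw [hr]; positivity
  have hr3 : r ^ 3 = 1 / 4 := by
    rw [hr, ← Real.rpow_natCast, ← Real.rpow_mul (by norm_num)]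
    norm_num
  have hr1 : r ≤ 2 / 3 := by
    by_contra hcon
    push Not at hcon
    have : (2 / 3 : ℝ) ^ 3 < r ^ 3 := pow_lt_pow_left₀ hcon (by norm_num) (by norm_num)
    rw [hr3] at this
    norm_num at this
  obtain ⟨u, hu⟩ : ∃ u : ℕ → ℝ, u = fun k => g (c / 2 ^ k) := ⟨_, rfl⟩
  have hpow : ∀ k : ℕ, (c / 2 ^ k) ^ (2 / 3 : ℝ) = c ^ (2 / 3 : ℝ) * r ^ k := by
    intro k
    rw [Real.div_rpow hc.le (by positivity), hr, ← Real.rpow_natCast, ← Real.rpow_natCast,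
      ← Real.rpow_mul (by norm_num), ← Real.rpow_mul (by norm_num), div_eq_mul_inv,
      ← Real.rpow_neg (by norm_num)]
    congr 2
    ring
  have habs : ∀ k : ℕ, |c / 2 ^ k| = c / 2 ^ k := fun k => abs_of_pos (by positivity)
  have hle : ∀ k : ℕ, c / 2 ^ k ≤ c := by
    intro k
    apply div_le_self hc.le
    exact one_le_pow₀ (by norm_num)
  have hstep : ∀ k : ℕ, dist (u k) (u (k + 1)) ≤ (K * c ^ (2 / 3 : ℝ)) * r ^ k := by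
    intro k
    rw [hu, Real.dist_eq]
    have h1 := h (c / 2 ^ k) (c / 2 ^ (k + 1)) (by positivity) (by rw [habs]; exact hle k)
      (by
        rw [habs, habs, pow_succ]
        apply le_of_eq
        field_simp) (by
        rw [habs, habs, pow_succ]
        apply div_le_div_of_nonneg_left hc.le (by positivity)
        have : (0:ℝ) < 2 ^ k := by positivity
        linarith)
    rw [habs, hpow] at h1
    calc _ ≤ K * (c ^ (2 / 3 : ℝ) * r ^ k) := h1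
      _ = _ := by ring
  have hcs := cauchySeq_of_le_geometric r (K * c ^ (2 / 3 : ℝ)) (by linarith) hstep
  obtain ⟨a, ha⟩ := cauchySeq_tendsto_of_complete hcs
  refine ⟨a, ?_⟩
  intro x hx hxc
  have hx0 : 0 < |x| := abs_pos.2 hx
  obtain ⟨k, hk1, hk2⟩ := exists_nat_pow_near (x := c / |x|) (y := 2)
    (by rw [le_div_iff₀ hx0, one_mul]; exact hxc) (by norm_num)
  have hk3 : |x| ≤ c / 2 ^ k := by
    rw [le_div_iff₀ (by positivity)]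
    rw [le_div_iff₀ hx0] at hk1
    linarith
  have hk4 : (c / 2 ^ k) / 2 ≤ |x| := by
    rw [div_lt_iff₀ hx0, pow_succ] at hk2
    rw [div_div, div_le_iff₀ (by positivity)]
    nlinarith
  have h1 := h (c / 2 ^ k) x (by positivity) (by rw [habs]; exact hle k) (by rw [habs]; exact hk4)
    (by rw [habs]; exact hk3)
  rw [habs] at h1
  have h2 := dist_le_of_le_geometric_of_tendsto r (K * c ^ (2 / 3 : ℝ)) (by linarith) hstep ha k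
  rw [hu, Real.dist_eq] at h2
  simp only at h2
  have h3 : (c / 2 ^ k) ^ (2 / 3 : ℝ) ≤ 2 * |x| ^ (2 / 3 : ℝ) := by
    calc (c / 2 ^ k) ^ (2 / 3 : ℝ) ≤ (2 * |x|) ^ (2 / 3 : ℝ) :=
          Real.rpow_le_rpow (by positivity) (by linarith) (by norm_num)
      _ = (2 : ℝ) ^ (2 / 3 : ℝ) * |x| ^ (2 / 3 : ℝ) := Real.mul_rpow (by norm_num) hx0.le
      _ ≤ 2 * |x| ^ (2 / 3 : ℝ) := by
          apply mul_le_mul_of_nonneg_right _ (by positivity)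
          calc (2 : ℝ) ^ (2 / 3 : ℝ) ≤ (2 : ℝ) ^ (1 : ℝ) :=
                Real.rpow_le_rpow_of_exponent_le (by norm_num) (by norm_num)
            _ = 2 := Real.rpow_one _
  have h4 : K * c ^ (2 / 3 : ℝ) * r ^ k / (1 - r) ≤ 3 * K * (c / 2 ^ k) ^ (2 / 3 : ℝ) := by
    rw [hpow, div_le_iff₀ (by linarith)]
    have h5 : 0 ≤ K * c ^ (2 / 3 : ℝ) * r ^ k := by positivity
    nlinarith
  have h6 : 0 ≤ K * (c / 2 ^ k) ^ (2 / 3 : ℝ) := by positivity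
  have h7 : K * (c / 2 ^ k) ^ (2 / 3 : ℝ) ≤ 2 * K * |x| ^ (2 / 3 : ℝ) := by
    calc K * (c / 2 ^ k) ^ (2 / 3 : ℝ) ≤ K * (2 * |x| ^ (2 / 3 : ℝ)) :=
          mul_le_mul_of_nonneg_left h3 hK
      _ = _ := by ring
  rw [abs_le] at h1 h2 ⊢
  constructor
  · linarith [h1.1, h1.2, h2.1, h2.2]
  · linarith [h1.1, h1.2, h2.1, h2.2]

/-- Comparison of the divided differences. -/
theorem hb_comp : ∃ c K : ℝ, 0 < c ∧ 0 ≤ K ∧ c ≤ 1 / 4 ∧ ∀ b : Bool, ∀ x y : ℝ, x ≠ 0 → |x| ≤ c →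
    |x| / 2 ≤ |y| → |y| ≤ |x| →
      |(hb b (1 / 2 + x) - hb b (1 / 2)) / x - (hb b (1 / 2 + y) - hb b (1 / 2)) / y| ≤
        K * |x| ^ (2 / 3 : ℝ) := by
  obtain ⟨c0, C, hc0, hC, hexp⟩ := exph
  refine ⟨min c0 (1 / 4), 3 * (C * (3 * c0 ^ (-(5 / 3) : ℝ) + c0 ^ (1 / 3 : ℝ))), by positivity,
    by positivity, min_le_right _ _, ?_⟩
  intro b x y hx hxc hxy hyx
  have hx0 : 0 < |x| := abs_pos.2 hx
  have hy0 : 0 < |y| := by linarith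
  have hy : y ≠ 0 := abs_pos.1 hy0
  have hxc0 : |x| ≤ c0 := hxc.trans (min_le_left _ _)
  have hx4 : |x| ≤ 1 / 4 := hxc.trans (min_le_right _ _)
  obtain ⟨t, ht⟩ : ∃ t : ℝ, t = c0 / |x| := ⟨_, rfl⟩
  have ht1 : 1 ≤ t := by rw [ht, le_div_iff₀ hx0, one_mul]; exact hxc0
  have ht0 : 0 < t := by linarith
  obtain ⟨N, hN⟩ : ∃ N : ℕ, N = ⌊t ^ (4 / 3 : ℝ)⌋₊ := ⟨_, rfl⟩
  have ht43 : 1 ≤ t ^ (4 / 3 : ℝ) := Real.one_le_rpow ht1 (by norm_num)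
  have hN1 : 1 ≤ N := by
    rw [hN]
    exact Nat.le_floor (by simpa using ht43)
  have hN2 : (N : ℝ) ≤ t ^ (4 / 3 : ℝ) := by
    rw [hN]
    exact Nat.floor_le (by positivity)
  have hN3 : t ^ (4 / 3 : ℝ) / 2 ≤ N := by
    have h1 : t ^ (4 / 3 : ℝ) < N + 1 := by
      rw [hN]
      exact Nat.lt_floor_add_one _
    have h2 : (1 : ℝ) ≤ N := by exact_mod_cast hN1
    linarith
  have hN0 : (0 : ℝ) < N := by exact_mod_cast hN1
  -- the window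
  have hwin : |x| ≤ c0 * (N : ℝ) ^ (-(3 / 4) : ℝ) := by
    have h1 : (t ^ (4 / 3 : ℝ)) ^ (-(3 / 4) : ℝ) ≤ (N : ℝ) ^ (-(3 / 4) : ℝ) :=
      Real.rpow_le_rpow_of_nonpos hN0 hN2 (by norm_num)
    rw [← Real.rpow_mul ht0.le] at h1
    norm_num at h1
    have h2 : t ^ (-1 : ℝ) = |x| / c0 := by
      rw [Real.rpow_neg_one, ht, inv_div]
    rw [h2] at h1
    calc |x| = c0 * (|x| / c0) := by field_simp
      _ ≤ _ := mul_le_mul_of_nonneg_left h1 hc0.le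
  have hwiny : |y| ≤ c0 * (N : ℝ) ^ (-(3 / 4) : ℝ) := hyx.trans hwin
  -- the error
  have hE1 : (N : ℝ) ^ (-(5 / 4) : ℝ) ≤ 3 * c0 ^ (-(5 / 3) : ℝ) * |x| ^ (5 / 3 : ℝ) := by
    have h1 : (N : ℝ) ^ (-(5 / 4) : ℝ) ≤ (t ^ (4 / 3 : ℝ) / 2) ^ (-(5 / 4) : ℝ) :=
      Real.rpow_le_rpow_of_nonpos (by positivity) hN3 (by norm_num)
    have h2 : (t ^ (4 / 3 : ℝ) / 2) ^ (-(5 / 4) : ℝ) =
        t ^ (-(5 / 3) : ℝ) * (2 : ℝ) ^ (5 / 4 : ℝ) := by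
      rw [Real.div_rpow (by positivity) (by norm_num), ← Real.rpow_mul ht0.le,
        Real.rpow_neg (by norm_num : (0:ℝ) ≤ 2), div_inv_eq_mul]
      norm_num
    have h3 : (2 : ℝ) ^ (5 / 4 : ℝ) ≤ 3 := by
      have e1 : (2 : ℝ) ^ (5 / 4 : ℝ) = 2 * sig := by
        unfold sig
        rw [show (5 / 4 : ℝ) = 1 + 1 / 4 by norm_num, Real.rpow_add (by norm_num), Real.rpow_one]
      rw [e1]
      linarith [sig_le]
    have h4 : t ^ (-(5 / 3) : ℝ) = c0 ^ (-(5 / 3) : ℝ) * |x| ^ (5 / 3 : ℝ) := by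
      rw [ht, Real.div_rpow hc0.le hx0.le, Real.rpow_neg hx0.le, div_inv_eq_mul]
    rw [h2, h4] at h1
    calc _ ≤ c0 ^ (-(5 / 3) : ℝ) * |x| ^ (5 / 3 : ℝ) * (2 : ℝ) ^ (5 / 4 : ℝ) := h1
      _ ≤ c0 ^ (-(5 / 3) : ℝ) * |x| ^ (5 / 3 : ℝ) * 3 :=
          mul_le_mul_of_nonneg_left h3 (by positivity)
      _ = _ := by ring
  have hE2 : |x| ^ 2 * (N : ℝ) ^ (1 / 4 : ℝ) ≤ c0 ^ (1 / 3 : ℝ) * |x| ^ (5 / 3 : ℝ) := by
    have h1 : (N : ℝ) ^ (1 / 4 : ℝ) ≤ (t ^ (4 / 3 : ℝ)) ^ (1 / 4 : ℝ) :=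
      Real.rpow_le_rpow hN0.le hN2 (by norm_num)
    rw [← Real.rpow_mul ht0.le] at h1
    norm_num at h1
    have h2 : t ^ (1 / 3 : ℝ) = c0 ^ (1 / 3 : ℝ) * |x| ^ (-(1 / 3) : ℝ) := by
      rw [ht, Real.div_rpow hc0.le hx0.le, Real.rpow_neg hx0.le]
      rfl
    have h3 : |x| ^ 2 * |x| ^ (-(1 / 3) : ℝ) = |x| ^ (5 / 3 : ℝ) := by
      rw [← Real.rpow_two, ← Real.rpow_add hx0]
      norm_num
    have h1' : (N : ℝ) ^ (1 / 4 : ℝ) ≤ c0 ^ (1 / 3 : ℝ) * |x| ^ (-(1 / 3) : ℝ) := by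
      rw [← h2]
      norm_num
      exact h1
    calc |x| ^ 2 * (N : ℝ) ^ (1 / 4 : ℝ) ≤ |x| ^ 2 * (c0 ^ (1 / 3 : ℝ) * |x| ^ (-(1 / 3) : ℝ)) :=
          mul_le_mul_of_nonneg_left h1' (by positivity)
      _ = c0 ^ (1 / 3 : ℝ) * (|x| ^ 2 * |x| ^ (-(1 / 3) : ℝ)) := by ring
      _ = _ := by rw [h3]
  obtain ⟨B, hB⟩ : ∃ B : ℝ, B = C * (3 * c0 ^ (-(5 / 3) : ℝ) + c0 ^ (1 / 3 : ℝ)) *
    |x| ^ (5 / 3 : ℝ) := ⟨_, rfl⟩
  have hBx : C * ((N : ℝ) ^ (-(5 / 4) : ℝ) + x ^ 2 * (N : ℝ) ^ (1 / 4 : ℝ)) ≤ B := by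
    rw [hB, mul_assoc]
    apply mul_le_mul_of_nonneg_left _ hC.le
    rw [← sq_abs x]
    linarith
  have hBy : C * ((N : ℝ) ^ (-(5 / 4) : ℝ) + y ^ 2 * (N : ℝ) ^ (1 / 4 : ℝ)) ≤ B := by
    refine le_trans ?_ hBx
    apply mul_le_mul_of_nonneg_left _ hC.le
    have h1 : y ^ 2 ≤ x ^ 2 := by
      rw [← sq_abs x, ← sq_abs y]
      exact pow_le_pow_left₀ hy0.le hyx 2
    have h2 : y ^ 2 * (N : ℝ) ^ (1 / 4 : ℝ) ≤ x ^ 2 * (N : ℝ) ^ (1 / 4 : ℝ) :=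
      mul_le_mul_of_nonneg_right h1 (by positivity)
    linarith
  have hBx' : B / |x| + B / |y| ≤
      3 * (C * (3 * c0 ^ (-(5 / 3) : ℝ) + c0 ^ (1 / 3 : ℝ))) * |x| ^ (2 / 3 : ℝ) := by
    have hB0 : 0 ≤ B := by rw [hB]; positivity
    have h1 : B / |y| ≤ 2 * (B / |x|) := by
      rw [div_le_iff₀ hy0]
      have : B / |x| * |x| = B := by field_simp
      have h0 : 0 ≤ B / |x| := by positivity
      nlinarith
    have h2 : B / |x| = C * (3 * c0 ^ (-(5 / 3) : ℝ) + c0 ^ (1 / 3 : ℝ)) * |x| ^ (2 / 3 : ℝ) := by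
      rw [hB, mul_div_assoc]
      congr 1
      rw [← Real.rpow_sub_one hx0.ne']
      norm_num
    rw [h2] at h1
    rw [h2]
    linarith
  refine le_trans ?_ hBx'
  -- the limit
  have hq : ∀ z : ℝ, |z| ≤ 1 / 4 → 0 ≤ 1 / 2 + z ∧ 1 / 2 + z ≤ 1 := by
    intro z hz
    rw [abs_le] at hz
    constructor <;> linarith
  obtain ⟨qx0, qx1⟩ := hq x hx4
  obtain ⟨qy0, qy1⟩ := hq y (hyx.trans hx4)
  have l0 := hb_tendsto b (q := 1 / 2) (by norm_num) (by norm_num)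
  have l1 := hb_tendsto b qx0 qx1
  have l2 := hb_tendsto b qy0 qy1
  have hlim := (((l1.sub l0).div_const x).sub ((l2.sub l0).div_const y)).abs
  refine le_of_tendsto hlim ?_
  filter_upwards [eventually_ge_atTop (2 * N)] with M hM
  obtain ⟨A, hA⟩ := hexp b N M hN1 hM
  have a1 := (hA x hwin).trans hBx
  have a2 := (hA y hwiny).trans hBy
  have key : ∀ z D : ℝ, z ≠ 0 → |D - z * A| ≤ B → |D / z - A| ≤ B / |z| := by
    intro z D hz hD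
    rw [le_div_iff₀ (abs_pos.2 hz), ← abs_mul, sub_mul, div_mul_cancel₀ _ hz, mul_comm A z]
    exact hD
  have b1 := key x _ hx a1
  have b2 := key y _ hy a2
  rw [abs_le] at b1 b2 ⊢
  constructor <;> linarith [b1.1, b1.2, b2.1, b2.2]

/-- The expansion of the connection probability at one half. -/
theorem hb_exp : ∃ c C : ℝ, 0 < c ∧ 0 < C ∧ c ≤ 1 / 4 ∧ ∀ b : Bool, ∃ a : ℝ, ∀ x : ℝ, |x| ≤ c →
    |hb b (1 / 2 + x) - hb b (1 / 2) - a * x| ≤ C * |x| ^ (5 / 3 : ℝ) := by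
  obtain ⟨c, K, hc, hK, hc4, hcomp⟩ := hb_comp
  refine ⟨c, 8 * K + 1, hc, by positivity, hc4, ?_⟩
  intro b
  obtain ⟨a, ha⟩ := lim_of_comp (g := fun x => (hb b (1 / 2 + x) - hb b (1 / 2)) / x) hc hK
    (hcomp b)
  refine ⟨a, ?_⟩
  intro x hxc
  rcases eq_or_ne x 0 with rfl | hx
  · simp
  · have hx0 : 0 < |x| := abs_pos.2 hx
    have h1 := ha x hx hxc
    have h2 : hb b (1 / 2 + x) - hb b (1 / 2) - a * x =
        ((hb b (1 / 2 + x) - hb b (1 / 2)) / x - a) * x := by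
      rw [sub_mul, div_mul_cancel₀ _ hx]
    rw [h2, abs_mul]
    have h3 : |x| ^ (5 / 3 : ℝ) = |x| ^ (2 / 3 : ℝ) * |x| := by
      rw [show (5 / 3 : ℝ) = 2 / 3 + 1 by norm_num, Real.rpow_add hx0, Real.rpow_one]
    rw [h3]
    have h4 : 0 ≤ |x| ^ (2 / 3 : ℝ) := by positivity
    calc _ ≤ 8 * K * |x| ^ (2 / 3 : ℝ) * |x| := mul_le_mul_of_nonneg_right h1 hx0.le
      _ ≤ (8 * K + 1) * (|x| ^ (2 / 3 : ℝ) * |x|) := by
          rw [mul_assoc]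
          apply mul_le_mul_of_nonneg_right (by linarith) (by positivity)

end Q291.AL
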