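import Pool.Agent.Q291.AL.Kc
import Pool.Agent.Q291.AL.Lim

/-!
The mean cluster density.
-/

set_option autoImplicit false

namespace Q291.AL

open H974 H12S Finset Filter Topology MeasureTheory

/-- Translation invariance. -/
theorem Cx_trl (x y : ℤ) (b : Bool) (q : ℝ) (n : ℕ) :
    PQ q (EB n) (Cx (x, y, b)) = PQ q (RE (-x) (n - 1 - x) (-y) (n - 1 - y)) (Cx (e0 b)) := by
  have h1 : RE (-x) (n - 1 - x) (-y) (n - 1 - y) = (trl (-x) (-y)).mp (EB n) := by
    unfold EB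
    rw [trl_RE]
    congr 1 <;> ring
  rw [h1]
  unfold PQ
  rw [LSym.pr]
  apply Pr_congr
  intro F _
  unfold Cx
  have h2 : ((trl (-x) (-y)).mp F).erase (e0 b) = (trl (-x) (-y)).mp (F.erase (x, y, b)) := by
    ext ⟨g1, g2, g3⟩
    rw [Finset.mem_erase, LSym.mem_mp, LSym.mem_mp, trl_φs, Finset.mem_erase]
    unfold e0
    constructor
    · rintro ⟨h3, h4⟩
      refine ⟨fun h => h3 ?_, h4⟩
      simp only [Prod.mk.injEq] at h ⊢
      obtain ⟨e1, e2, e3⟩ := h
      exact ⟨by omega, by omega, e3⟩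
    · rintro ⟨h3, h4⟩
      refine ⟨fun h => h3 ?_, h4⟩
      simp only [Prod.mk.injEq] at h ⊢
      obtain ⟨e1, e2, e3⟩ := h
      exact ⟨by omega, by omega, e3⟩
  rw [h2, LSym.coe_mp]
  have h3 : src (e0 b) = (trl (-x) (-y)).ψ (src (x, y, b)) := by
    unfold e0
    rw [src_mk, src_mk, trl_ψ]
    simp
  have h4 : tgt (e0 b) = (trl (-x) (-y)).ψ (tgt (x, y, b)) := by
    unfold e0
    cases b
    · rw [tgt_false, tgt_false, trl_ψ]
      simp only [Prod.mk.injEq]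
      omega
    · rw [tgt_true, tgt_true, trl_ψ]
      simp only [Prod.mk.injEq]
      omega
  rw [h3, h4, LSym.reach_iff]

theorem up_edge {x y : ℤ} {b : Bool} {n : ℕ} (h : ((x, y, b) : Edg) ∈ EB n) {q : ℝ} (h0 : 0 ≤ q)
    (h1 : q ≤ 1) : PQ q (EB n) (Cx (x, y, b)) ≤ hb b q := by
  rw [Cx_trl]
  refine le_trans ?_ (hm_le_hb b h0 h1 n)
  refine Pr_mono_set (okq h0 h1) ?_ (Cx_incr _ _)
  unfold boxE
  unfold EB at h
  cases b
  · rw [mem_RE_false] at h
    exact RE_subset (by omega) (by omega) (by omega) (by omega)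
  · rw [mem_RE_true] at h
    exact RE_subset (by omega) (by omega) (by omega) (by omega)

theorem lo_edge {x y : ℤ} {b : Bool} {n m : ℕ} (hx : m ≤ x) (hx' : x ≤ n - 1 - m) (hy : m ≤ y)
    (hy' : y ≤ n - 1 - m) {q : ℝ} (h0 : 0 ≤ q) (h1 : q ≤ 1) :
    PQ q (boxE m) (Cx (e0 b)) ≤ PQ q (EB n) (Cx (x, y, b)) := by
  rw [Cx_trl]
  refine Pr_mono_set (okq h0 h1) ?_ (Cx_incr _ _)
  unfold boxE
  exact RE_subset (by omega) (by omega) (by omega) (by omega)

/-- The edges of one direction. -/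
noncomputable def Sb (b : Bool) (n : ℕ) : Finset Edg := (EB n).filter (fun e => e.2.2 = b)

/-- The edges of one direction far from the boundary. -/
noncomputable def Si (b : Bool) (n m : ℕ) : Finset Edg :=
  ((Finset.Icc (m:ℤ) (n - 1 - m)) ×ˢ (Finset.Icc (m:ℤ) (n - 1 - m))).image
    (fun v => ((v.1, v.2, b) : Edg))

theorem inj_b (b : Bool) : Function.Injective (fun v : ℤ × ℤ => ((v.1, v.2, b) : Edg)) := by
  intro v w h
  simp only [Prod.mk.injEq, and_true] at h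
  exact Prod.ext h.1 h.2

theorem card_Si (b : Bool) {n m : ℕ} (h : 2 * m ≤ n) : ((Si b n m).card : ℝ) = ((n:ℝ) - 2 * m) ^ 2 := by
  unfold Si
  rw [Finset.card_image_of_injective _ (inj_b b), Finset.card_product, Int.card_Icc]
  have : ((n:ℤ) - 1 - m + 1 - m).toNat = n - 2 * m := by omega
  rw [this]
  push_cast [Nat.cast_sub h]
  ring

theorem Si_sub (b : Bool) {n m : ℕ} (hm : 1 ≤ m) : Si b n m ⊆ Sb b n := by
  intro e he
  unfold Si at he
  rw [Finset.mem_image] at he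
  obtain ⟨⟨x, y⟩, hv, rfl⟩ := he
  rw [Finset.mem_product, Finset.mem_Icc, Finset.mem_Icc] at hv
  simp only at hv ⊢
  unfold Sb EB
  rw [Finset.mem_filter]
  refine ⟨?_, rfl⟩
  cases b
  · rw [mem_RE_false]; omega
  · rw [mem_RE_true]; omega

theorem card_Sb (b : Bool) (n : ℕ) : ((Sb b n).card : ℝ) ≤ (n : ℝ) ^ 2 := by
  have h1 : Sb b n ⊆ ((Finset.Icc (0:ℤ) (n - 1)) ×ˢ (Finset.Icc (0:ℤ) (n - 1))).image
      (fun v => ((v.1, v.2, b) : Edg)) := by
    rintro ⟨x, y, b'⟩ he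
    unfold Sb EB at he
    rw [Finset.mem_filter] at he
    obtain ⟨h2, h3⟩ := he
    simp only at h3
    subst h3
    rw [Finset.mem_image]
    refine ⟨(x, y), ?_, rfl⟩
    rw [Finset.mem_product, Finset.mem_Icc, Finset.mem_Icc]
    cases b'
    · rw [mem_RE_false] at h2; simp only; omega
    · rw [mem_RE_true] at h2; simp only; omega
  have h2 := Finset.card_le_card h1
  rw [Finset.card_image_of_injective _ (inj_b b), Finset.card_product, Int.card_Icc] at h2
  have : ((n:ℤ) - 1 + 1 - 0).toNat = n := by omega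
  rw [this] at h2
  have h3 : ((Sb b n).card : ℝ) ≤ ((n * n : ℕ) : ℝ) := by exact_mod_cast h2
  refine h3.trans (le_of_eq ?_)
  push_cast
  ring

/-- The sum over one direction. -/
noncomputable def Gb (b : Bool) (n : ℕ) (q : ℝ) : ℝ :=
  (∑ e ∈ Sb b n, (PQ q (EB n) (Cx e) - 1)) / (n : ℝ) ^ 2

theorem Gb_up (b : Bool) {n : ℕ} (hn : 2 ≤ n) {q : ℝ} (h0 : 0 ≤ q) (h1 : q ≤ 1) :
    Gb b n q ≤ ((n:ℝ) - 2 * (1 : ℕ)) ^ 2 / (n : ℝ) ^ 2 * (hb b q - 1) := by
  have hn0 : (0 : ℝ) < n := by exact_mod_cast (by omega : 0 < n)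
  have hle := hb_le_one b h0 h1
  have e1 : ∑ e ∈ Sb b n, (PQ q (EB n) (Cx e) - 1) ≤ ∑ e ∈ Sb b n, (hb b q - 1) := by
    apply Finset.sum_le_sum
    rintro ⟨x, y, b'⟩ he
    unfold Sb at he
    rw [Finset.mem_filter] at he
    obtain ⟨h2, h3⟩ := he
    simp only at h3
    subst h3
    linarith [up_edge h2 h0 h1]
  rw [Finset.sum_const, nsmul_eq_mul] at e1
  have e2 : ((n:ℝ) - 2 * (1 : ℕ)) ^ 2 ≤ (Sb b n).card := by
    rw [← card_Si b (m := 1) (by omega)]
    exact_mod_cast Finset.card_le_card (Si_sub b le_rfl)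
  unfold Gb
  rw [div_mul_eq_mul_div]
  apply div_le_div_of_nonneg_right _ (by positivity)
  refine e1.trans ?_
  exact mul_le_mul_of_nonpos_right e2 (by linarith)

theorem Gb_lo (b : Bool) {n m : ℕ} (hm : 1 ≤ m) (hn : 2 * m ≤ n) {q : ℝ} (h0 : 0 ≤ q)
    (h1 : q ≤ 1) :
    ((n:ℝ) - 2 * m) ^ 2 / (n : ℝ) ^ 2 * PQ q (boxE m) (Cx (e0 b)) - 1 ≤ Gb b n q := by
  have hn0 : (0 : ℝ) < n := by exact_mod_cast (by omega : 0 < n)
  have e1 : ∑ e ∈ Sb b n, (PQ q (EB n) (Cx e) - 1) =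
      ∑ e ∈ Sb b n, PQ q (EB n) (Cx e) - (Sb b n).card := by
    rw [Finset.sum_sub_distrib, Finset.sum_const, nsmul_eq_mul, mul_one]
  have e2 : ∑ e ∈ Si b n m, PQ q (boxE m) (Cx (e0 b)) ≤ ∑ e ∈ Sb b n, PQ q (EB n) (Cx e) := by
    refine le_trans (Finset.sum_le_sum (g := fun e => PQ q (EB n) (Cx e)) ?_)
      (Finset.sum_le_sum_of_subset_of_nonneg (Si_sub b hm)
        (fun e _ _ => Pr_nonneg (okq h0 h1) _ _))
    intro e he
    unfold Si at he
    rw [Finset.mem_image] at he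
    obtain ⟨⟨x, y⟩, hv, rfl⟩ := he
    rw [Finset.mem_product, Finset.mem_Icc, Finset.mem_Icc] at hv
    exact lo_edge hv.1.1 hv.1.2 hv.2.1 hv.2.2 h0 h1
  rw [Finset.sum_const, nsmul_eq_mul, card_Si b hn] at e2
  have e3 := card_Sb b n
  unfold Gb
  rw [e1, div_mul_eq_mul_div, div_sub_one (by positivity)]
  apply div_le_div_of_nonneg_right _ (by positivity)
  linarith

theorem ratio_tendsto (m : ℕ) : Tendsto (fun n : ℕ => ((n:ℝ) - 2 * m) ^ 2 / (n : ℝ) ^ 2) atTop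
    (𝓝 1) := by
  have h1 : Tendsto (fun n : ℕ => (2 * (m:ℝ)) / (n : ℝ)) atTop (𝓝 0) :=
    tendsto_const_div_atTop_nhds_zero_nat _
  have h2 : Tendsto (fun n : ℕ => (1 - (2 * (m:ℝ)) / (n : ℝ)) ^ 2) atTop (𝓝 1) := by
    have := (tendsto_const_nhds (x := (1:ℝ))).sub h1
    have h3 := this.pow 2
    simpa using h3
  refine h2.congr' ?_
  filter_upwards [eventually_gt_atTop 0] with n hn
  have hn0 : (n : ℝ) ≠ 0 := by exact_mod_cast hn.ne'
  field_simp

theorem Gb_tendsto (b : Bool) {q : ℝ} (h0 : 0 ≤ q) (h1 : q ≤ 1) :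
    Tendsto (fun n : ℕ => Gb b n q) atTop (𝓝 (hb b q - 1)) := by
  rw [tendsto_order]
  constructor
  · intro a ha
    have hm := (hb_tendsto b h0 h1)
    rw [tendsto_order] at hm
    obtain ⟨m, hm1, hm2⟩ := ((hm.1 (a + 1) (by linarith)).and (eventually_ge_atTop 1)).exists
    have h2 : Tendsto (fun n : ℕ => ((n:ℝ) - 2 * m) ^ 2 / (n : ℝ) ^ 2 *
        PQ q (boxE m) (Cx (e0 b)) - 1) atTop (𝓝 (1 * PQ q (boxE m) (Cx (e0 b)) - 1)) :=
      ((ratio_tendsto m).mul_const _).sub_const _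
    rw [tendsto_order] at h2
    filter_upwards [h2.1 a (by linarith), eventually_ge_atTop (2 * m)] with n hn1 hn2
    exact lt_of_lt_of_le hn1 (Gb_lo b hm2 hn2 h0 h1)
  · intro a ha
    have h2 : Tendsto (fun n : ℕ => ((n:ℝ) - 2 * (1 : ℕ)) ^ 2 / (n : ℝ) ^ 2 * (hb b q - 1)) atTop
        (𝓝 (1 * (hb b q - 1))) := (ratio_tendsto 1).mul_const _
    rw [tendsto_order] at h2
    filter_upwards [h2.2 a (by linarith), eventually_ge_atTop 2] with n hn1 hn2
    exact lt_of_le_of_lt (Gb_up b hn2 h0 h1) hn1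

theorem Gb_abs (b : Bool) {n : ℕ} (hn : 2 ≤ n) {q : ℝ} (h0 : 0 ≤ q) (h1 : q ≤ 1) :
    |Gb b n q| ≤ 1 := by
  have hn0 : (0 : ℝ) < n := by exact_mod_cast (by omega : 0 < n)
  rw [abs_le]
  constructor
  · have h2 := Gb_lo b (m := 1) le_rfl (by omega : 2 * 1 ≤ n) h0 h1
    have h3 : 0 ≤ ((n:ℝ) - 2 * (1 : ℕ)) ^ 2 / (n : ℝ) ^ 2 * PQ q (boxE 1) (Cx (e0 b)) :=
      mul_nonneg (by positivity) (Pr_nonneg (okq h0 h1) _ _)
    linarith
  · have h2 := Gb_up b hn h0 h1
    have h3 : ((n:ℝ) - 2 * (1 : ℕ)) ^ 2 / (n : ℝ) ^ 2 * (hb b q - 1) ≤ 0 :=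
      mul_nonpos_of_nonneg_of_nonpos (by positivity) (by linarith [hb_le_one b h0 h1])
    linarith

theorem EK_eq {n : ℕ} (hn : 1 ≤ n) (p : ℝ) :
    EK n p / (n : ℝ) ^ 2 = 1 + ∫ s in (0:ℝ)..p, (Gb true n s + Gb false n s) := by
  have hn0 : (0 : ℝ) < n := by exact_mod_cast (by omega : 0 < n)
  have hsplit : ∀ s : ℝ, ∑ e ∈ EB n, (PQ s (EB n) (Cx e) - 1) =
      (n : ℝ) ^ 2 * (Gb true n s + Gb false n s) := by
    intro s
    unfold Gb Sb
    rw [mul_add, mul_div_cancel₀ _ (by positivity), mul_div_cancel₀ _ (by positivity)]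
    rw [← Finset.sum_filter_add_sum_filter_not (EB n) (fun e => e.2.2 = true)]
    congr 1
    apply Finset.sum_congr _ (fun _ _ => rfl)
    apply Finset.filter_congr
    intro e _
    simp
  have hcont : Continuous (fun s : ℝ => ∑ e ∈ EB n, (PQ s (EB n) (Cx e) - 1)) :=
    continuous_finsetSum _ fun e _ => (hm_cont (EB n) (Cx e)).sub continuous_const
  have hint := intervalIntegral.integral_eq_sub_of_hasDerivAt (a := 0) (b := p)
    (f := EK n) (f' := fun s => ∑ e ∈ EB n, (PQ s (EB n) (Cx e) - 1))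
    (fun s _ => EK_deriv n s) (hcont.intervalIntegrable _ _)
  rw [EK_zero] at hint
  have h2 : (∫ s in (0:ℝ)..p, ∑ e ∈ EB n, (PQ s (EB n) (Cx e) - 1)) =
      (n : ℝ) ^ 2 * ∫ s in (0:ℝ)..p, (Gb true n s + Gb false n s) := by
    rw [← intervalIntegral.integral_const_mul]
    congr 1
    funext s
    exact hsplit s
  rw [h2] at hint
  have h3 : EK n p = (n : ℝ) ^ 2 * (1 + ∫ s in (0:ℝ)..p, (Gb true n s + Gb false n s)) := by
    linarith
  rw [h3]
  field_simp

theorem Gb_cont (b : Bool) (n : ℕ) : Continuous (Gb b n) := by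
  unfold Gb
  exact (continuous_finsetSum _ fun e _ =>
    (hm_cont (EB n) (Cx e)).sub continuous_const).div_const _

/-- The mean cluster density. -/
noncomputable def kapp (p : ℝ) : ℝ := 1 + ∫ s in (0:ℝ)..p, (hb true s - 1 + (hb false s - 1))

theorem EK_tendsto {p : ℝ} (h0 : 0 ≤ p) (h1 : p ≤ 1) :
    Tendsto (fun n : ℕ => EK n p / (n : ℝ) ^ 2) atTop (𝓝 (kapp p)) := by
  have h2 : Tendsto (fun n : ℕ => 1 + ∫ s in (0:ℝ)..p, (Gb true n s + Gb false n s)) atTop
      (𝓝 (kapp p)) := by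
    unfold kapp
    apply Tendsto.const_add
    apply intervalIntegral.tendsto_integral_filter_of_dominated_convergence (fun _ => 2)
    · filter_upwards with n
      exact ((Gb_cont true n).add (Gb_cont false n)).aestronglyMeasurable
    · filter_upwards [eventually_ge_atTop 2] with n hn
      filter_upwards with s hs
      rw [Set.uIoc_of_le h0] at hs
      have e1 := Gb_abs true hn hs.1.le (hs.2.trans h1)
      have e2 := Gb_abs false hn hs.1.le (hs.2.trans h1)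
      rw [Real.norm_eq_abs]
      refine (abs_add_le _ _).trans ?_
      linarith
    · exact intervalIntegrable_const
    · filter_upwards with s hs
      rw [Set.uIoc_of_le h0] at hs
      exact (Gb_tendsto true hs.1.le (hs.2.trans h1)).add
        (Gb_tendsto false hs.1.le (hs.2.trans h1))
  refine h2.congr' ?_
  filter_upwards [eventually_ge_atTop 1] with n hn
  exact (EK_eq hn p).symm

/-- The derivative of the mean cluster density. -/
theorem kapp_deriv {p : ℝ} (h0 : 0 < p) (h1 : p < 1) :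
    HasDerivAt kapp (hb true p - 1 + (hb false p - 1)) p := by
  have hc : ContinuousOn (fun s => hb true s - 1 + (hb false s - 1)) (Set.Icc 0 1) :=
    ((hb_cont true).sub continuousOn_const).add ((hb_cont false).sub continuousOn_const)
  unfold kapp
  apply HasDerivAt.const_add
  apply intervalIntegral.integral_hasDerivAt_right
  · apply ContinuousOn.intervalIntegrable
    rw [Set.uIcc_of_le h0.le]
    exact hc.mono (Set.Icc_subset_Icc le_rfl h1.le)
  · exact (hc.mono Set.Ioo_subset_Icc_self).stronglyMeasurableAtFilter isOpen_Ioo p ⟨h0, h1⟩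
  · exact hc.continuousAt (Icc_mem_nhds h0 h1)

end Q291.AL
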