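import Pool.Agent.Q291.AL.Trunc

/-!
The number of clusters in a box of vertices and the derivative of its mean.
-/

set_option autoImplicit false

namespace Q291.AL

open H974 H12S Finset

/-- The vertices of the box `{0, …, n-1}²`. -/
noncomputable def bx (n : ℕ) : Finset Vtx := (Finset.Icc (0:ℤ) (n - 1)) ×ˢ (Finset.Icc (0:ℤ) (n - 1))

/-- The edges of the box `{0, …, n-1}²`. -/
noncomputable def EB (n : ℕ) : Finset Edg := RE 0 (n - 1) 0 (n - 1)

open Classical in
/-- The cluster of `v` in `V`. -/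
noncomputable def cls (V : Finset Vtx) (F : Finset Edg) (v : Vtx) : Finset Vtx :=
  V.filter (fun u => Reach (↑F : Set Edg) v u)

/-- The number of clusters which meet `V`. -/
noncomputable def Kc (V : Finset Vtx) (F : Finset Edg) : ℕ := (V.image (cls V F)).card

theorem mem_cls {V : Finset Vtx} {F : Finset Edg} {v u : Vtx} :
    u ∈ cls V F v ↔ u ∈ V ∧ Reach (↑F : Set Edg) v u := by
  classical
  unfold cls
  simp only [Finset.mem_filter]

theorem cls_eq {V : Finset Vtx} {F : Finset Edg} {v w : Vtx} (hw : w ∈ V) :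
    cls V F v = cls V F w ↔ Reach (↑F : Set Edg) v w := by
  constructor
  · intro h
    have : w ∈ cls V F w := mem_cls.2 ⟨hw, Reach.refl _ _⟩
    rw [← h] at this
    exact (mem_cls.1 this).2
  · intro h
    ext u
    rw [mem_cls, mem_cls]
    exact ⟨fun h1 => ⟨h1.1, h.symm.trans h1.2⟩, fun h1 => ⟨h1.1, h.trans h1.2⟩⟩

theorem reach_ins {e : Edg} {F : Finset Edg} (he : e ∉ F) {u v : Vtx} :
    Reach (↑(insert e F) : Set Edg) u v ↔ Reach (↑F : Set Edg) u v ∨
      (Reach (↑F : Set Edg) u (src e) ∧ Reach (↑F : Set Edg) (tgt e) v) ∨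
      (Reach (↑F : Set Edg) u (tgt e) ∧ Reach (↑F : Set Edg) (src e) v) := by
  have hFe : (↑F : Set Edg) \ {e} = ↑F := by
    ext x
    simp only [Set.mem_sdiff, Finset.mem_coe, Set.mem_singleton_iff]
    exact ⟨fun h => h.1, fun h => ⟨h, fun hc => he (hc ▸ h)⟩⟩
  have hsub : (↑F : Set Edg) ⊆ ↑(insert e F) := by
    rw [Finset.coe_insert]
    exact Set.subset_insert _ _
  have hst : Reach (↑(insert e F) : Set Edg) (src e) (tgt e) :=
    Adj.reach ⟨e, by rw [Finset.coe_insert]; exact Set.mem_insert _ _, Or.inl ⟨rfl, rfl⟩⟩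
  constructor
  · intro h
    rw [Finset.coe_insert] at h
    have := reach_insert h
    rwa [hFe] at this
  · rintro (h | ⟨h1, h2⟩ | ⟨h1, h2⟩)
    · exact h.mono hsub
    · exact (h1.mono hsub).trans (hst.trans (h2.mono hsub))
    · exact (h1.mono hsub).trans (hst.symm.trans (h2.mono hsub))

/-- Adding an edge. -/
theorem Kc_insert {V : Finset Vtx} {e : Edg} {F : Finset Edg} (he : e ∉ F) (hs : src e ∈ V)
    (ht : tgt e ∈ V) :
    ((Kc V (insert e F) : ℕ) : ℝ) - (Kc V F : ℕ) = ind (Cx e F) - 1 := by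
  classical
  have hFe : F.erase e = F := Finset.erase_eq_of_notMem he
  by_cases hc : Cx e F
  · have hc' : Reach (↑F : Set Edg) (src e) (tgt e) := by
      unfold Cx at hc
      rwa [hFe] at hc
    have : ∀ v ∈ V, cls V (insert e F) v = cls V F v := by
      intro v _
      ext u
      rw [mem_cls, mem_cls, reach_ins he]
      constructor
      · rintro ⟨h1, h2 | ⟨h2, h3⟩ | ⟨h2, h3⟩⟩
        · exact ⟨h1, h2⟩
        · exact ⟨h1, h2.trans (hc'.trans h3)⟩
        · exact ⟨h1, h2.trans (hc'.symm.trans h3)⟩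
      · rintro ⟨h1, h2⟩
        exact ⟨h1, Or.inl h2⟩
    unfold Kc
    rw [Finset.image_congr this, ind_of hc]
    ring
  · have hc' : ¬ Reach (↑F : Set Edg) (src e) (tgt e) := by
      unfold Cx at hc
      rwa [hFe] at hc
    obtain ⟨A, hA⟩ : ∃ A, A = cls V F (src e) := ⟨_, rfl⟩
    obtain ⟨B, hB⟩ : ∃ B, B = cls V F (tgt e) := ⟨_, rfl⟩
    obtain ⟨I, hI⟩ : ∃ I, I = V.image (cls V F) := ⟨_, rfl⟩
    have hAI : A ∈ I := by rw [hI, hA]; exact Finset.mem_image_of_mem _ hs
    have hBI : B ∈ I := by rw [hI, hB]; exact Finset.mem_image_of_mem _ ht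
    have hAB : A ≠ B := by
      rw [hA, hB]
      intro h
      exact hc' ((cls_eq ht).1 h)
    have hsA : src e ∈ A := by rw [hA]; exact mem_cls.2 ⟨hs, Reach.refl _ _⟩
    obtain ⟨g, hg⟩ : ∃ g : Finset Vtx → Finset Vtx, g = fun C => if C = A ∨ C = B then A ∪ B
      else C := ⟨_, rfl⟩
    have h1 : ∀ v ∈ V, cls V (insert e F) v = g (cls V F v) := by
      intro v _
      rw [hg]
      simp only
      have ea : cls V F v = A ↔ Reach (↑F : Set Edg) v (src e) := by rw [hA]; exact cls_eq hs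
      have eb : cls V F v = B ↔ Reach (↑F : Set Edg) v (tgt e) := by rw [hB]; exact cls_eq ht
      by_cases ca : Reach (↑F : Set Edg) v (src e)
      · rw [if_pos (Or.inl (ea.2 ca))]
        ext u
        rw [mem_cls, reach_ins he, Finset.mem_union, hA, hB, mem_cls, mem_cls]
        constructor
        · rintro ⟨h2, h3 | ⟨h3, h4⟩ | ⟨h3, h4⟩⟩
          · exact Or.inl ⟨h2, ca.symm.trans h3⟩
          · exact Or.inr ⟨h2, h4⟩
          · exact Or.inl ⟨h2, h4⟩
        · rintro (⟨h2, h3⟩ | ⟨h2, h3⟩)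
          · exact ⟨h2, Or.inl (ca.trans h3)⟩
          · exact ⟨h2, Or.inr (Or.inl ⟨ca, h3⟩)⟩
      · by_cases cb : Reach (↑F : Set Edg) v (tgt e)
        · rw [if_pos (Or.inr (eb.2 cb))]
          ext u
          rw [mem_cls, reach_ins he, Finset.mem_union, hA, hB, mem_cls, mem_cls]
          constructor
          · rintro ⟨h2, h3 | ⟨h3, h4⟩ | ⟨h3, h4⟩⟩
            · exact Or.inr ⟨h2, cb.symm.trans h3⟩
            · exact Or.inr ⟨h2, h4⟩
            · exact Or.inl ⟨h2, h4⟩
          · rintro (⟨h2, h3⟩ | ⟨h2, h3⟩)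
            · exact ⟨h2, Or.inr (Or.inr ⟨cb, h3⟩)⟩
            · exact ⟨h2, Or.inl (cb.trans h3)⟩
        · rw [if_neg (by rw [ea, eb]; tauto)]
          ext u
          rw [mem_cls, mem_cls, reach_ins he]
          constructor
          · rintro ⟨h2, h3 | ⟨h3, h4⟩ | ⟨h3, h4⟩⟩
            · exact ⟨h2, h3⟩
            · exact absurd h3 ca
            · exact absurd h3 cb
          · rintro ⟨h2, h3⟩
            exact ⟨h2, Or.inl h3⟩
    have h2 : V.image (cls V (insert e F)) = (I.erase B).image g := by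
      have e1 : V.image (cls V (insert e F)) = I.image g := by
        rw [hI, Finset.image_image]
        exact Finset.image_congr h1
      rw [e1]
      ext C
      simp only [Finset.mem_image, Finset.mem_erase]
      constructor
      · rintro ⟨D, hD, rfl⟩
        by_cases hDB : D = B
        · refine ⟨A, ⟨hAB, hAI⟩, ?_⟩
          rw [hg]
          simp [hDB]
        · exact ⟨D, ⟨hDB, hD⟩, rfl⟩
      · rintro ⟨D, ⟨_, hD⟩, rfl⟩
        exact ⟨D, hD, rfl⟩
    have hno : ∀ D ∈ I.erase B, D ≠ A → A ∪ B ≠ D := by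
      intro D hD hDA h3
      rw [Finset.mem_erase, hI, Finset.mem_image] at hD
      obtain ⟨hDB, w, hw, rfl⟩ := hD
      have h4 : src e ∈ cls V F w := by
        rw [← h3]
        exact Finset.mem_union_left _ hsA
      apply hDA
      rw [hA]
      exact (cls_eq hs).2 (mem_cls.1 h4).2
    have h3 : Set.InjOn g ↑(I.erase B) := by
      intro C hC D hD hCD
      have hCB : C ≠ B := (Finset.mem_erase.1 (Finset.mem_coe.1 hC)).1
      have hDB : D ≠ B := (Finset.mem_erase.1 (Finset.mem_coe.1 hD)).1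
      rw [hg] at hCD
      simp only at hCD
      by_cases hCA : C = A
      · by_cases hDA : D = A
        · rw [hCA, hDA]
        · rw [if_pos (Or.inl hCA), if_neg (by tauto)] at hCD
          exact absurd hCD (hno D (Finset.mem_coe.1 hD) hDA)
      · by_cases hDA : D = A
        · rw [if_neg (by tauto), if_pos (Or.inl hDA)] at hCD
          exact absurd hCD.symm (hno C (Finset.mem_coe.1 hC) hCA)
        · rw [if_neg (by tauto), if_neg (by tauto)] at hCD
          exact hCD
    unfold Kc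
    rw [h2, Finset.card_image_of_injOn h3, Finset.card_erase_of_mem hBI, ← hI, ind_not_of hc]
    have h4 : 1 ≤ I.card := Finset.card_pos.2 ⟨A, hAI⟩
    push_cast [Nat.cast_sub h4]
    ring

theorem ends_bx {n : ℕ} {e : Edg} (he : e ∈ EB n) : src e ∈ bx n ∧ tgt e ∈ bx n := by
  have h := ends_RE he
  unfold inR at h
  unfold bx
  rw [Finset.mem_product, Finset.mem_product, Finset.mem_Icc, Finset.mem_Icc, Finset.mem_Icc,
    Finset.mem_Icc]
  exact h

/-- The mean number of clusters in the box. -/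
noncomputable def EK (n : ℕ) (q : ℝ) : ℝ :=
  Ex (fun _ => q) (EB n) (fun F => ((Kc (bx n) F : ℕ) : ℝ))

theorem EK_deriv (n : ℕ) (q : ℝ) :
    HasDerivAt (EK n) (∑ e ∈ EB n, (PQ q (EB n) (Cx e) - 1)) q := by
  have h := Ex_hasDerivAt (E := Edg) (fun q _ => q) (fun _ => 1) q (fun _ => hasDerivAt_id q)
    (EB n) (fun F => ((Kc (bx n) F : ℕ) : ℝ))
  have hfun : EK n = fun q => Ex (fun _ => q) (EB n) (fun F => ((Kc (bx n) F : ℕ) : ℝ)) := rfl
  rw [hfun]
  refine h.congr_deriv ?_
  apply Finset.sum_congr rfl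
  intro e he
  rw [one_mul]
  have e1 : Ex (fun _ => q) ((EB n).erase e) (fun F => ((Kc (bx n) (insert e F) : ℕ) : ℝ) -
      ((Kc (bx n) F : ℕ) : ℝ)) = Ex (fun _ => q) ((EB n).erase e) (fun F => ind (Cx e F) - 1) := by
    apply Ex_congr
    intro F hF
    exact Kc_insert (fun h => Finset.notMem_erase e _ (hF h)) (ends_bx he).1 (ends_bx he).2
  rw [e1, Ex_sub, Ex_const]
  congr 1
  have hl : ∀ F : Finset Edg, F ⊆ EB n → (Cx e F ↔ Cx e (F ∩ (EB n).erase e)) := by
    intro F hF
    have : F ∩ (EB n).erase e = F.erase e := by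
      ext x
      simp only [Finset.mem_inter, Finset.mem_erase]
      constructor
      · rintro ⟨a1, a2, _⟩; exact ⟨a2, a1⟩
      · rintro ⟨a1, a2⟩; exact ⟨a2, a1, hF a2⟩
    rw [this, Cx_erase]
  exact (Pr_local (Finset.erase_subset e (EB n)) hl).symm

theorem Kc_empty (n : ℕ) : Kc (bx n) ∅ = n ^ 2 := by
  classical
  have h1 : ∀ v ∈ bx n, cls (bx n) ∅ v = {v} := by
    intro v hv
    ext u
    rw [mem_cls, Finset.mem_singleton]
    constructor
    · rintro ⟨_, h⟩
      induction h with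
      | refl => rfl
      | tail _ hs _ =>
        obtain ⟨g, hg, _⟩ := hs
        simp at hg
    · rintro rfl
      exact ⟨hv, Reach.refl _ _⟩
  unfold Kc
  rw [Finset.image_congr (f := cls (bx n) ∅) (g := fun v => {v}) h1,
    Finset.card_image_of_injective _ Finset.singleton_injective]
  unfold bx
  rw [Finset.card_product, Int.card_Icc]
  have : ((n:ℤ) - 1 + 1 - 0).toNat = n := by omega
  rw [this]
  ring

theorem Ex_zero (S : Finset Edg) (f : Finset Edg → ℝ) : Ex (fun _ => 0) S f = f ∅ := by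
  unfold Ex
  rw [Finset.sum_eq_single ∅]
  · simp
  · intro F _ hF
    obtain ⟨x, hx⟩ := Finset.nonempty_iff_ne_empty.2 hF
    rw [Finset.prod_eq_zero hx rfl]
    simp
  · intro h
    exact absurd (Finset.empty_mem_powerset S) h

theorem EK_zero (n : ℕ) : EK n 0 = (n : ℝ) ^ 2 := by
  unfold EK
  rw [Ex_zero, Kc_empty]
  push_cast
  rfl

end Q291.AL
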