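import Pool.Agent.Q291.AL.Good

/-!
The bound for the probability that the edges of a set are jointly pivotal.
-/

set_option autoImplicit false

namespace Q291.AL

open H974 H12S H985T H389NS Finset Pool.Agent.Y554.SN Pool.Agent.Y554.NE
open Pool.Agent.Y239.NE.Dec Pool.Agent.Y239.NE.Out

/-- The final bound. -/
def FB (M : ℕ) (e : Edg) (τ : ℕ) (a : ℝ) (k : ℕ) (S : Finset Edg) (x : Edg) : Prop :=
  ∃ (par : Edg → Edg) (rk : Edg → ℕ),
    (∀ y ∈ S, y ≠ x → par y ∈ S ∧ rk (par y) < rk y ∧ ds y (par y) ≤ τ) ∧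
    PQ (1 / 2) (boxE M) (QK e S) ≤ a ^ k * (∏ y ∈ S.erase x, ps (ds y (par y))) * ps (dm S)

theorem FB.mono {M : ℕ} {e : Edg} {τ τ' : ℕ} {a : ℝ} {k k' : ℕ} {S : Finset Edg}
    {x : Edg} (h : FB M e τ a k S x) (hτ : τ ≤ τ') (hk : k ≤ k') (ha : 1 ≤ a) :
    FB M e τ' a k' S x := by
  obtain ⟨par, rk, h3, h4⟩ := h
  refine ⟨par, rk, fun y hy hx => ?_, h4.trans ?_⟩
  · obtain ⟨e1, e2, e3⟩ := h3 y hy hx
    exact ⟨e1, e2, e3.trans hτ⟩
  · refine mul_le_mul_of_nonneg_right ?_ (ps_pos _).le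
    refine mul_le_mul_of_nonneg_right ?_ (prod_ps_nonneg _ _)
    exact pow_le_pow_right₀ ha hk

theorem ds_zero' {a b c : Edg} (h : ds a b = 0) (h' : ds c b = 0) : ds a c = 0 := by
  unfold ds at *
  omega

/-- All the edges at one position. -/
theorem gbase {a : ℝ} {M N : ℕ} {e : Edg} {t s : ℕ} {S : Finset Edg} {x : Edg} (hs : s ≤ 1)
    (hx : x ∈ S) (hall : ∀ y ∈ S, ds y x = 0) : Gd true M N e t 0 s a 0 S x := by
  refine ⟨fun _ => True, fun _ => x, fun y => if y = x then 0 else 1, fun _ _ _ => Iff.rfl,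
    fun _ _ _ _ _ _ _ _ _ => trivial, ?_, ?_⟩
  · intro y hy hyx
    refine ⟨hx, ?_, (hall y hy).le⟩
    simp [hyx]
  · have h1 : ∏ y ∈ S.erase x, ps (ds y x) = 1 := by
      refine Finset.prod_eq_one fun y hy => ?_
      rw [hall y (Finset.mem_of_mem_erase hy), ps_zero]
    have h2 : ps s = 1 := by
      rcases Nat.le_one_iff_eq_zero_or_eq_one.1 hs with h | h <;> rw [h]
      · exact ps_zero
      · exact ps_one
    rw [h1, h2, pow_zero]
    norm_num
    exact Pr_le_one (okq (by norm_num) (by norm_num)) _ _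

theorem dm_zero {S : Finset Edg} {x : Edg} (hall : ∀ y ∈ S, ds y x = 0) : dm S = 0 := by
  refine Nat.le_zero.1 (dm_le_of ?_)
  intro a ha b hb
  exact (ds_zero' (hall a ha) (hall b hb)).le

/-- KEY. -/
theorem gkey : ∃ a : ℝ, 1 ≤ a ∧ ∀ (M N : ℕ) (e : Edg), 2 * N ≤ M → ∀ (t : ℕ) (S : Finset Edg)
    (x : Edg), t ≤ 2 * N → S ⊆ boxE N → x ∈ S → conn t S →
    (∀ t', t ≤ t' → t' ≤ 2 * N → Gd true M N e t' t (max t' (dm S)) a (4 * S.card - 3) S x) ∧
    (e ∈ S → FB M e t a (4 * S.card - 3) S x) := by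
  classical
  obtain ⟨C, hC, ho⟩ := gout
  obtain ⟨a, ha1, ha2⟩ : ∃ a : ℝ, C ≤ a ∧ 36 ≤ a := ⟨max C 36, le_max_left _ _, le_max_right _ _⟩
  have ha : 1 ≤ a := by linarith
  refine ⟨a, ha, ?_⟩
  intro M N e hNM t
  induction t with
  | zero =>
    intro S x _ hS hx hc
    have h0 : ∀ y ∈ S, ds y x = 0 := by
      by_contra hcon
      push Not at hcon
      obtain ⟨z, hz, hzx⟩ := hcon
      obtain ⟨u, hu, v, hv, huv⟩ := hc (S.filter (fun y => ds y x = 0)) (Finset.filter_subset _ _)
        ⟨x, Finset.mem_filter.2 ⟨hx, ds_self x⟩⟩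
        ⟨z, Finset.mem_sdiff.2 ⟨hz, fun h => hzx (Finset.mem_filter.1 h).2⟩⟩
      rw [Finset.mem_filter] at hu
      rw [Finset.mem_sdiff, Finset.mem_filter] at hv
      refine hv.2 ⟨hv.1, ?_⟩
      have h1 := hu.2
      unfold ds at *
      omega
    have hdm := dm_zero h0
    have hcard : 1 ≤ S.card := Finset.card_pos.2 ⟨x, hx⟩
    refine ⟨?_, ?_⟩
    · intro t' _ ht'
      rcases Nat.eq_zero_or_pos t' with h | h
      · have h1 : Gd true M N e t' 0 (max t' (dm S)) a 0 S x := gbase (by omega) hx h0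
        exact h1.mono le_rfl (Nat.zero_le _) ha
      · have h1 : Gd true M N e 0 0 (max (0 + 1) (dm S)) a 0 S x := gbase (by omega) hx h0
        exact (ho a true M N e 0 t' 0 0 S x ha1 h ht' hNM hS hx h1).mono le_rfl (by omega) ha
    · intro _
      refine FB.mono (k := 0) ?_ le_rfl (Nat.zero_le _) ha
      refine ⟨fun _ => x, fun y => if y = x then 0 else 1, ?_, ?_⟩
      · intro y hy hyx
        refine ⟨hx, ?_, (h0 y hy).le⟩
        simp [hyx]
      · have h1 : ∏ y ∈ S.erase x, ps (ds y x) = 1 := by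
          refine Finset.prod_eq_one fun y hy => ?_
          rw [h0 y (Finset.mem_of_mem_erase hy), ps_zero]
        rw [h1, hdm, ps_zero, pow_zero]
        norm_num
        exact Pr_le_one (okq (by norm_num) (by norm_num)) _ _
  | succ t ih =>
    intro S x htN hS hx hc
    by_cases hall : Pool.Agent.Y968.NE.cmp t S x = S
    · have hct : conn t S := by
        rw [← hall]
        exact Pool.Agent.Y968.NE.cmp_conn hx
      obtain ⟨i1, i2⟩ := ih S x (by omega) hS hx hct
      exact ⟨fun t' h1 h2 => (i1 t' (by omega) h2).mono (Nat.le_succ t) le_rfl ha,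
        fun he => (i2 he).mono (Nat.le_succ t) le_rfl ha⟩
    · have hcmp : ∀ b ∈ S, Gd true M N e t (t + 1) (max t (dm (Pool.Agent.Y968.NE.cmp t S b))) a
          (4 * (Pool.Agent.Y968.NE.cmp t S b).card - 3) (Pool.Agent.Y968.NE.cmp t S b) b := by
        intro b hb'
        exact ((ih (Pool.Agent.Y968.NE.cmp t S b) b (by omega)
          ((Pool.Agent.Y968.NE.cmp_sub t S b).trans hS)
          (Pool.Agent.Y968.NE.self_cmp hb') (Pool.Agent.Y968.NE.cmp_conn hb')).1 t le_rfl
          (by omega)).mono (Nat.le_succ t) le_rfl ha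
      have grow : ∀ m : ℕ, ∀ U : Finset Edg, (S \ U).card = m → U ⊆ S → U ≠ S → x ∈ U →
          (∀ y ∈ U, ∀ z ∈ S, z ∉ U → t < ds y z) →
          Gd true M N e t (t + 1) (max (t + 1) (dm U)) a (4 * U.card - 2) U x →
          Gd false M N e t (t + 1) (max (t + 1) (dm S)) a (4 * S.card - 4) S x := by
        intro m
        induction m using Nat.strong_induction_on with
        | _ m ihm =>
          intro U hUm hUS hUne hxU hcl hG
          have hne : (S \ U).Nonempty := by
            rw [Finset.sdiff_nonempty]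
            intro h
            exact hUne (Finset.Subset.antisymm hUS h)
          obtain ⟨u, hu, b, hb', hub⟩ := hc U hUS ⟨x, hxU⟩ hne
          obtain ⟨hbS, hbU⟩ := Finset.mem_sdiff.1 hb'
          have hRS := Pool.Agent.Y968.NE.cmp_sub t S b
          have hbR : b ∈ Pool.Agent.Y968.NE.cmp t S b := Pool.Agent.Y968.NE.self_cmp hbS
          have hRU : ∀ z ∈ Pool.Agent.Y968.NE.cmp t S b, z ∉ U := by
            refine Pool.Agent.Y968.NE.cmp_ind hbS hbU ?_
            intro v hv w hw hvU hvw hwU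
            have := hcl w hwU v (hRS hv) hvU
            rw [Pool.Agent.Y968.NE.ds_comm] at this
            omega
          have hdisj : Disjoint U (Pool.Agent.Y968.NE.cmp t S b) := by
            rw [Finset.disjoint_right]
            exact hRU
          have hfar : ∀ v ∈ U, ∀ w ∈ Pool.Agent.Y968.NE.cmp t S b, t < ds v w := fun v hv w hw =>
            hcl v hv w (hRS hw) (hRU w hw)
          have hM := gmerge ha2 hxU hu hbR (by rw [Pool.Agent.Y968.NE.ds_comm]; exact hub)
            hfar hG (hcmp b hbS)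
          have hcard : (U ∪ Pool.Agent.Y968.NE.cmp t S b).card =
              U.card + (Pool.Agent.Y968.NE.cmp t S b).card :=
            Finset.card_union_of_disjoint hdisj
          have hc1 : 1 ≤ U.card := Finset.card_pos.2 ⟨x, hxU⟩
          have hc2 : 1 ≤ (Pool.Agent.Y968.NE.cmp t S b).card := Finset.card_pos.2 ⟨b, hbR⟩
          have e : 4 * U.card - 2 + (4 * (Pool.Agent.Y968.NE.cmp t S b).card - 3) + 1 =
              4 * (U ∪ Pool.Agent.Y968.NE.cmp t S b).card - 4 := by omega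
          rw [e] at hM
          have hU'S : U ∪ Pool.Agent.Y968.NE.cmp t S b ⊆ S := Finset.union_subset hUS hRS
          by_cases hfin : U ∪ Pool.Agent.Y968.NE.cmp t S b = S
          · rw [hfin] at hM
            exact hM
          · refine ihm (S \ (U ∪ Pool.Agent.Y968.NE.cmp t S b)).card ?_
              (U ∪ Pool.Agent.Y968.NE.cmp t S b) rfl hU'S hfin
              (Finset.mem_union_left _ hxU) ?_ (hM.weak.mono le_rfl (by omega) ha)
            · rw [← hUm]
              apply Finset.card_lt_card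
              rw [Finset.ssubset_iff_of_subset
                (Finset.sdiff_subset_sdiff (Finset.Subset.refl S) Finset.subset_union_left)]
              exact ⟨b, hb', fun h => (Finset.mem_sdiff.1 h).2 (Finset.mem_union_right _ hbR)⟩
            · intro y hy z hz hzn
              rw [Finset.mem_union, not_or] at hzn
              rcases Finset.mem_union.1 hy with hy | hy
              · exact hcl y hy z hz hzn.1
              · exact Pool.Agent.Y968.NE.cmp_far hy hz hzn.2
      have h1 := gstart (by linarith : 4 ≤ a) (hcmp x hx)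
      have hc1 : 1 ≤ (Pool.Agent.Y968.NE.cmp t S x).card :=
        Finset.card_pos.2 ⟨x, Pool.Agent.Y968.NE.self_cmp hx⟩
      have e1 : 4 * (Pool.Agent.Y968.NE.cmp t S x).card - 3 + 1 =
          4 * (Pool.Agent.Y968.NE.cmp t S x).card - 2 := by omega
      rw [e1] at h1
      have h2 := grow _ (Pool.Agent.Y968.NE.cmp t S x) rfl (Pool.Agent.Y968.NE.cmp_sub t S x) hall
        (Pool.Agent.Y968.NE.self_cmp hx)
        (fun y hy z hz hzn => Pool.Agent.Y968.NE.cmp_far hy hz hzn) h1
      have hc3 : 1 ≤ S.card := Finset.card_pos.2 ⟨x, hx⟩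
      refine ⟨?_, ?_⟩
      · intro t' ht' ht'N
        have h3 := ho a false M N e t t' (t + 1) _ S x ha1 ht' ht'N hNM hS hx h2
        exact h3.mono le_rfl (by omega) ha
      · intro he
        obtain ⟨Ev, par, rk, g1, g2, g3, g4⟩ := h2
        refine FB.mono (k := 4 * S.card - 4) ⟨par, rk, g3, ?_⟩ le_rfl (by omega) ha
        have h4 : PQ (1 / 2) (boxE M) (QK e S) ≤ PQ (1 / 2) (boxE M) Ev := by
          refine Pr_mono (okq (by norm_num) (by norm_num)) fun F hF hQ => ?_
          refine g2 S (Finset.Subset.refl _) hS he (fun h => by simp at h) ?_ F hF hQ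
          intro v _ w hw
          simp at hw
        refine (h4.trans g4).trans ?_
        apply mul_le_mul_of_nonneg_left (ps_anti (le_max_right _ _))
        exact mul_nonneg (pow_nonneg (by linarith) _) (prod_ps_nonneg _ _)

/-- The bound for all the sets which contain `e`. -/
theorem gfin : ∃ a : ℝ, 1 ≤ a ∧ ∀ (M N : ℕ) (e : Edg), 2 * N ≤ M → ∀ (S : Finset Edg),
    S ⊆ boxE N → e ∈ S → ∃ (par : Edg → Edg) (rk : Edg → ℕ),
    (∀ y ∈ S, y ≠ e → par y ∈ S ∧ rk (par y) < rk y) ∧
    PQ (1 / 2) (boxE M) (QK e S) ≤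
      a ^ (4 * S.card) * (∏ y ∈ S.erase e, ps (ds y (par y))) * ps (dm S) := by
  obtain ⟨a, ha, h⟩ := gkey
  refine ⟨a, ha, ?_⟩
  intro M N e hNM S hS he
  have hconn : conn (2 * N) S := by
    intro A hA ⟨u, hu⟩ ⟨v, hv⟩
    refine ⟨u, hu, v, hv, ?_⟩
    obtain ⟨p1, p2⟩ := pos_le (hS (hA hu))
    obtain ⟨q1, q2⟩ := pos_le (hS (mem_sdiff.1 hv).1)
    rw [abs_le] at p1 p2 q1 q2
    unfold pos at p1 p2 q1 q2
    unfold ds
    simp only at p1 p2 q1 q2
    omega
  obtain ⟨par, rk, h3, h4⟩ := ((h M N e hNM (2 * N) S e le_rfl hS he hconn).2 he).mono le_rfl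
    (show 4 * S.card - 3 ≤ 4 * S.card by omega) ha
  exact ⟨par, rk, fun y hy hye => ⟨(h3 y hy hye).1, (h3 y hy hye).2.1⟩, h4⟩

end Q291.AL
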