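import Pool.Agent.H974R2.Basic

/-!
Expansion of an expectation in the parameters of a part of the edges.
-/

set_option autoImplicit false

namespace Q291.AL

open H974 Finset

variable {E : Type*} [DecidableEq E]

theorem Ex_congr_param {p p' : E → ℝ} {S : Finset E} (h : ∀ e ∈ S, p e = p' e)
    (f : Finset E → ℝ) : Ex p S f = Ex p' S f := by
  unfold Ex
  apply Finset.sum_congr rfl
  intro F hF
  have hFS := Finset.mem_powerset.1 hF
  have e1 : ∏ e ∈ F, p e = ∏ e ∈ F, p' e := Finset.prod_congr rfl fun e he => h e (hFS he)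
  have e2 : ∏ e ∈ S \ F, (1 - p e) = ∏ e ∈ S \ F, (1 - p' e) :=
    Finset.prod_congr rfl fun e he => by rw [h e (Finset.mem_sdiff.1 he).1]
  rw [e1, e2]

/-- The difference at `a`. -/
noncomputable def Da (a : E) (f : Finset E → ℝ) (F : Finset E) : ℝ :=
  f (insert a F) - f (F.erase a)

theorem Ex_shift {p p' : E → ℝ} {V : Finset E} {a : E} (ha : a ∈ V) {δ : ℝ}
    (h1 : p' a = p a + δ) (h2 : ∀ e, e ≠ a → p' e = p e) (f : Finset E → ℝ) :
    Ex p' V f = Ex p V f + δ * Ex p V (Da a f) := by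
  obtain ⟨V0, hV0⟩ : ∃ V0, V0 = V.erase a := ⟨_, rfl⟩
  have haV : a ∉ V0 := by rw [hV0]; exact Finset.notMem_erase _ _
  have hV : V = insert a V0 := by rw [hV0, Finset.insert_erase ha]
  have hc : ∀ g : Finset E → ℝ, Ex p' V0 g = Ex p V0 g := fun g =>
    Ex_congr_param (fun e he => h2 e (fun h => haV (h ▸ he))) g
  rw [hV, Ex_insert p' haV, Ex_insert p haV, Ex_insert p haV, hc, hc, h1]
  have e1 : Ex p V0 (fun F => Da a f (insert a F)) =
      Ex p V0 (fun F => f (insert a F)) - Ex p V0 f := by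
    rw [← Ex_sub]
    apply Ex_congr
    intro F hF
    unfold Da
    rw [Finset.insert_idem, Finset.erase_insert (fun h => haV (hF h))]
  have e2 : Ex p V0 (Da a f) = Ex p V0 (fun F => f (insert a F)) - Ex p V0 f := by
    rw [← Ex_sub]
    apply Ex_congr
    intro F hF
    unfold Da
    rw [Finset.erase_eq_of_notMem (fun h => haV (hF h))]
  rw [e1, e2]
  ring

/-- The iterated difference. -/
noncomputable def Dif (S : Finset E) (f : Finset E → ℝ) (F : Finset E) : ℝ :=
  ∑ T ∈ S.powerset, (-1 : ℝ) ^ (S \ T).card * f ((F \ S) ∪ T)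

theorem Dif_empty (f : Finset E → ℝ) (F : Finset E) : Dif ∅ f F = f F := by
  simp [Dif]

theorem Dif_insert {a : E} {S : Finset E} (ha : a ∉ S) (f : Finset E → ℝ) (F : Finset E) :
    Dif (insert a S) f F = Dif S (Da a f) F := by
  unfold Dif
  rw [Finset.sum_powerset_insert ha, ← Finset.sum_add_distrib]
  apply Finset.sum_congr rfl
  intro T hT
  have hTS := Finset.mem_powerset.1 hT
  have haT : a ∉ T := fun h => ha (hTS h)
  have e1 : (insert a S \ T).card = (S \ T).card + 1 := by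
    rw [Finset.insert_sdiff_of_notMem _ haT, Finset.card_insert_of_notMem]
    exact fun h => ha (Finset.mem_sdiff.1 h).1
  have e2 : insert a S \ insert a T = S \ T := by
    ext x
    simp only [Finset.mem_sdiff, Finset.mem_insert]
    constructor
    · rintro ⟨h1 | h1, h2⟩
      · exact absurd (Or.inl h1) h2
      · exact ⟨h1, fun h => h2 (Or.inr h)⟩
    · rintro ⟨h1, h2⟩
      refine ⟨Or.inr h1, ?_⟩
      rintro (h | h)
      · exact ha (h ▸ h1)
      · exact h2 h
  have e3 : (F \ insert a S) ∪ insert a T = insert a ((F \ S) ∪ T) := by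
    ext x
    simp only [Finset.mem_union, Finset.mem_sdiff, Finset.mem_insert]
    tauto
  have e4 : (F \ insert a S) ∪ T = ((F \ S) ∪ T).erase a := by
    ext x
    simp only [Finset.mem_union, Finset.mem_sdiff, Finset.mem_insert, Finset.mem_erase]
    constructor
    · rintro (⟨h1, h2⟩ | h1)
      · push Not at h2
        exact ⟨h2.1, Or.inl ⟨h1, h2.2⟩⟩
      · exact ⟨fun h => haT (h ▸ h1), Or.inr h1⟩
    · rintro ⟨h1, h2 | h2⟩
      · refine Or.inl ⟨h2.1, ?_⟩
        push Not
        exact ⟨h1, h2.2⟩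
      · exact Or.inr h2
  unfold Da
  rw [e1, e2, e3, e4, pow_succ]
  ring

theorem Dif_single (a : E) (f : Finset E → ℝ) (F : Finset E) : Dif {a} f F = Da a f F := by
  rw [← insert_empty_eq, Dif_insert (Finset.notMem_empty a), Dif_empty]

/-- The expansion. -/
theorem expand (V : Finset E) (δ : ℝ) : ∀ (V1 : Finset E), V1 ⊆ V → ∀ f : Finset E → ℝ,
    Ex (fun e => 1 / 2 + if e ∈ V1 then δ else 0) V f =
      ∑ S ∈ V1.powerset, δ ^ S.card * Ex (fun _ => (1 / 2 : ℝ)) V (Dif S f) := by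
  intro V1
  induction V1 using Finset.induction_on with
  | empty =>
    intro _ f
    simp only [Finset.notMem_empty, if_false, add_zero, Finset.powerset_empty,
      Finset.sum_singleton, Finset.card_empty, pow_zero, one_mul]
    exact Ex_congr fun F _ => (Dif_empty f F).symm
  | insert a V1 ha ih =>
    intro hV f
    have haV : a ∈ V := hV (Finset.mem_insert_self _ _)
    have hV' : V1 ⊆ V := (Finset.subset_insert _ _).trans hV
    rw [Ex_shift (p := fun e => 1 / 2 + if e ∈ V1 then δ else 0) haV (δ := δ) (by simp [ha])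
      (by
        intro e he
        simp [Finset.mem_insert, he]), ih hV' f, ih hV' (Da a f),
      Finset.sum_powerset_insert ha, Finset.mul_sum]
    congr 1
    apply Finset.sum_congr rfl
    intro S hS
    have haS : a ∉ S := fun h => ha (Finset.mem_powerset.1 hS h)
    rw [Finset.card_insert_of_notMem haS, pow_succ]
    have : Ex (fun _ => (1 / 2 : ℝ)) V (Dif (insert a S) f) =
        Ex (fun _ => (1 / 2 : ℝ)) V (Dif S (Da a f)) :=
      Ex_congr fun F _ => Dif_insert haS f F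
    rw [this]
    ring

/-- The iterated difference vanishes if some edge is irrelevant. -/
theorem Dif_zero {S F : Finset E} {w : E} (hw : w ∈ S) {f : Finset E → ℝ}
    (h : ∀ T ⊆ S, f (insert w ((F \ S) ∪ T)) = f (((F \ S) ∪ T).erase w)) : Dif S f F = 0 := by
  have hS : S = insert w (S.erase w) := (Finset.insert_erase hw).symm
  rw [hS, Dif_insert (Finset.notMem_erase _ _)]
  unfold Dif
  apply Finset.sum_eq_zero
  intro T hT
  have hTS : T ⊆ S := (Finset.mem_powerset.1 hT).trans (Finset.erase_subset _ _)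
  have e1 : insert w ((F \ S.erase w) ∪ T) = insert w ((F \ S) ∪ T) := by
    ext x
    simp only [Finset.mem_union, Finset.mem_sdiff, Finset.mem_insert, Finset.mem_erase]
    tauto
  have e2 : ((F \ S.erase w) ∪ T).erase w = ((F \ S) ∪ T).erase w := by
    ext x
    simp only [Finset.mem_union, Finset.mem_sdiff, Finset.mem_erase]
    tauto
  unfold Da
  rw [e1, e2, h T hTS, sub_self, mul_zero]

theorem Dif_abs {S F : Finset E} {f : Finset E → ℝ} (h : ∀ F, |f F| ≤ 1) :
    |Dif S f F| ≤ 2 ^ S.card := by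
  unfold Dif
  refine (Finset.abs_sum_le_sum_abs _ _).trans ?_
  have h1 : ∀ T ∈ S.powerset, |(-1 : ℝ) ^ (S \ T).card * f ((F \ S) ∪ T)| ≤ 1 := by
    intro T _
    rw [abs_mul, abs_pow, abs_neg, abs_one, one_pow, one_mul]
    exact h _
  refine (Finset.sum_le_sum h1).trans ?_
  rw [Finset.sum_const, Finset.card_powerset, nsmul_eq_mul, mul_one]
  push_cast
  exact le_rfl

/-- Bound for the expectation of the iterated difference. -/
theorem Ex_Dif (V S : Finset E) {f : Finset E → ℝ} (h : ∀ F, |f F| ≤ 1)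
    {A : Finset E → Prop} (hA : ∀ F, F ⊆ V → (∀ w ∈ S, ∃ T ⊆ S,
      f (insert w ((F \ S) ∪ T)) ≠ f (((F \ S) ∪ T).erase w)) → A F) :
    |Ex (fun _ => (1 / 2 : ℝ)) V (Dif S f)| ≤ 2 ^ S.card * Pr (fun _ => (1 / 2 : ℝ)) V A := by
  have hok : Ok (fun _ : E => (1 / 2 : ℝ)) := fun _ => by norm_num
  have key : ∀ F, F ⊆ V → |Dif S f F| ≤ 2 ^ S.card * ind (A F) := by
    intro F hF
    by_cases hc : ∀ w ∈ S, ∃ T ⊆ S, f (insert w ((F \ S) ∪ T)) ≠ f (((F \ S) ∪ T).erase w)
    · rw [ind_of (hA F hF hc), mul_one]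
      exact Dif_abs h
    · push Not at hc
      obtain ⟨w, hw, hT⟩ := hc
      rw [Dif_zero hw hT, abs_zero]
      exact mul_nonneg (by positivity) (ind_nonneg _)
  rw [abs_le]
  unfold Pr
  rw [← Ex_mul_left]
  constructor
  · have h1 : Ex (fun _ => (1 / 2 : ℝ)) V (fun F => -(2 ^ S.card * ind (A F))) ≤
        Ex (fun _ => (1 / 2 : ℝ)) V (Dif S f) := Ex_mono hok fun F hF => (abs_le.1 (key F hF)).1
    have h2 : Ex (fun _ => (1 / 2 : ℝ)) V (fun F => -(2 ^ S.card * ind (A F))) =
        -Ex (fun _ => (1 / 2 : ℝ)) V (fun F => 2 ^ S.card * ind (A F)) := by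
      have h3 := Ex_mul_left (fun _ => (1 / 2 : ℝ)) V (-1) (fun F => 2 ^ S.card * ind (A F))
      rw [neg_one_mul] at h3
      rw [← h3]
      apply Ex_congr
      intro F _
      ring
    rw [h2] at h1
    exact h1
  · exact Ex_mono hok fun F hF => (abs_le.1 (key F hF)).2

/-- The expansion to the first order. -/
theorem tay1 (V V1 : Finset E) (hV : V1 ⊆ V) (δ : ℝ) {f : Finset E → ℝ} (h : ∀ F, |f F| ≤ 1)
    (A : Finset E → Finset E → Prop) (hA : ∀ S ⊆ V1, ∀ F, F ⊆ V → (∀ w ∈ S, ∃ T ⊆ S,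
      f (insert w ((F \ S) ∪ T)) ≠ f (((F \ S) ∪ T).erase w)) → A S F) :
    |Ex (fun e => 1 / 2 + if e ∈ V1 then δ else 0) V f - Ex (fun _ => (1 / 2 : ℝ)) V f -
      δ * ∑ g ∈ V1, Ex (fun _ => (1 / 2 : ℝ)) V (Da g f)| ≤
      ∑ S ∈ V1.powerset.filter (fun S => 2 ≤ S.card),
        (2 * |δ|) ^ S.card * Pr (fun _ => (1 / 2 : ℝ)) V (A S) := by
  classical
  rw [expand V δ V1 hV f]
  obtain ⟨t, ht⟩ : ∃ t : Finset E → ℝ, t = fun S => δ ^ S.card * Ex (fun _ => (1 / 2 : ℝ)) V
    (Dif S f) := ⟨_, rfl⟩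
  have hsplit : ∑ S ∈ V1.powerset, t S = ∑ S ∈ V1.powerset.filter (fun S => 2 ≤ S.card), t S +
      ∑ S ∈ V1.powerset.filter (fun S => ¬ 2 ≤ S.card), t S :=
    (Finset.sum_filter_add_sum_filter_not _ _ _).symm
  have hlow : V1.powerset.filter (fun S => ¬ 2 ≤ S.card) = insert ∅ (V1.image (fun g => {g})) := by
    ext S
    simp only [Finset.mem_filter, Finset.mem_powerset, Finset.mem_insert, Finset.mem_image]
    constructor
    · rintro ⟨h1, h2⟩
      have h3 : S.card = 0 ∨ S.card = 1 := by omega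
      rcases h3 with h3 | h3
      · exact Or.inl (Finset.card_eq_zero.1 h3)
      · obtain ⟨g, rfl⟩ := Finset.card_eq_one.1 h3
        exact Or.inr ⟨g, h1 (Finset.mem_singleton_self _), rfl⟩
    · rintro (rfl | ⟨g, hg, rfl⟩)
      · simp
      · simp [hg]
  have hne : (∅ : Finset E) ∉ V1.image (fun g => ({g} : Finset E)) := by
    simp only [Finset.mem_image, not_exists, not_and]
    intro g _ hc
    exact Finset.singleton_ne_empty g hc
  have h0 : t ∅ = Ex (fun _ => (1 / 2 : ℝ)) V f := by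
    rw [ht]
    simp only [Finset.card_empty, pow_zero, one_mul]
    exact Ex_congr fun F _ => Dif_empty f F
  have h1 : ∑ S ∈ V1.image (fun g => ({g} : Finset E)), t S =
      δ * ∑ g ∈ V1, Ex (fun _ => (1 / 2 : ℝ)) V (Da g f) := by
    rw [Finset.sum_image (fun x _ y _ hxy => Finset.singleton_injective hxy), Finset.mul_sum]
    apply Finset.sum_congr rfl
    intro g _
    rw [ht]
    simp only [Finset.card_singleton, pow_one]
    rw [Ex_congr fun F _ => Dif_single g f F]
  have hts : ∑ S ∈ V1.powerset, δ ^ S.card * Ex (fun _ => (1 / 2 : ℝ)) V (Dif S f) =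
      ∑ S ∈ V1.powerset, t S := by rw [ht]
  rw [hts, hsplit, hlow, Finset.sum_insert hne, h0, h1]
  have e1 : ∑ S ∈ V1.powerset.filter (fun S => 2 ≤ S.card), t S +
      (Ex (fun _ => (1 / 2 : ℝ)) V f + δ * ∑ g ∈ V1, Ex (fun _ => (1 / 2 : ℝ)) V (Da g f)) -
      Ex (fun _ => (1 / 2 : ℝ)) V f - δ * ∑ g ∈ V1, Ex (fun _ => (1 / 2 : ℝ)) V (Da g f) =
      ∑ S ∈ V1.powerset.filter (fun S => 2 ≤ S.card), t S := by ring
  rw [e1]
  refine (Finset.abs_sum_le_sum_abs _ _).trans (Finset.sum_le_sum fun S hS => ?_)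
  rw [Finset.mem_filter, Finset.mem_powerset] at hS
  rw [ht]
  simp only
  rw [abs_mul, abs_pow, mul_pow, mul_comm ((2:ℝ) ^ S.card), mul_assoc]
  exact mul_le_mul_of_nonneg_left (Ex_Dif V S h (hA S hS.1)) (by positivity)

end Q291.AL
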