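import Pool.Agent.Q291.AL.Tay
import Pool.Agent.H12R2.Sep.Loc

/-!
The connection of the two ends of an edge off this edge: change of the parameters far away.
-/

set_option autoImplicit false

namespace Q291.AL

open H974 H12S Finset

/-- The ends of `e` are connected off `e`. -/
def Cx (e : Edg) (F : Finset Edg) : Prop := Reach (↑(F.erase e) : Set Edg) (src e) (tgt e)

theorem Cx_mono {e : Edg} {F G : Finset Edg} (h : F ⊆ G) (hF : Cx e F) : Cx e G := by
  refine Reach.mono ?_ hF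
  exact_mod_cast Finset.erase_subset_erase e h

theorem Cx_incr (e : Edg) (S : Finset Edg) : IncrE S (Cx e) := fun _ _ h _ hF => Cx_mono h hF

theorem Cx_erase (e : Edg) (F : Finset Edg) : Cx e (F.erase e) ↔ Cx e F := by
  unfold Cx
  rw [Finset.erase_idem]

theorem Cx_insert (e : Edg) (F : Finset Edg) : Cx e (insert e F) ↔ Cx e F := by
  rw [← Cx_erase e (insert e F), Finset.erase_insert_eq_erase, Cx_erase]

/-- A path from a vertex of a rectangle stays in it, or meets its boundary. -/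
theorem exit_or {G : Set Edg} {a b c d : ℤ} {u v : Vtx} (hu : inR a b c d u)
    (h : Reach G u v) : Reach (G ∩ ↑(RE a b c d)) u v ∨
      ∃ w ∈ bdR a b c d, Reach (G ∩ ↑(RE a b c d)) u w := by
  have key : ∀ y, Reach G u y → (inR a b c d y ∧ Reach (G ∩ ↑(RE a b c d)) u y) ∨
      ∃ w ∈ bdR a b c d, Reach (G ∩ ↑(RE a b c d)) u w := by
    intro y hy
    induction hy with
    | refl => exact Or.inl ⟨hu, Reach.refl _ _⟩
    | @tail y y' _ hs ih =>
      rcases ih with ⟨ih1, ih2⟩ | ih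
      · obtain ⟨g, hg, hc⟩ := hs
        by_cases hgR : g ∈ RE a b c d
        · left
          obtain ⟨e1, e2⟩ := ends_RE hgR
          refine ⟨?_, ih2.trans (Adj.reach ⟨g, ⟨hg, hgR⟩, hc⟩)⟩
          rcases hc with ⟨_, h1⟩ | ⟨h1, _⟩
          · rw [← h1]; exact e2
          · rw [← h1]; exact e1
        · right
          refine ⟨y, ⟨ih1, ?_⟩, ih2⟩
          obtain ⟨g1, g2, g3⟩ := g
          unfold inR at ih1
          cases g3
          · rw [mem_RE_false] at hgR
            simp only [src_mk, tgt_false] at hc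
            rcases hc with ⟨h1, _⟩ | ⟨_, h1⟩
            · rw [← h1] at ih1 ⊢; simp only at ih1 ⊢; omega
            · rw [← h1] at ih1 ⊢; simp only at ih1 ⊢; omega
          · rw [mem_RE_true] at hgR
            simp only [src_mk, tgt_true] at hc
            rcases hc with ⟨h1, _⟩ | ⟨_, h1⟩
            · rw [← h1] at ih1 ⊢; simp only at ih1 ⊢; omega
            · rw [← h1] at ih1 ⊢; simp only at ih1 ⊢; omega
      · exact Or.inr ih
  rcases key v h with h1 | h1
  · exact Or.inl h1.2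
  · exact Or.inr h1

/-- If the connection needs the exterior of the box, there are four arms. -/
theorem Cx_four {N : ℕ} {e : Edg} (he : e ∈ boxE N) {F : Finset Edg} (h : Cx e F)
    (h' : ¬ Cx e (F ∩ boxE N)) : A4 (-N) N (-N) N e (↑F : Set Edg) := by
  obtain ⟨hs, ht⟩ := ends_RE he
  have e1 : (↑(F.erase e) : Set Edg) ∩ ↑(RE (-(N:ℤ)) N (-N) N) =
      ((↑F : Set Edg) ∩ ↑(RE (-(N:ℤ)) N (-N) N)) \ {e} := by
    ext x
    simp only [Finset.coe_erase, Set.mem_inter_iff, Set.mem_sdiff]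
    tauto
  have e2 : (↑((F ∩ boxE N).erase e) : Set Edg) =
      ((↑F : Set Edg) ∩ ↑(RE (-(N:ℤ)) N (-N) N)) \ {e} := by
    unfold boxE
    simp only [Finset.coe_erase, Finset.coe_inter]
  unfold Cx at h h'
  rw [e2] at h'
  refine ⟨?_, ?_, h'⟩
  · rcases exit_or hs h with h1 | h1
    · rw [e1] at h1
      exact absurd h1 h'
    · rw [e1] at h1
      exact h1
  · rcases exit_or ht h.symm with h1 | h1
    · rw [e1] at h1
      exact absurd h1.symm h'
    · rw [e1] at h1
      exact h1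

theorem A4_box_local {N : ℕ} {e : Edg} (F : Finset Edg) :
    A4 (-N) N (-N) N e (↑F : Set Edg) ↔ A4 (-N) N (-N) N e (↑(F ∩ boxE N) : Set Edg) := by
  have e2 : ((↑F : Set Edg) ∩ ↑(RE (-(N:ℤ)) N (-N) N)) =
      ((↑(F ∩ boxE N) : Set Edg) ∩ ↑(RE (-(N:ℤ)) N (-N) N)) := by
    unfold boxE
    simp only [Finset.coe_inter, Set.inter_assoc, Set.inter_self]
  unfold A4
  rw [e2]

/-- Comparison of the connection probabilities in two boxes. -/
theorem Cx_bnd {N M : ℕ} (hNM : N ≤ M) {e : Edg} (he : e ∈ boxE N) {r : Edg → ℝ} (hr : Ok r) :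
    Pr r (boxE N) (Cx e) ≤ Pr r (boxE M) (Cx e) ∧
      Pr r (boxE M) (Cx e) ≤ Pr r (boxE N) (Cx e) +
        Pr r (boxE N) (fun F => A4 (-N) N (-N) N e ↑F) := by
  have hsub : boxE N ⊆ boxE M := boxE_mono hNM
  have e1 : Pr r (boxE M) (fun F => Cx e (F ∩ boxE N)) = Pr r (boxE N) (Cx e) := by
    rw [Pr_local (A := fun F => Cx e (F ∩ boxE N)) hsub (fun F _ => by
      rw [Finset.inter_assoc, Finset.inter_self])]
    apply Pr_congr
    intro F hF
    rw [Finset.inter_eq_left.2 hF]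
  have e2 : Pr r (boxE M) (fun F => A4 (-N) N (-N) N e ↑F) =
      Pr r (boxE N) (fun F => A4 (-N) N (-N) N e ↑F) :=
    Pr_local hsub (fun F _ => A4_box_local F)
  refine ⟨Pr_mono_set hr hsub (Cx_incr e _), ?_⟩
  rw [← e1, ← e2]
  refine le_trans (Pr_mono hr (B := fun F => Cx e (F ∩ boxE N) ∨ A4 (-N) N (-N) N e ↑F)
    (fun F _ h => ?_)) (Pr_or_le hr _ _ _)
  by_cases h' : Cx e (F ∩ boxE N)
  · exact Or.inl h'
  · exact Or.inr (Cx_four he h h')

/-- Change of the parameters out of the box. -/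
theorem trunc {N M : ℕ} (hNM : N ≤ M) {e : Edg} (he : e ∈ boxE N) {p p' : Edg → ℝ} (hp : Ok p)
    (hp' : Ok p') (hpp : ∀ g ∈ boxE N, p g = p' g) :
    |Pr p (boxE M) (Cx e) - Pr p' (boxE M) (Cx e)| ≤
      Pr p (boxE N) (fun F => A4 (-N) N (-N) N e ↑F) := by
  obtain ⟨a1, a2⟩ := Cx_bnd hNM he hp
  obtain ⟨b1, b2⟩ := Cx_bnd hNM he hp'
  have c1 : Pr p (boxE N) (Cx e) = Pr p' (boxE N) (Cx e) := Q291.AL.Ex_congr_param hpp _
  have c2 : Pr p (boxE N) (fun F => A4 (-N) N (-N) N e ↑F) =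
      Pr p' (boxE N) (fun F => A4 (-N) N (-N) N e ↑F) := Q291.AL.Ex_congr_param hpp _
  rw [← c1, ← c2] at b2
  rw [← c1] at b1
  rw [abs_le]
  constructor <;> linarith

end Q291.AL
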